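import Pool.Agent.ANO.Geo.DistA

/-!
# ANO, module A1: (A3), length of geodesics (package GeodA)
-/

set_option autoImplicit false

open Set Filter Topology
open scoped UpperHalfPlane MatrixGroups ENNReal

namespace Pool.Agent.ANO.Geo

variable {D : ℂ → ℂ} {a b : ℍ} {l : ℝ} {c : ℝ → ℍ}

private theorem geodA_edist_le (s t : ℝ)
    (h : ∀ s' t', s ≤ s' → s' ≤ t' → t' ≤ t →
      |X D (c s') - X D (c t')| + |Y D (c s') - Y D (c t')| ≤ t' - s') (s' t' : ℝ) (h1 : s ≤ s')
    (h2 : s' ≤ t') (h3 : t' ≤ t) :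
    edist (X D (c s')) (X D (c t')) + edist (Y D (c s')) (Y D (c t')) ≤
      ENNReal.ofReal (t' - s') := by
  rw [edist_dist, edist_dist, Real.dist_eq, Real.dist_eq,
    ← ENNReal.ofReal_add (abs_nonneg _) (abs_nonneg _)]
  exact ENNReal.ofReal_le_ofReal (h s' t' h1 h2 h3)

private theorem geodA_ofReal_add {p q r : ℝ} (h1 : p ≤ q) (h2 : q ≤ r) :
    ENNReal.ofReal (q - p) + ENNReal.ofReal (r - q) = ENNReal.ofReal (r - p) := by
  rw [← ENNReal.ofReal_add (by linarith) (by linarith)]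
  congr 1
  ring

/-- Step 1 of the next theorem: `|x (c t) - x (c s)| + Vy[s, t] ≤ t - s`.
`Vy` is the supremum of `∑ |Δy|` over monotone sequences `u` in `[s, t]` (`eVariationOn`); for
such a sequence `|x (c t) - x (c s)| ≤ |x (c u₀) - x (c s)| + ∑ |Δx| + |x (c t) - x (c uₙ)|` and
`|Δx| + |Δy| ≤ Δu` for each step, the two end pieces are at most `u₀ - s`, `t - uₙ`; sum up
(telescoping).  (If the supremum is taken in `ℝ≥0∞`: `ENNReal.add_iSup` or
`ENNReal.le_of_forall...`.) -/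
theorem abs_add_len_le (s t : ℝ) (hst : s ≤ t)
    (h : ∀ s' t', s ≤ s' → s' ≤ t' → t' ≤ t →
      |X D (c s') - X D (c t')| + |Y D (c s') - Y D (c t')| ≤ t' - s') :
    ENNReal.ofReal |X D (c s) - X D (c t)| + len (Y D) c s t ≤ ENNReal.ofReal (t - s) := by
  have he := geodA_edist_le s t h
  have hx : ENNReal.ofReal |X D (c s) - X D (c t)| = edist (X D (c s)) (X D (c t)) := by
    rw [edist_dist, Real.dist_eq]
  rw [hx]
  have : Nonempty {u : ℕ → ℝ // Monotone u ∧ ∀ i, u i ∈ Icc s t} :=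
    eVariationOn.nonempty_monotone_mem ⟨s, left_mem_Icc.2 hst⟩
  unfold len eVariationOn
  rw [ENNReal.add_iSup]
  refine iSup_le ?_
  rintro ⟨n, u, hu, hu'⟩
  simp only
  have key : ∀ m : ℕ, edist (X D (c s)) (X D (c (u m))) +
      ∑ i ∈ Finset.range m, edist (Y D (c (u (i + 1)))) (Y D (c (u i))) ≤
        ENNReal.ofReal (u m - s) := by
    intro m
    induction m with
    | zero =>
      simp only [Finset.range_zero, Finset.sum_empty, add_zero]
      exact le_self_add.trans (he s (u 0) le_rfl (hu' 0).1 (hu' 0).2)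
    | succ m ih =>
      rw [Finset.sum_range_succ]
      have h1 : edist (X D (c s)) (X D (c (u (m + 1)))) ≤
          edist (X D (c s)) (X D (c (u m))) + edist (X D (c (u m))) (X D (c (u (m + 1)))) :=
        edist_triangle _ _ _
      have h2 := he (u m) (u (m + 1)) (hu' m).1 (hu (Nat.le_succ m)) (hu' (m + 1)).2
      rw [edist_comm (Y D (c (u m)))] at h2
      rw [← geodA_ofReal_add (hu' m).1 (hu (Nat.le_succ m))]
      calc _ ≤ (edist (X D (c s)) (X D (c (u m))) + edist (X D (c (u m))) (X D (c (u (m + 1))))) +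
            ((∑ i ∈ Finset.range m, edist (Y D (c (u (i + 1)))) (Y D (c (u i)))) +
              edist (Y D (c (u (m + 1)))) (Y D (c (u m)))) := by gcongr
        _ = (edist (X D (c s)) (X D (c (u m))) +
            ∑ i ∈ Finset.range m, edist (Y D (c (u (i + 1)))) (Y D (c (u i)))) +
            (edist (X D (c (u m))) (X D (c (u (m + 1)))) +
              edist (Y D (c (u (m + 1)))) (Y D (c (u m)))) := add_add_add_comm _ _ _ _
        _ ≤ _ := add_le_add ih h2
  have h1 : edist (X D (c s)) (X D (c t)) ≤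
      edist (X D (c s)) (X D (c (u n))) + edist (X D (c (u n))) (X D (c t)) :=
    edist_triangle _ _ _
  have h2 : edist (X D (c (u n))) (X D (c t)) ≤ ENNReal.ofReal (t - u n) :=
    le_self_add.trans (he (u n) t (hu' n).1 (hu' n).2 le_rfl)
  rw [← geodA_ofReal_add (hu' n).1 (hu' n).2]
  calc _ ≤ (edist (X D (c s)) (X D (c (u n))) + edist (X D (c (u n))) (X D (c t))) +
        ∑ i ∈ Finset.range n, edist (Y D (c (u (i + 1)))) (Y D (c (u i))) := by gcongr
    _ = (edist (X D (c s)) (X D (c (u n))) +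
        ∑ i ∈ Finset.range n, edist (Y D (c (u (i + 1)))) (Y D (c (u i)))) +
        edist (X D (c (u n))) (X D (c t)) := add_right_comm _ _ _
    _ ≤ _ := add_le_add (key n) h2

/-- Step 2: `Vx[s, t]` is the supremum of `∑ |Δᵢx|` over monotone sequences `u` in `[s, t]`;
`∑ |Δᵢx| + Vy[s, t] = ∑ (|Δᵢx| + Vy[uᵢ, uᵢ₊₁]) + Vy[s, u₀] + Vy[uₙ, t]` (`eVariationOn.sum'` or
`len_add` and induction) `≤ ∑ (uᵢ₊₁ - uᵢ) + (u₀ - s) + (t - uₙ) = t - s` by step 1. -/
theorem lenD_le_of_forall (s t : ℝ) (hst : s ≤ t)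
    (h : ∀ s' t', s ≤ s' → s' ≤ t' → t' ≤ t →
      |X D (c s') - X D (c t')| + |Y D (c s') - Y D (c t')| ≤ t' - s') :
    lenD D c s t ≤ ENNReal.ofReal (t - s) := by
  have he : ∀ s' t', s ≤ s' → s' ≤ t' → t' ≤ t →
      edist (X D (c t')) (X D (c s')) + len (Y D) c s' t' ≤ ENNReal.ofReal (t' - s') := by
    intro s' t' h1 h2 h3
    have h4 := abs_add_len_le (D := D) (c := c) s' t' h2
      (fun a b ha hab hb => h a b (h1.trans ha) hab (hb.trans h3))
    rwa [← Real.dist_eq, ← edist_dist, edist_comm] at h4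
  have : Nonempty {u : ℕ → ℝ // Monotone u ∧ ∀ i, u i ∈ Icc s t} :=
    eVariationOn.nonempty_monotone_mem ⟨s, left_mem_Icc.2 hst⟩
  unfold lenD
  have hX : len (X D) c s t = ⨆ p : ℕ × {u : ℕ → ℝ // Monotone u ∧ ∀ i, u i ∈ Icc s t},
      ∑ i ∈ Finset.range p.1, edist (X D (c ((p.2 : ℕ → ℝ) (i + 1))))
        (X D (c ((p.2 : ℕ → ℝ) i))) := rfl
  rw [hX, ENNReal.iSup_add]
  refine iSup_le ?_
  rintro ⟨n, u, hu, hu'⟩
  simp only
  have key : ∀ m : ℕ, (∑ i ∈ Finset.range m, edist (X D (c (u (i + 1)))) (X D (c (u i)))) +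
      len (Y D) c s (u m) ≤ ENNReal.ofReal (u m - s) := by
    intro m
    induction m with
    | zero =>
      simp only [Finset.range_zero, Finset.sum_empty, zero_add]
      exact le_add_self.trans (he s (u 0) le_rfl (hu' 0).1 (hu' 0).2)
    | succ m ih =>
      rw [Finset.sum_range_succ, ← len_add (Y D) c (hu' m).1 (hu (Nat.le_succ m)),
        ← geodA_ofReal_add (hu' m).1 (hu (Nat.le_succ m)), add_add_add_comm]
      exact add_le_add ih (he (u m) (u (m + 1)) (hu' m).1 (hu (Nat.le_succ m)) (hu' (m + 1)).2)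
  rw [← len_add (Y D) c (hu' n).1 (hu' n).2, ← geodA_ofReal_add (hu' n).1 (hu' n).2, ← add_assoc]
  exact add_le_add (key n) (le_add_self.trans (he (u n) t (hu' n).1 (hu' n).2 le_rfl))

/-- `lenD` of a geodesic: `≥` from `d1_le` for the restricted path, `≤` from
`lenD_le_of_forall` and `abs_add_abs_le_d1`. -/
theorem IsGeo.lenD_eq (hc : IsGeo D a b l c) {s t : ℝ} (hs : 0 ≤ s) (hst : s ≤ t) (ht : t ≤ l) :
    lenD D c s t = ENNReal.ofReal (t - s) := by
  refine le_antisymm (lenD_le_of_forall s t hst fun s' t' h1 h2 h3 => ?_) ?_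
  · have h4 := abs_add_abs_le_d1 D (c s') (c t')
    rw [hc.dist s' t' (hs.trans h1) h2 (h3.trans ht)] at h4
    exact (ENNReal.ofReal_le_ofReal_iff (by linarith)).1 h4
  · rw [← hc.dist s t hs hst ht]
    exact d1_le D (hc.path.sub hs hst ht)

end Pool.Agent.ANO.Geo
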