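import Pool.Agent.ANO.Geo.DistA

/-!
# ANO, module A1: (A3), existence of geodesics (package GeodB)
-/

set_option autoImplicit false

open Set Filter Topology
open scoped UpperHalfPlane MatrixGroups ENNReal

namespace Pool.Agent.ANO.Geo

variable {D : ℂ → ℂ}

private theorem cont_right (hD : Tame D) (x : ℍ) :
    Continuous (fun b => (d1 D x b).toReal) := by
  have h1 : Continuous (fun b : ℍ => (x, b)) := by fun_prop
  have h2 := hD.cont.comp h1
  exact h2

private theorem tendsto_d1 (hD : Tame D) {α : Type*} {F : Filter α} {f g : α → ℍ} {x y : ℍ}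
    (hf : Tendsto f F (𝓝 x)) (hg : Tendsto g F (𝓝 y)) :
    Tendsto (fun i => (d1 D (f i) (g i)).toReal) F (𝓝 (d1 D x y).toReal) := by
  have h1 := hD.cont.tendsto (x, y)
  have h2 := h1.comp (hf.prodMk_nhds hg)
  exact h2

private theorem contOn_right (hD : Tame D) (x : ℍ) {γ : ℝ → ℍ} {s : Set ℝ}
    (h : ContinuousOn γ s) : ContinuousOn (fun t => (d1 D x (γ t)).toReal) s := by
  have h2 := (cont_right hD x).comp_continuousOn h
  exact h2

/-- `d1`-convergence implies convergence: let `U` be a neighbourhood of `x`.  The set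
`{b | d1 D x b ≤ 1} \ interior U` is compact (`Tame.compact`), the continuous function
`b ↦ (d1 D x b).toReal` is positive on it (`Tame.eq_of_zero`, `Tame.ne_top`), so it is `≥ m > 0`
there (or the set is empty); if `d1 D (f i) x < min m 1` then `f i ∈ U`. -/
theorem tendsto_of_d1 (hD : Tame D) {α : Type*} {F : Filter α} {f : α → ℍ} {x : ℍ}
    (h : Tendsto (fun i => d1 D (f i) x) F (𝓝 0)) : Tendsto f F (𝓝 x) := by
  intro U hU
  rw [Filter.mem_map]
  have hgc := cont_right hD x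
  have hC : IsCompact ({b : ℍ | d1 D x b ≤ ENNReal.ofReal 1} \ interior U) :=
    (hD.compact x 1).diff isOpen_interior
  obtain ⟨m, hm, hmC⟩ : ∃ m > 0, ∀ b ∈ {b : ℍ | d1 D x b ≤ ENNReal.ofReal 1} \ interior U,
      m ≤ (d1 D x b).toReal := by
    rcases ({b : ℍ | d1 D x b ≤ ENNReal.ofReal 1} \ interior U).eq_empty_or_nonempty with h0 | h0
    · exact ⟨1, one_pos, fun b hb => by
        rw [h0] at hb
        exact absurd hb (notMem_empty b)⟩
    · obtain ⟨z, hz, hmin⟩ := hC.exists_isMinOn h0 hgc.continuousOn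
      refine ⟨(d1 D x z).toReal, ?_, fun w hw => isMinOn_iff.mp hmin w hw⟩
      refine ENNReal.toReal_pos (fun h1 => ?_) (hD.ne_top x z)
      have h2 := hD.eq_of_zero x z h1
      exact hz.2 (h2 ▸ mem_interior_iff_mem_nhds.mpr hU)
  have hev : ∀ᶠ i in F, d1 D (f i) x < min (ENNReal.ofReal m) (ENNReal.ofReal 1) :=
    h.eventually_lt tendsto_const_nhds (lt_min (ENNReal.ofReal_pos.mpr hm) (by simp))
  filter_upwards [hev] with i hi
  by_contra hcon
  have h1 : f i ∈ {b : ℍ | d1 D x b ≤ ENNReal.ofReal 1} \ interior U := by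
    refine ⟨?_, fun h2 => hcon (show f i ∈ U from interior_subset h2)⟩
    change d1 D x (f i) ≤ ENNReal.ofReal 1
    rw [d1_comm]
    exact (hi.trans_le (min_le_right _ _)).le
  have h2 := hmC _ h1
  rw [d1_comm] at hi
  have h3 : ENNReal.ofReal m ≤ d1 D x (f i) := by
    rw [← ENNReal.ofReal_toReal (hD.ne_top x (f i))]
    exact ENNReal.ofReal_le_ofReal h2
  exact absurd (hi.trans_le (min_le_left _ _)) (not_lt.mpr h3)

/-- Almost geodesics.  `l = (d1 a b).toReal`.  Take a path `γ` on `[0, 1]` with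
`lenD γ < l + ε` (`exists_path_lt`).  For `s ∈ [0, l]` choose `τ s ∈ [0, 1]` with
`d1 a (γ (τ s)) = s` (intermediate value theorem for the continuous function
`t ↦ (d1 a (γ t)).toReal`, which is `0` at `0` and `l` at `1`), `f s = γ (τ s)`.
With `v t = lenD γ 0 t` (finite): `v (τ s) ≥ s` and `lenD γ (τ s) 1 ≥ d1 (γ (τ s)) b ≥ l - s`,
so `s ≤ v (τ s) < s + ε`.  Hence `d1 (f s) (f t) ≤ |v (τ s) - v (τ t)| ≤ |s - t| + ε`
(`lenD_add`, `d1_le` for the restricted path, in the order of `τ s`, `τ t`).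
Moreover `d1 a (f 0) = 0` and `d1 (f l) b ≤ lenD γ (τ l) 1 < ε`. -/
theorem exists_almost_geo (hD : Tame D) (a b : ℍ) (ε : ℝ) (hε : 0 < ε) :
    ∃ f : ℝ → ℍ, f 0 = a ∧ d1 D (f (d1 D a b).toReal) b ≤ ENNReal.ofReal ε ∧
      (∀ s ∈ Icc 0 (d1 D a b).toReal, d1 D a (f s) = ENNReal.ofReal s) ∧
      ∀ s ∈ Icc 0 (d1 D a b).toReal, ∀ t ∈ Icc 0 (d1 D a b).toReal,
        d1 D (f s) (f t) ≤ ENNReal.ofReal (|s - t| + ε) := by
  obtain ⟨l, hl⟩ : ∃ l, l = (d1 D a b).toReal := ⟨_, rfl⟩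
  rw [← hl]
  have hl0 : 0 ≤ l := hl ▸ ENNReal.toReal_nonneg
  have hd : d1 D a b = ENNReal.ofReal l := by
    rw [hl, ENNReal.ofReal_toReal (hD.ne_top a b)]
  have hlt : d1 D a b < ENNReal.ofReal (l + ε) := by
    rw [hd]
    exact (ENNReal.ofReal_lt_ofReal_iff (by linarith)).mpr (by linarith)
  obtain ⟨γ, hγ, hγl⟩ := exists_path_lt D hlt
  -- real valued lengths
  have hmono : ∀ u w, 0 ≤ u → w ≤ 1 → lenD D γ u w ≤ lenD D γ 0 1 := fun u w hu hw =>
    add_le_add (len_mono _ _ hu hw) (len_mono _ _ hu hw)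
  have hfin : ∀ u w, 0 ≤ u → w ≤ 1 → lenD D γ u w ≠ ⊤ := fun u w hu hw =>
    ((hmono u w hu hw).trans_lt (hγl.trans ENNReal.ofReal_lt_top)).ne
  obtain ⟨L, hL⟩ : ∃ L : ℝ → ℝ → ℝ, ∀ u w, L u w = (lenD D γ u w).toReal :=
    ⟨_, fun _ _ => rfl⟩
  have hLn : ∀ u w, 0 ≤ L u w := fun u w => by
    rw [hL]
    exact ENNReal.toReal_nonneg
  have hLof : ∀ u w, 0 ≤ u → w ≤ 1 → lenD D γ u w = ENNReal.ofReal (L u w) := fun u w hu hw => by
    rw [hL, ENNReal.ofReal_toReal (hfin u w hu hw)]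
  have hLadd : ∀ u v w, 0 ≤ u → u ≤ v → v ≤ w → w ≤ 1 → L u v + L v w = L u w := by
    intro u v w hu huv hvw hw
    rw [hL, hL, hL, ← ENNReal.toReal_add (hfin u v hu (hvw.trans hw)) (hfin v w (hu.trans huv) hw),
      lenD_add D γ huv hvw]
  have hL1 : L 0 1 < l + ε := by
    have h1 : ENNReal.ofReal (L 0 1) < ENNReal.ofReal (l + ε) := by
      rw [← hLof 0 1 le_rfl le_rfl]
      exact hγl
    exact (ENNReal.ofReal_lt_ofReal_iff (by linarith)).mp h1
  -- distance to `a` along the path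
  have hgc : ContinuousOn (fun t => (d1 D a (γ t)).toReal) (Icc 0 1) :=
    contOn_right hD a hγ.cont
  have hiv := intermediate_value_Icc (zero_le_one' ℝ) hgc
  simp only [hγ.left, hγ.right, d1_self, ENNReal.toReal_zero, ← hl] at hiv
  have hex : ∀ s, ∃ τ, s ∈ Icc 0 l → τ ∈ Icc (0 : ℝ) 1 ∧ (d1 D a (γ τ)).toReal = s := by
    intro s
    by_cases hs : s ∈ Icc 0 l
    · obtain ⟨τ, hτ, h1⟩ := hiv hs
      exact ⟨τ, fun _ => ⟨hτ, h1⟩⟩
    · exact ⟨0, fun h => absurd h hs⟩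
  choose τ hτ using hex
  have hda : ∀ s ∈ Icc 0 l, d1 D a (γ (τ s)) = ENNReal.ofReal s := by
    intro s hs
    rw [← ENNReal.ofReal_toReal (hD.ne_top a (γ (τ s))), (hτ s hs).2]
  have hlow : ∀ s ∈ Icc 0 l, s ≤ L 0 (τ s) := by
    intro s hs
    have h1 := (hτ s hs).1
    have h2 := d1_le D (hγ.sub le_rfl h1.1 h1.2)
    rw [hγ.left, hda s hs, hLof 0 (τ s) le_rfl h1.2] at h2
    exact (ENNReal.ofReal_le_ofReal_iff (hLn _ _)).mp h2
  have hupp : ∀ s ∈ Icc 0 l, L 0 (τ s) ≤ s + ε := by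
    intro s hs
    have h1 := (hτ s hs).1
    have h2 := d1_le D (hγ.sub h1.1 h1.2 le_rfl)
    rw [hγ.right, hLof (τ s) 1 h1.1 le_rfl] at h2
    have h3 := d1_triangle D a (γ (τ s)) b
    rw [hda s hs, hd] at h3
    have h4 : ENNReal.ofReal l ≤ ENNReal.ofReal (s + L (τ s) 1) := by
      rw [ENNReal.ofReal_add hs.1 (hLn _ _)]
      exact h3.trans (add_le_add le_rfl h2)
    have h5 : l ≤ s + L (τ s) 1 := (ENNReal.ofReal_le_ofReal_iff
      (add_nonneg hs.1 (hLn _ _))).mp h4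
    have h6 := hLadd 0 (τ s) 1 le_rfl h1.1 h1.2 le_rfl
    linarith
  have hkey : ∀ s ∈ Icc 0 l, ∀ t ∈ Icc 0 l, τ s ≤ τ t →
      d1 D (γ (τ s)) (γ (τ t)) ≤ ENNReal.ofReal (|s - t| + ε) := by
    intro s hs t ht hst
    have h1 := (hτ s hs).1
    have h2 := (hτ t ht).1
    have h3 := d1_le D (hγ.sub h1.1 hst h2.2)
    rw [hLof (τ s) (τ t) h1.1 h2.2] at h3
    refine h3.trans (ENNReal.ofReal_le_ofReal ?_)
    have h4 := hLadd 0 (τ s) (τ t) le_rfl h1.1 hst h2.2
    have h5 := hlow s hs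
    have h6 := hupp t ht
    have h7 := neg_abs_le (s - t)
    linarith
  refine ⟨fun s => γ (τ s), ?_, ?_, hda, ?_⟩
  · have h0 : (0 : ℝ) ∈ Icc 0 l := ⟨le_rfl, hl0⟩
    have h1 := hda 0 h0
    rw [ENNReal.ofReal_zero] at h1
    exact (hD.eq_of_zero _ _ h1).symm
  · have h0 : l ∈ Icc 0 l := ⟨hl0, le_rfl⟩
    have h1 := (hτ l h0).1
    have h2 := d1_le D (hγ.sub h1.1 h1.2 le_rfl)
    rw [hγ.right, hLof (τ l) 1 h1.1 le_rfl] at h2
    refine h2.trans (ENNReal.ofReal_le_ofReal ?_)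
    have h3 := hLadd 0 (τ l) 1 le_rfl h1.1 h1.2 le_rfl
    have h4 := hlow l h0
    linarith
  · intro s hs t ht
    rcases le_total (τ s) (τ t) with h | h
    · exact hkey s hs t ht h
    · change d1 D (γ (τ s)) (γ (τ t)) ≤ _
      rw [d1_comm, abs_sub_comm]
      exact hkey t ht s hs h

/-- Existence of geodesics.  `fₙ` from `exists_almost_geo` with `ε = 1/(n+1)`.  For `s ∈ [0, l]`
all `fₙ s` lie in the compact set `{b | d1 a b ≤ l}` (`Tame.compact`), so they converge to a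
point `c s` along a nonprincipal ultrafilter on `ℕ` (`Filter.hyperfilter ℕ`,
`IsCompact.ultrafilter_le_nhds`).  By continuity of `d1`: `d1 (c s) (c t) ≤ |s - t|`, `c 0 = a`,
`c l = b` (`d1 (c l) b = 0`, `Tame.eq_of_zero`).  Since
`l = d1 a b ≤ d1 a (c s) + d1 (c s) (c t) + d1 (c t) b ≤ s + d1 (c s) (c t) + (l - t)`
we get equality `d1 (c s) (c t) = t - s` for `0 ≤ s ≤ t ≤ l`.  `c` is continuous on `[0, l]` by
`tendsto_of_d1`. -/
theorem exists_geo (hD : Tame D) (a b : ℍ) :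
    ∃ c : ℝ → ℍ, IsGeo D a b (d1 D a b).toReal c := by
  have hex : ∀ n : ℕ, ∃ f : ℝ → ℍ, f 0 = a ∧
      d1 D (f (d1 D a b).toReal) b ≤ ENNReal.ofReal (1 / ((n : ℝ) + 1)) ∧
      (∀ s ∈ Icc 0 (d1 D a b).toReal, d1 D a (f s) = ENNReal.ofReal s) ∧
      ∀ s ∈ Icc 0 (d1 D a b).toReal, ∀ t ∈ Icc 0 (d1 D a b).toReal,
        d1 D (f s) (f t) ≤ ENNReal.ofReal (|s - t| + 1 / ((n : ℝ) + 1)) :=
    fun n : ℕ => exists_almost_geo hD a b (1 / ((n : ℝ) + 1)) (by positivity)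
  obtain ⟨l, hl⟩ : ∃ l, l = (d1 D a b).toReal := ⟨_, rfl⟩
  rw [← hl] at hex ⊢
  have hl0 : 0 ≤ l := hl ▸ ENNReal.toReal_nonneg
  choose f hf0 hfl hfa hfd using hex
  have hε : Tendsto (fun n : ℕ => 1 / ((n : ℝ) + 1)) (hyperfilter ℕ : Filter ℕ) (𝓝 0) :=
    tendsto_one_div_add_atTop_nhds_zero_nat.mono_left Nat.hyperfilter_le_atTop
  have hlim : ∀ s, ∃ x, s ∈ Icc 0 l →
      Tendsto (fun n => f n s) (hyperfilter ℕ : Filter ℕ) (𝓝 x) := by
    intro s
    by_cases hs : s ∈ Icc 0 l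
    · have hK := hD.compact a l
      obtain ⟨x, -, hx⟩ := hK.ultrafilter_le_nhds ((hyperfilter ℕ).map (fun n => f n s)) (by
        rw [le_principal_iff, Ultrafilter.mem_coe, Ultrafilter.mem_map]
        refine Filter.mem_of_superset Filter.univ_mem (fun n _ => ?_)
        change d1 D a (f n s) ≤ ENNReal.ofReal l
        rw [hfa n s hs]
        exact ENNReal.ofReal_le_ofReal hs.2)
      exact ⟨x, fun _ => hx⟩
    · exact ⟨a, fun h => absurd h hs⟩
  choose c hc using hlim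
  have hone : ∀ s ∈ Icc 0 l, ∀ t ∈ Icc 0 l, d1 D (c s) (c t) ≤ ENNReal.ofReal |s - t| := by
    intro s hs t ht
    have h1 : Tendsto (fun n => (d1 D (f n s) (f n t)).toReal) (hyperfilter ℕ : Filter ℕ)
        (𝓝 (d1 D (c s) (c t)).toReal) := tendsto_d1 hD (hc s hs) (hc t ht)
    have h2 : Tendsto (fun n : ℕ => |s - t| + 1 / ((n : ℝ) + 1)) (hyperfilter ℕ : Filter ℕ)
        (𝓝 (|s - t| + 0)) := hε.const_add _
    have h3 : (d1 D (c s) (c t)).toReal ≤ |s - t| + 0 := by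
      refine le_of_tendsto_of_tendsto' h1 h2 (fun n => ?_)
      exact ENNReal.toReal_le_of_le_ofReal (by positivity) (hfd n s hs t ht)
    rw [← ENNReal.ofReal_toReal (hD.ne_top (c s) (c t))]
    exact ENNReal.ofReal_le_ofReal (by linarith)
  have h0m : (0 : ℝ) ∈ Icc 0 l := ⟨le_rfl, hl0⟩
  have hlm : l ∈ Icc 0 l := ⟨hl0, le_rfl⟩
  have hc0 : c 0 = a := by
    refine tendsto_nhds_unique (hc 0 h0m) ?_
    simp only [hf0]
    exact tendsto_const_nhds
  have hcl : c l = b := by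
    refine tendsto_nhds_unique (hc l hlm) (tendsto_of_d1 hD ?_)
    have h1 : Tendsto (fun n : ℕ => ENNReal.ofReal (1 / ((n : ℝ) + 1)))
        (hyperfilter ℕ : Filter ℕ) (𝓝 0) := by
      have := ENNReal.tendsto_ofReal hε
      rwa [ENNReal.ofReal_zero] at this
    exact tendsto_of_tendsto_of_tendsto_of_le_of_le tendsto_const_nhds h1
      (fun n => zero_le) (fun n => hfl n)
  refine ⟨c, ⟨⟨hl0, ?_, hc0, hcl⟩, ?_⟩⟩
  · intro s hs
    refine tendsto_of_d1 hD ?_
    have h1 : Tendsto (fun t : ℝ => ENNReal.ofReal |t - s|) (𝓝[Icc 0 l] s) (𝓝 0) := by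
      have h2 : Tendsto (fun t : ℝ => |t - s|) (𝓝[Icc 0 l] s) (𝓝 0) := by
        have h3 : Continuous fun t : ℝ => |t - s| := by fun_prop
        have h4 := (h3.tendsto s).mono_left (nhdsWithin_le_nhds (s := Icc 0 l))
        simpa using h4
      have := ENNReal.tendsto_ofReal h2
      rwa [ENNReal.ofReal_zero] at this
    refine tendsto_of_tendsto_of_tendsto_of_le_of_le' tendsto_const_nhds h1
      (Eventually.of_forall fun t => zero_le) ?_
    filter_upwards [self_mem_nhdsWithin] with t ht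
    exact hone t ht s hs
  · intro s t hs hst ht
    have hsm : s ∈ Icc 0 l := ⟨hs, hst.trans ht⟩
    have htm : t ∈ Icc 0 l := ⟨hs.trans hst, ht⟩
    refine le_antisymm ?_ ?_
    · have h1 := hone s hsm t htm
      rwa [abs_sub_comm, abs_of_nonneg (sub_nonneg.mpr hst)] at h1
    · have h1 := hone 0 h0m s hsm
      have h2 := hone t htm l hlm
      rw [hc0, zero_sub, abs_neg, abs_of_nonneg hs] at h1
      rw [hcl, abs_sub_comm, abs_of_nonneg (sub_nonneg.mpr ht)] at h2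
      have h3 := (d1_triangle D a (c s) b).trans
        (add_le_add le_rfl (d1_triangle D (c s) (c t) b))
      rw [← ENNReal.ofReal_toReal (hD.ne_top (c s) (c t))] at h3 ⊢
      rw [← ENNReal.ofReal_toReal (hD.ne_top a b), ← hl] at h3
      have h4 : ENNReal.ofReal l ≤
          ENNReal.ofReal (s + ((d1 D (c s) (c t)).toReal + (l - t))) := by
        rw [ENNReal.ofReal_add hs (add_nonneg ENNReal.toReal_nonneg (sub_nonneg.mpr ht)),
          ENNReal.ofReal_add ENNReal.toReal_nonneg (sub_nonneg.mpr ht)]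
        exact h3.trans (add_le_add h1 (add_le_add le_rfl h2))
      have h5 := (ENNReal.ofReal_le_ofReal_iff (by
        have := @ENNReal.toReal_nonneg (d1 D (c s) (c t))
        have := sub_nonneg.mpr ht
        linarith)).mp h4
      exact ENNReal.ofReal_le_ofReal (by linarith)

end Pool.Agent.ANO.Geo
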