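import Pool.Agent.ANO.Geo.DistA

/-!
# ANO, module A1: (A2), lower bounds (package Lower)
-/

set_option autoImplicit false

open Set Filter Topology
open scoped UpperHalfPlane MatrixGroups ENNReal

namespace Pool.Agent.ANO.Geo

private theorem continuous_D (S : FlatSurface) : Continuous fun z : ℍ => S.D z := by
  rw [continuous_iff_continuousAt]
  intro z
  have hopen : IsOpen {z : ℂ | 0 < z.im} := isOpen_lt continuous_const Complex.continuous_im
  have h1 : ContinuousAt S.D (z : ℂ) :=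
    (S.holo.continuousOn).continuousAt (hopen.mem_nhds z.im_pos)
  exact ContinuousAt.comp (f := fun z : ℍ => (z : ℂ)) h1
    UpperHalfPlane.continuous_coe.continuousAt

/-- `D` is analytic and not constant on the connected half plane, so `D - D a₀` has an isolated
zero at `a₀` (`AnalyticOnNhd.eqOn_of_preconnected_of_frequently_eq`,
`DifferentiableOn.analyticOnNhd`):
there is `0 < ρ < r` such that `D ≠ D a₀` on the hyperbolic sphere of radius `ρ`. -/
theorem exists_radius (S : FlatSurface) (a₀ : ℍ) (r : ℝ) (hr : 0 < r) :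
    ∃ ρ, 0 < ρ ∧ ρ < r ∧ ∀ z : ℍ, dist z a₀ = ρ → S.D z ≠ S.D a₀ := by
  by_contra hcon
  push Not at hcon
  have hopen : IsOpen {z : ℂ | 0 < z.im} := isOpen_lt continuous_const Complex.continuous_im
  have han : AnalyticOnNhd ℂ S.D {z : ℂ | 0 < z.im} := S.holo.analyticOnNhd hopen
  have hconst : AnalyticOnNhd ℂ (fun _ : ℂ => S.D a₀) {z : ℂ | 0 < z.im} := analyticOnNhd_const
  have hpre : IsPreconnected {z : ℂ | 0 < z.im} := (convex_halfSpace_im_gt 0).isPreconnected
  have hfreq : ∃ᶠ z in 𝓝[≠] (a₀ : ℂ), S.D z = (fun _ : ℂ => S.D a₀) z := by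
    rw [Filter.frequently_iff]
    intro U hU
    rw [mem_nhdsWithin] at hU
    obtain ⟨V, hV, haV, hVU⟩ := hU
    have hpr : (fun z : ℍ => (z : ℂ)) ⁻¹' V ∈ 𝓝 a₀ :=
      UpperHalfPlane.continuous_coe.continuousAt.preimage_mem_nhds (hV.mem_nhds haV)
    obtain ⟨ε, hε, hball⟩ := Metric.mem_nhds_iff.mp hpr
    have hmin : 0 < min ε r := lt_min hε hr
    obtain ⟨z, hz, hD⟩ := hcon (min ε r / 2) (by positivity)
      (by have := min_le_right ε r; linarith)
    have hne : z ≠ a₀ := by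
      rintro rfl
      rw [dist_self] at hz
      linarith
    refine ⟨(z : ℂ), hVU ⟨hball ?_, ?_⟩, hD⟩
    · rw [Metric.mem_ball, hz]
      have := min_le_left ε r
      linarith
    · intro h
      exact hne (UpperHalfPlane.ext h)
  have heq := han.eqOn_of_preconnected_of_frequently_eq hconst hpre a₀.im_pos hfreq
  obtain ⟨z, w, hzw⟩ := S.nonconst
  exact hzw ((heq z.im_pos).trans (heq w.im_pos).symm)

/-- Local form.  `ρ` from `exists_radius` with `r/2`; `|D - D a₀| ≥ 2 m₀ > 0` on the compact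
sphere (`ProperSpace ℍ`, `isCompact_sphere`; if the sphere is empty take `m₀ = 1`).  Near `a₀` we
have `|D a - D a₀| ≤ m₀` and `dist a a₀ < ρ`.  A path from such an `a` to `b` with
`r ≤ dist a b` satisfies `dist b a₀ > ρ`, so by the intermediate value theorem it meets the sphere
at a point `z = c τ`, and
`lenD c p q ≥ lenD c p τ ≥ ofReal (|x a - x z| + |y a - y z|) ≥ ofReal ‖D a - D z‖ ≥ ofReal m₀`
(`abs_add_abs_le_lenD`, `IsPath.sub`, `Complex.norm_le_abs_re_add_abs_im`). -/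
theorem lower_local (S : FlatSurface) (r : ℝ) (hr : 0 < r) (a₀ : ℍ) :
    ∃ m > 0, ∀ᶠ a in 𝓝 a₀, ∀ (b : ℍ), r ≤ dist a b → ∀ (c : ℝ → ℍ) (p q : ℝ),
      IsPath a b p q c → ENNReal.ofReal m ≤ lenD S.D c p q := by
  obtain ⟨ρ, hρ, hρr, hne⟩ := exists_radius S a₀ (r / 2) (by linarith)
  have hDc : Continuous fun z : ℍ => S.D z := continuous_D S
  have hcomp : IsCompact (Metric.sphere a₀ ρ) := isCompact_sphere _ _
  obtain ⟨m₀, hm₀, hm⟩ : ∃ m₀ > 0, ∀ z ∈ Metric.sphere a₀ ρ,
      2 * m₀ ≤ ‖S.D z - S.D a₀‖ := by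
    rcases (Metric.sphere a₀ ρ).eq_empty_or_nonempty with h | h
    · exact ⟨1, one_pos, by simp [h]⟩
    · obtain ⟨z, hz, hmin⟩ := hcomp.exists_isMinOn h
        (f := fun z : ℍ => ‖S.D z - S.D a₀‖) (hDc.sub continuous_const).norm.continuousOn
      have hz0 : 0 < ‖S.D z - S.D a₀‖ :=
        norm_pos_iff.mpr (sub_ne_zero.mpr (hne z (Metric.mem_sphere.mp hz)))
      refine ⟨‖S.D z - S.D a₀‖ / 2, by positivity, fun w hw => ?_⟩
      have := isMinOn_iff.mp hmin w hw
      linarith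
  refine ⟨m₀, hm₀, ?_⟩
  have h1 : ∀ᶠ a : ℍ in 𝓝 a₀, ‖S.D a - S.D a₀‖ < m₀ := by
    have hc : Continuous fun z : ℍ => ‖S.D z - S.D a₀‖ := (hDc.sub continuous_const).norm
    refine hc.continuousAt.eventually_lt continuousAt_const ?_
    simpa using hm₀
  have h2 : ∀ᶠ a in 𝓝 a₀, dist a a₀ < ρ := Metric.ball_mem_nhds a₀ hρ
  filter_upwards [h1, h2] with a ha1 ha2 b hb c p q hc
  have hb2 : ρ < dist b a₀ := by
    have h3 := dist_triangle a a₀ b
    rw [dist_comm a₀ b] at h3
    linarith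
  have hcont : ContinuousOn (fun t => dist (c t) a₀) (Icc p q) :=
    (continuous_id.dist continuous_const).comp_continuousOn hc.cont
  obtain ⟨τ, hτ, hτρ⟩ : ∃ τ ∈ Icc p q, dist (c τ) a₀ = ρ := by
    have h4 := intermediate_value_Icc hc.le hcont
    have h5 : ρ ∈ Icc (dist (c p) a₀) (dist (c q) a₀) := by
      rw [hc.left, hc.right]
      exact ⟨ha2.le, hb2.le⟩
    obtain ⟨τ, hτ, h6⟩ := h4 h5
    exact ⟨τ, hτ, h6⟩
  have hsub : IsPath (c p) (c τ) p τ c := hc.sub le_rfl hτ.1 hτ.2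
  have h7 := abs_add_abs_le_lenD S.D hsub
  rw [hc.left] at h7
  have h8 : lenD S.D c p τ ≤ lenD S.D c p q :=
    add_le_add (len_mono _ _ le_rfl hτ.2) (len_mono _ _ le_rfl hτ.2)
  refine le_trans (ENNReal.ofReal_le_ofReal ?_) (h7.trans h8)
  have h9 : ‖S.D a - S.D (c τ)‖ ≤ |X S.D a - X S.D (c τ)| + |Y S.D a - Y S.D (c τ)| := by
    have := Complex.norm_le_abs_re_add_abs_im (S.D a - S.D (c τ))
    simpa [X, Y] using this
  have h10 := hm (c τ) (Metric.mem_sphere.mpr hτρ)
  have h11 : ‖S.D (c τ) - S.D a₀‖ ≤ ‖S.D a - S.D (c τ)‖ + ‖S.D a - S.D a₀‖ := by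
    have : S.D (c τ) - S.D a₀ = -(S.D a - S.D (c τ)) + (S.D a - S.D a₀) := by ring
    rw [this]
    refine (norm_add_le _ _).trans ?_
    rw [norm_neg]
  linarith

/-- Uniform form.  For `a` in the compact set `K` of `S.cocompact` : `IsCompact.induction_on` with
`lower_local`.  In general choose `γ` with `γ • a ∈ K` and apply the result to the path `γ • c`
(`IsPath.comp`, `UpperHalfPlane` isometry `dist_smul`, `len_scale` with `k = ±1` from
`S.equivar`). -/
theorem exists_lower (S : FlatSurface) (r : ℝ) (hr : 0 < r) :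
    ∃ m > 0, ∀ (a b : ℍ), r ≤ dist a b → ∀ (c : ℝ → ℍ) (p q : ℝ),
      IsPath a b p q c → ENNReal.ofReal m ≤ lenD S.D c p q := by
  obtain ⟨K, hK, hcov⟩ := S.cocompact
  obtain ⟨m, hm, hmK⟩ : ∃ m > 0, ∀ a ∈ K, ∀ (b : ℍ), r ≤ dist a b →
      ∀ (c : ℝ → ℍ) (p q : ℝ), IsPath a b p q c → ENNReal.ofReal m ≤ lenD S.D c p q := by
    refine hK.induction_on (p := fun s => ∃ m > 0, ∀ a ∈ s, ∀ (b : ℍ), r ≤ dist a b →
      ∀ (c : ℝ → ℍ) (p q : ℝ), IsPath a b p q c → ENNReal.ofReal m ≤ lenD S.D c p q)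
      ⟨1, one_pos, by simp⟩ ?_ ?_ ?_
    · rintro s t hst ⟨m, hm, h⟩
      exact ⟨m, hm, fun a ha => h a (hst ha)⟩
    · rintro s t ⟨m, hm, h⟩ ⟨m', hm', h'⟩
      refine ⟨min m m', lt_min hm hm', ?_⟩
      rintro a (ha | ha) b hb c p q hc
      · exact (ENNReal.ofReal_le_ofReal (min_le_left _ _)).trans (h a ha b hb c p q hc)
      · exact (ENNReal.ofReal_le_ofReal (min_le_right _ _)).trans (h' a ha b hb c p q hc)
    · intro a₀ _
      obtain ⟨m, hm, h⟩ := lower_local S r hr a₀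
      exact ⟨_, mem_nhdsWithin_of_mem_nhds h, m, hm, fun a ha => ha⟩
  refine ⟨m, hm, fun a b hab c p q hc => ?_⟩
  obtain ⟨γ, hγ, hγa⟩ := hcov a
  obtain ⟨ε, c₀, hε, hD⟩ := S.equivar γ hγ
  have hcγ : Continuous fun z : ℍ => γ • z := (isometry_smul ℍ γ).continuous
  have h1 := hmK (γ • a) hγa (γ • b) (by rwa [dist_smul]) _ p q
    (hc.comp (fun z => γ • z) hcγ)
  have h2 : lenD S.D (fun t => γ • c t) p q = lenD S.D c p q := by
    rcases hε with rfl | rfl
    · have hx := len_scale (X S.D) (fun z => γ • z) 1 c₀.re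
        (fun z => by simp [X, hD z]) c p q
      have hy := len_scale (Y S.D) (fun z => γ • z) 1 c₀.im
        (fun z => by simp [Y, hD z]) c p q
      simp only [lenD]
      rw [hx, hy]
      simp
    · have hx := len_scale (X S.D) (fun z => γ • z) (-1) c₀.re
        (fun z => by simp [X, hD z]) c p q
      have hy := len_scale (Y S.D) (fun z => γ • z) (-1) c₀.im
        (fun z => by simp [Y, hD z]) c p q
      simp only [lenD]
      rw [hx, hy]
      simp
  rwa [h2] at h1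

/-- Cutting the path: induction on `n`.  For `n + 1`: `r ≤ dist a b`, so by the intermediate
value theorem there is `τ ∈ [p, q]` with `dist a (c τ) = r`; then `n r ≤ dist (c τ) b`,
`lenD c p q = lenD c p τ + lenD c τ q ≥ ofReal m + ofReal (n m)`. -/
theorem exists_lower_mul (S : FlatSurface) (r : ℝ) (hr : 0 < r) :
    ∃ m > 0, ∀ (n : ℕ) (a b : ℍ), n * r ≤ dist a b → ENNReal.ofReal (n * m) ≤ d1 S.D a b := by
  obtain ⟨m, hm, h⟩ := exists_lower S r hr
  refine ⟨m, hm, fun n a b hab => le_d1 S.D _ ?_⟩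
  induction n generalizing a b with
  | zero =>
    intro c p q _
    simp
  | succ n ih =>
    intro c p q hc
    push_cast at hab
    have hcont : ContinuousOn (fun t => dist a (c t)) (Icc p q) :=
      (continuous_const.dist continuous_id).comp_continuousOn hc.cont
    have hn : (0 : ℝ) ≤ n * r := by positivity
    obtain ⟨τ, hτ, hτr⟩ : ∃ τ ∈ Icc p q, dist a (c τ) = r := by
      have h4 := intermediate_value_Icc hc.le hcont
      have h5 : r ∈ Icc (dist a (c p)) (dist a (c q)) := by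
        rw [hc.left, hc.right, dist_self]
        exact ⟨hr.le, by nlinarith⟩
      obtain ⟨τ, hτ, h6⟩ := h4 h5
      exact ⟨τ, hτ, h6⟩
    have h1 := hc.sub le_rfl hτ.1 hτ.2
    have h2 := hc.sub hτ.1 hτ.2 le_rfl
    rw [hc.left] at h1
    rw [hc.right] at h2
    have h3 := h a (c τ) hτr.ge c p τ h1
    have h4 : (n : ℝ) * r ≤ dist (c τ) b := by
      have := dist_triangle a (c τ) b
      linarith
    have h5 := ih (c τ) b h4 c τ q h2
    rw [← lenD_add S.D c hτ.1 hτ.2]
    push_cast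
    rw [add_mul, one_mul, ENNReal.ofReal_add (by positivity) hm.le, add_comm]
    exact add_le_add h3 h5

end Pool.Agent.ANO.Geo
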