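import Pool.Agent.ANO.Geo.Upper
import Pool.Agent.ANO.Geo.Lower

/-!
# ANO, module A1: `D` is tame for a flat surface (package TameA)
-/

set_option autoImplicit false

open Set Filter Topology
open scoped UpperHalfPlane MatrixGroups ENNReal

namespace Pool.Agent.ANO.Geo

private theorem d1_bound (S : FlatSurface) : ∃ K : ℝ, 0 < K ∧ ∀ a b : ℍ,
    d1 S.D a b ≤ ENNReal.ofReal (2 * K * (Real.exp (dist a b) * (Real.exp (dist a b) - 1))) := by
  obtain ⟨K, hK, h⟩ := exists_short_path S
  refine ⟨K, hK, fun a b => ?_⟩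
  obtain ⟨c, hc, hl⟩ := h a b
  exact (d1_le S.D hc).trans hl

/-- `exists_short_path` (for `dist a b ≤ R` the bound is `2 K exp R (exp R - 1)`, monotone in
`dist a b`) and `d1_le`. -/
theorem d1_upper (S : FlatSurface) (R : ℝ) :
    ∃ C : ℝ, ∀ a b : ℍ, dist a b ≤ R → d1 S.D a b ≤ ENNReal.ofReal C := by
  obtain ⟨K, hK, h⟩ := d1_bound S
  refine ⟨2 * K * (Real.exp R * (Real.exp R - 1)), fun a b hab => (h a b).trans ?_⟩
  refine ENNReal.ofReal_le_ofReal ?_
  have h1 : Real.exp (dist a b) ≤ Real.exp R := Real.exp_le_exp.2 hab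
  have h2 : 0 ≤ Real.exp (dist a b) - 1 := by
    have := Real.add_one_le_exp (dist a b)
    have h3 : 0 ≤ dist a b := dist_nonneg
    linarith
  have h3 : 0 < Real.exp (dist a b) := Real.exp_pos _
  have h4 : Real.exp (dist a b) * (Real.exp (dist a b) - 1) ≤
      Real.exp R * (Real.exp R - 1) := by
    refine mul_le_mul h1 (by linarith) h2 (Real.exp_pos _).le
  exact mul_le_mul_of_nonneg_left h4 (by positivity)

/-- `exists_short_path` and continuity of `2 K exp δ (exp δ - 1)` at `δ = 0`. -/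
theorem d1_small (S : FlatSurface) (ε : ℝ) (hε : 0 < ε) :
    ∃ δ > 0, ∀ a b : ℍ, dist a b < δ → d1 S.D a b < ENNReal.ofReal ε := by
  obtain ⟨K, hK, h⟩ := d1_bound S
  have hcont : Continuous fun s : ℝ => 2 * K * (Real.exp s * (Real.exp s - 1)) := by fun_prop
  have h0 : ∀ᶠ s in 𝓝 (0 : ℝ), 2 * K * (Real.exp s * (Real.exp s - 1)) < ε := by
    refine hcont.continuousAt.eventually_lt continuousAt_const ?_
    simpa using hε
  obtain ⟨δ, hδ, hball⟩ := Metric.eventually_nhds_iff.1 h0
  refine ⟨δ, hδ, fun a b hab => (h a b).trans_lt ?_⟩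
  rw [ENNReal.ofReal_lt_ofReal_iff hε]
  apply hball
  rw [Real.dist_eq, sub_zero, abs_of_nonneg dist_nonneg]
  exact hab

private theorem d1_ne_top (S : FlatSurface) (a b : ℍ) : d1 S.D a b ≠ ⊤ := by
  obtain ⟨C, hC⟩ := d1_upper S (dist a b)
  exact ne_top_of_le_ne_top ENNReal.ofReal_ne_top (hC a b le_rfl)

private theorem toReal_triangle (S : FlatSurface) (a b d : ℍ) :
    (d1 S.D a d).toReal ≤ (d1 S.D a b).toReal + (d1 S.D b d).toReal := by
  rw [← ENNReal.toReal_add (d1_ne_top S a b) (d1_ne_top S b d)]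
  exact ENNReal.toReal_mono (ENNReal.add_ne_top.2 ⟨d1_ne_top S a b, d1_ne_top S b d⟩)
    (d1_triangle S.D a b d)

private theorem d1_cont (S : FlatSurface) :
    Continuous fun p : ℍ × ℍ => (d1 S.D p.1 p.2).toReal := by
  rw [Metric.continuous_iff]
  rintro ⟨a, b⟩ ε hε
  obtain ⟨δ, hδ, h⟩ := d1_small S (ε / 2) (by positivity)
  refine ⟨δ, hδ, ?_⟩
  rintro ⟨a', b'⟩ hab
  rw [Prod.dist_eq, max_lt_iff] at hab
  obtain ⟨ha, hb⟩ := hab
  simp only at ha hb ⊢
  have h1 : (d1 S.D a' a).toReal < ε / 2 := by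
    have := (ENNReal.toReal_lt_toReal (d1_ne_top S _ _) ENNReal.ofReal_ne_top).2 (h a' a ha)
    rwa [ENNReal.toReal_ofReal (by positivity)] at this
  have h2 : (d1 S.D b' b).toReal < ε / 2 := by
    have := (ENNReal.toReal_lt_toReal (d1_ne_top S _ _) ENNReal.ofReal_ne_top).2 (h b' b hb)
    rwa [ENNReal.toReal_ofReal (by positivity)] at this
  have t1 := toReal_triangle S a' a b'
  have t2 := toReal_triangle S a b b'
  have t3 := toReal_triangle S a a' b
  have t4 := toReal_triangle S a' b' b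
  have s1 : (d1 S.D a a').toReal = (d1 S.D a' a).toReal := by rw [d1_comm]
  have s2 : (d1 S.D b b').toReal = (d1 S.D b' b).toReal := by rw [d1_comm]
  rw [Real.dist_eq, abs_lt]
  constructor <;> linarith

private theorem d1_cont_right (S : FlatSurface) (a : ℍ) :
    Continuous fun b : ℍ => (d1 S.D a b).toReal := by
  rw [Metric.continuous_iff]
  intro b ε hε
  obtain ⟨δ, hδ, h⟩ := d1_small S ε hε
  refine ⟨δ, hδ, fun b' hb => ?_⟩
  have h2 : (d1 S.D b' b).toReal < ε := by
    have := (ENNReal.toReal_lt_toReal (d1_ne_top S _ _) ENNReal.ofReal_ne_top).2 (h b' b hb)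
    rwa [ENNReal.toReal_ofReal hε.le] at this
  have t1 := toReal_triangle S a b' b
  have t2 := toReal_triangle S a b b'
  have s2 : (d1 S.D b b').toReal = (d1 S.D b' b).toReal := by rw [d1_comm]
  rw [Real.dist_eq, abs_lt]
  constructor <;> linarith

/-- `D` is tame.
`ne_top`: `d1_upper` with `R = dist a b`.
`eq_of_zero`: if `a ≠ b`, `exists_lower_mul` with `r = dist a b` and `n = 1` gives `d1 ≥ m > 0`.
`cont`: by the triangle inequality
`|d1 a b - d1 a' b'| ≤ d1 a a' + d1 b b'` (real values), and `d1_small`.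
`compact`: the set is closed (`cont`, `ne_top`, `ENNReal.le_ofReal_iff_toReal_le` or similar; for
`R < 0` it is the set `{b | d1 D a b ≤ 0}`) and bounded: by `exists_lower_mul` with `r = 1`, if
`d1 a b ≤ R` and `n m > max R 0` then `dist a b < n`; `ProperSpace ℍ`. -/
theorem tame (S : FlatSurface) : Tame S.D := by
  refine ⟨S.holo, S.nonconst, d1_ne_top S, ?_, d1_cont S, ?_⟩
  · intro a b hab
    by_contra hne
    have hd : 0 < dist a b := dist_pos.2 hne
    obtain ⟨m, hm, h⟩ := exists_lower_mul S (dist a b) hd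
    have h1 := h 1 a b (by simp)
    rw [hab] at h1
    have h2 : (0 : ℝ≥0∞) < ENNReal.ofReal ((1 : ℕ) * m) := by
      rw [ENNReal.ofReal_pos]
      simpa using hm
    exact absurd h1 (not_le.2 h2)
  · intro a R
    have heq : {b : ℍ | d1 S.D a b ≤ ENNReal.ofReal R} =
        {b : ℍ | (d1 S.D a b).toReal ≤ max R 0} := by
      ext b
      rw [mem_ofPred_eq, mem_ofPred_eq]
      constructor
      · intro hb
        have := ENNReal.toReal_mono ENNReal.ofReal_ne_top hb
        rwa [ENNReal.toReal_ofReal'] at this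
      · intro hb
        rw [← ENNReal.ofReal_toReal (d1_ne_top S a b)]
        refine (ENNReal.ofReal_le_ofReal hb).trans ?_
        rcases le_total R 0 with hR | hR
        · rw [max_eq_right hR, ENNReal.ofReal_zero]
          exact zero_le
        · rw [max_eq_left hR]
    have hclosed : IsClosed {b : ℍ | (d1 S.D a b).toReal ≤ max R 0} := by
      exact isClosed_le (d1_cont_right S a) continuous_const
    rw [heq]
    obtain ⟨m, hm, h⟩ := exists_lower_mul S 1 one_pos
    obtain ⟨n, hn⟩ := exists_nat_gt (max R 0 / m)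
    refine (isCompact_closedBall a (n : ℝ)).of_isClosed_subset hclosed ?_
    intro b hb
    rw [Metric.mem_closedBall, dist_comm]
    by_contra hcon
    push Not at hcon
    have h1 := h n a b (by simpa using hcon.le)
    have h2 := ENNReal.toReal_mono (d1_ne_top S a b) h1
    rw [ENNReal.toReal_ofReal (by positivity)] at h2
    rw [div_lt_iff₀ hm] at hn
    have h3 : (d1 S.D a b).toReal ≤ max R 0 := hb
    linarith

/-- `-i D` is tame: `d1_neg_I`. -/
theorem Tame.neg_I {D : ℂ → ℂ} (h : Tame D) : Tame (fun z => -Complex.I * D z) := by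
  refine ⟨h.holo.const_mul _, ?_, ?_, ?_, ?_, ?_⟩
  · obtain ⟨z, w, hzw⟩ := h.nonconst
    refine ⟨z, w, fun hcon => hzw ?_⟩
    exact mul_left_cancel₀ (neg_ne_zero.2 Complex.I_ne_zero) hcon
  · intro a b
    rw [d1_neg_I]
    exact h.ne_top a b
  · intro a b hab
    rw [d1_neg_I] at hab
    exact h.eq_of_zero a b hab
  · simp only [d1_neg_I]
    exact h.cont
  · intro a R
    simp only [d1_neg_I]
    exact h.compact a R

end Pool.Agent.ANO.Geo
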