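import Pool.Agent.ANO.Geo.Half
import Pool.Agent.ANO.Geo.GeodB
import Pool.Agent.ANO.Geo.GeodA
import Pool.Agent.ANO.Geo.TameA

/-!
# ANO, module A1: (A6), (A7) and the final statements (package Final)
-/

set_option autoImplicit false

open Set Filter Topology
open scoped UpperHalfPlane MatrixGroups ENNReal

namespace Pool.Agent.ANO.Geo

variable {D : ℂ → ℂ} {a b : ℍ} {l : ℝ} {c : ℝ → ℍ}

private theorem X_neg_I (D : ℂ → ℂ) : X (fun z => -Complex.I * D z) = Y D := by
  funext z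
  simp [X, Y]

private theorem IsGeo.neg_I (hc : IsGeo D a b l c) :
    IsGeo (fun z => -Complex.I * D z) a b l c :=
  ⟨hc.path, fun s t hs hst ht => by rw [d1_neg_I]; exact hc.dist s t hs hst ht⟩

private theorem IsGeo.len_eq_X (hD : Tame D) (hc : IsGeo D a b l c) :
    len (X D) c 0 l = dE (X D) a b :=
  le_antisymm (le_dE (X D) _ fun _ _ _ h' => hc.len_le hD h') (dE_le (X D) hc.path)

/-- (A6).  For `x`: `IsGeo.len_le` and `le_dE`; `≥` is `dE_le`.  For `y`: `c` is also a geodesic of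
`-i D` (`d1_neg_I`), `Tame.neg_I`, `X (-i D) = Y D`. -/
theorem IsGeo.len_eq (hD : Tame D) (hc : IsGeo D a b l c) :
    len (X D) c 0 l = dE (X D) a b ∧ len (Y D) c 0 l = dE (Y D) a b := by
  refine ⟨hc.len_eq_X hD, ?_⟩
  have h := IsGeo.len_eq_X hD.neg_I hc.neg_I
  rwa [X_neg_I] at h

/-- `d1 = dE x + dE y`: take a geodesic (`exists_geo`), `IsGeo.lenD_eq`, `IsGeo.len_eq`, and
`IsGeo.dist` with `s = 0`, `t = l`. -/
theorem d1_eq (hD : Tame D) (a b : ℍ) : d1 D a b = dE (X D) a b + dE (Y D) a b := by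
  obtain ⟨c, hc⟩ := exists_geo hD a b
  have hl : 0 ≤ (d1 D a b).toReal := ENNReal.toReal_nonneg
  have h1 := hc.lenD_eq le_rfl hl le_rfl
  have h2 := hc.dist 0 _ le_rfl hl le_rfl
  rw [hc.path.left, hc.path.right] at h2
  obtain ⟨hx, hy⟩ := hc.len_eq hD
  rw [h2, ← h1, lenD, hx, hy]

private theorem dE_X_le_d1 (D : ℂ → ℂ) (a b : ℍ) : dE (X D) a b ≤ d1 D a b :=
  le_self_add.trans (dE_add_dE_le_d1 D a b)

private theorem dE_Y_le_d1 (D : ℂ → ℂ) (a b : ℍ) : dE (Y D) a b ≤ d1 D a b :=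
  le_add_self.trans (dE_add_dE_le_d1 D a b)

private theorem dE_X_ne_top (hD : Tame D) (a b : ℍ) : dE (X D) a b ≠ ⊤ :=
  ne_top_of_le_ne_top (hD.ne_top a b) (dE_X_le_d1 D a b)

private theorem dE_Y_ne_top (hD : Tame D) (a b : ℍ) : dE (Y D) a b ≠ ⊤ :=
  ne_top_of_le_ne_top (hD.ne_top a b) (dE_Y_le_d1 D a b)

private theorem d1_toReal (hD : Tame D) (a b : ℍ) :
    (d1 D a b).toReal = (dE (X D) a b).toReal + (dE (Y D) a b).toReal := by
  rw [d1_eq hD a b, ENNReal.toReal_add (dE_X_ne_top hD a b) (dE_Y_ne_top hD a b)]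

private theorem toReal_triangle (φ : ℍ → ℝ) (h : ∀ a b : ℍ, dE φ a b ≠ ⊤) (a b d : ℍ) :
    (dE φ a d).toReal ≤ (dE φ a b).toReal + (dE φ b d).toReal := by
  rw [← ENNReal.toReal_add (h a b) (h b d)]
  exact ENNReal.toReal_mono (ENNReal.add_ne_top.mpr ⟨h a b, h b d⟩) (dE_triangle φ a b d)

private theorem abs_le_toReal (φ : ℍ → ℝ) (h : ∀ a b : ℍ, dE φ a b ≠ ⊤) (a b : ℍ) :
    |φ a - φ b| ≤ (dE φ a b).toReal :=
  (ENNReal.ofReal_le_iff_le_toReal (h a b)).mp (abs_le_dE φ a b)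

private theorem inv_aux (S : FlatSurface) (γ : SL(2, ℝ)) (hγ : γ ∈ S.Γ) (a b : ℍ) :
    dE (X S.D) (γ • a) (γ • b) = dE (X S.D) a b ∧
      dE (Y S.D) (γ • a) (γ • b) = dE (Y S.D) a b := by
  obtain ⟨ε, c₀, hε, hD⟩ := S.equivar γ hγ
  have he : ∀ z : ℍ, (IsometryEquiv.constSMul γ).toHomeomorph z = γ • z := fun z => rfl
  rcases hε with rfl | rfl
  · have hx := dE_scale (X S.D) (IsometryEquiv.constSMul γ).toHomeomorph 1 c₀.re one_ne_zero
      (fun z => by rw [he]; simp [X, hD z]) a b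
    have hy := dE_scale (Y S.D) (IsometryEquiv.constSMul γ).toHomeomorph 1 c₀.im one_ne_zero
      (fun z => by rw [he]; simp [Y, hD z]) a b
    rw [he, he] at hx hy
    rw [hx, hy]
    simp
  · have hx := dE_scale (X S.D) (IsometryEquiv.constSMul γ).toHomeomorph (-1) c₀.re
      (by norm_num) (fun z => by rw [he]; simp [X, hD z]) a b
    have hy := dE_scale (Y S.D) (IsometryEquiv.constSMul γ).toHomeomorph (-1) c₀.im
      (by norm_num) (fun z => by rw [he]; simp [Y, hD z]) a b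
    rw [he, he] at hx hy
    rw [hx, hy]
    simp

/-- All statements about a flat surface.  `hD = tame S`.  `dE ≠ ⊤` since `dE x + dE y = d1 ≠ ⊤`.
nonneg: `ENNReal.toReal_nonneg`; symm, triangle: `dE_comm`, `dE_triangle` (finite); inv: `dE_scale`
with the homeomorphism `γ • ·` and `k = ±1` (`S.equivar`); `re_le_du`: `abs_le_dE`; `du_le`:
`dE_le`; `attained`: `exists_geo`, `IsGeo.len_eq`, `IsPath.rescale`; `upper`, `small`, from
`d1_upper`, `d1_small` and `dE ≤ d1`; `lower`: `exists_lower_mul` with `n = 1` and `d1_eq`;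
`proper`: `exists_lower_mul` with `r = 1`: if `du, ds ≤ R` and `n m > 2 R` then `dist a b < n`;
`eq_of_zero`: `d1_eq` and `Tame.eq_of_zero`. -/
theorem props : PropsStatement := by
  intro S
  have hD : Tame S.D := tame S
  have hx : ∀ a b : ℍ, dE (X S.D) a b ≠ ⊤ := dE_X_ne_top hD
  have hy : ∀ a b : ℍ, dE (Y S.D) a b ≠ ⊤ := dE_Y_ne_top hD
  have hsum : ∀ a b : ℍ, (d1 S.D a b).toReal = du S a b + ds S a b := fun a b => by
    rw [d1_toReal hD a b]
    rfl
  refine
    { du_nonneg := fun a b => ENNReal.toReal_nonneg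
      ds_nonneg := fun a b => ENNReal.toReal_nonneg
      du_symm := fun a b => by rw [du, du, dE_comm]
      ds_symm := fun a b => by rw [ds, ds, dE_comm]
      du_triangle := fun a b c => toReal_triangle _ hx a b c
      ds_triangle := fun a b c => toReal_triangle _ hy a b c
      du_inv := fun γ hγ a b => by rw [du, du, (inv_aux S γ hγ a b).1]
      ds_inv := fun γ hγ a b => by rw [ds, ds, (inv_aux S γ hγ a b).2]
      re_le_du := fun a b => abs_le_toReal (X S.D) hx a b
      im_le_ds := fun a b => abs_le_toReal (Y S.D) hy a b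
      du_le := fun a b p q c hc => by
        rw [du, ENNReal.ofReal_toReal (hx a b)]
        exact dE_le (X S.D) hc
      ds_le := fun a b p q c hc => by
        rw [ds, ENNReal.ofReal_toReal (hy a b)]
        exact dE_le (Y S.D) hc
      attained := ?_
      upper := ?_
      small := ?_
      lower := ?_
      proper := ?_
      eq_of_zero := ?_ }
  · intro a b
    obtain ⟨c, hc⟩ := exists_geo hD a b
    obtain ⟨c', hc', hl⟩ := hc.path.rescale
    obtain ⟨h1, h2⟩ := hc.len_eq hD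
    refine ⟨c', hc', ?_, ?_⟩
    · rw [du, ENNReal.ofReal_toReal (hx a b), ← h1]
      exact hl (X S.D)
    · rw [ds, ENNReal.ofReal_toReal (hy a b), ← h2]
      exact hl (Y S.D)
  · intro R
    obtain ⟨C, hC⟩ := d1_upper S R
    refine ⟨max C 0, fun a b hab => ⟨?_, ?_⟩⟩
    · have := ENNReal.toReal_mono ENNReal.ofReal_ne_top ((dE_X_le_d1 S.D a b).trans (hC a b hab))
      rwa [ENNReal.toReal_ofReal'] at this
    · have := ENNReal.toReal_mono ENNReal.ofReal_ne_top ((dE_Y_le_d1 S.D a b).trans (hC a b hab))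
      rwa [ENNReal.toReal_ofReal'] at this
  · intro ε hε
    obtain ⟨δ, hδ, h⟩ := d1_small S ε hε
    exact ⟨δ, hδ, fun a b hab =>
      ⟨ENNReal.toReal_lt_of_lt_ofReal ((dE_X_le_d1 S.D a b).trans_lt (h a b hab)),
        ENNReal.toReal_lt_of_lt_ofReal ((dE_Y_le_d1 S.D a b).trans_lt (h a b hab))⟩⟩
  · intro r hr
    obtain ⟨m, hm, h⟩ := exists_lower_mul S r hr
    refine ⟨m, hm, fun a b hab => ?_⟩
    have h1 := h 1 a b (by simpa using hab)
    rw [ENNReal.ofReal_le_iff_le_toReal (hD.ne_top a b), hsum] at h1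
    simpa using h1
  · intro R
    obtain ⟨m, hm, h⟩ := exists_lower_mul S 1 one_pos
    obtain ⟨n, hn⟩ := exists_nat_gt (2 * R / m)
    refine ⟨n, fun a b h1 h2 => ?_⟩
    by_contra hcon
    push Not at hcon
    have h3 := h n a b (by rw [mul_one]; exact hcon.le)
    rw [ENNReal.ofReal_le_iff_le_toReal (hD.ne_top a b), hsum] at h3
    rw [div_lt_iff₀ hm] at hn
    linarith
  · intro a b h1 h2
    refine hD.eq_of_zero a b ?_
    have h3 : dE (X S.D) a b = 0 := by
      rcases (ENNReal.toReal_eq_zero_iff _).mp h1 with h | h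
      · exact h
      · exact absurd h (hx a b)
    have h4 : dE (Y S.D) a b = 0 := by
      rcases (ENNReal.toReal_eq_zero_iff _).mp h2 with h | h
      · exact h
      · exact absurd h (hy a b)
    rw [d1_eq hD, h3, h4, add_zero]

/-- `dE_scale` for the homeomorphism `S.f`: by `S.affine`,
`x (f z) = ± l x z + c₀`, `y (f z) = ± l⁻¹ y z + c₀'`. -/
theorem scale : ScaleStatement := by
  intro S a b
  obtain ⟨ε, c₀, hε, hD⟩ := S.affine
  have hl : 0 < S.l := zero_lt_one.trans S.one_lt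
  have hl' : 0 < S.l⁻¹ := inv_pos.mpr hl
  have key : ∀ k : ℝ, ε = (k : ℂ) → |k| = 1 →
      du S.toFlatSurface (S.f a) (S.f b) = S.l * du S.toFlatSurface a b ∧
      ds S.toFlatSurface (S.f a) (S.f b) = S.l⁻¹ * ds S.toFlatSurface a b := by
    intro k hk hk1
    have hk0 : k ≠ 0 := by
      intro h
      rw [h, abs_zero] at hk1
      exact zero_ne_one hk1
    have hx := dE_scale (X S.D) S.f (k * S.l) c₀.re (mul_ne_zero hk0 hl.ne')
      (fun z => by simp [X, hD z, hk, stretch, mul_assoc]) a b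
    have hy := dE_scale (Y S.D) S.f (k * S.l⁻¹) c₀.im (mul_ne_zero hk0 hl'.ne')
      (fun z => by simp [Y, hD z, hk, stretch, mul_assoc]) a b
    rw [abs_mul, hk1, one_mul, abs_of_pos hl] at hx
    rw [abs_mul, hk1, one_mul, abs_of_pos hl'] at hy
    rw [du, ds, hx, hy, ENNReal.toReal_mul, ENNReal.toReal_mul, ENNReal.toReal_ofReal hl.le,
      ENNReal.toReal_ofReal hl'.le]
    exact ⟨rfl, rfl⟩
  rcases hε with h | h
  · exact key 1 (by simpa using h) (by simp)
  · exact key (-1) (by simpa using h) (by simp)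

end Pool.Agent.ANO.Geo
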