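import Pool.Agent.ANO.Geo.Iface

/-!
# ANO, module A1: definitions used inside the module
-/

set_option autoImplicit false

open Set Filter Topology
open scoped UpperHalfPlane MatrixGroups ENNReal

namespace Pool.Agent.ANO.Geo

/-- The total variation of `Re D ∘ c` plus the total variation of `Im D ∘ c` on `[p, q]`. -/
noncomputable def lenD (D : ℂ → ℂ) (c : ℝ → ℍ) (p q : ℝ) : ℝ≥0∞ :=
  len (X D) c p q + len (Y D) c p q

/-- `d₁ a b`: the infimum of `lenD` over all paths from `a` to `b`. -/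
noncomputable def d1 (D : ℂ → ℂ) (a b : ℍ) : ℝ≥0∞ :=
  ⨅ (c : ℝ → ℍ) (p : ℝ) (q : ℝ) (_ : IsPath a b p q c), lenD D c p q

/-- The concatenation of `c` (on `[p, q]`) and `c'` (on `[p', q']`), with parameter interval
`[p, q + (q' - p')]`. -/
noncomputable def glue (c c' : ℝ → ℍ) (q p' : ℝ) : ℝ → ℍ :=
  fun t => if t ≤ q then c t else c' (t - q + p')

/-- The properties of `D` used in (A3)-(A6). -/
structure Tame (D : ℂ → ℂ) : Prop where
  holo : DifferentiableOn ℂ D {z : ℂ | 0 < z.im}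
  nonconst : ∃ z w : ℍ, D z ≠ D w
  ne_top : ∀ a b : ℍ, d1 D a b ≠ ⊤
  eq_of_zero : ∀ a b : ℍ, d1 D a b = 0 → a = b
  cont : Continuous fun p : ℍ × ℍ => (d1 D p.1 p.2).toReal
  compact : ∀ (a : ℍ) (R : ℝ), IsCompact {b : ℍ | d1 D a b ≤ ENNReal.ofReal R}

/-- `c` is a geodesic of `d₁` from `a` to `b`, of length `l`, parametrised by arc length. -/
structure IsGeo (D : ℂ → ℂ) (a b : ℍ) (l : ℝ) (c : ℝ → ℍ) : Prop where
  path : IsPath a b 0 l c
  dist : ∀ s t, 0 ≤ s → s ≤ t → t ≤ l → d1 D (c s) (c t) = ENNReal.ofReal (t - s)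

/-- `v` is a leaf `{x = t}`, parametrised by `y`. -/
structure IsLeaf (D : ℂ → ℂ) (t : ℝ) (v : ℝ → ℍ) : Prop where
  cont : Continuous v
  eq : ∀ s : ℝ, D (v s) = ⟨t, s⟩

/-- `t` is not the `x`-value of a critical point of `D`. -/
def Reg (D : ℂ → ℂ) (t : ℝ) : Prop := ∀ z : ℍ, X D z = t → deriv D (z : ℂ) ≠ 0

end Pool.Agent.ANO.Geo
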