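import Pool.Agent.ANO.Geo.LeafA

/-!
# ANO, module A1: (A4)(a), properties of leaves (package LeafB)
-/

set_option autoImplicit false

open Set Filter Topology Metric
open scoped UpperHalfPlane MatrixGroups ENNReal

namespace Pool.Agent.ANO.Geo

variable {D : ℂ → ℂ} {t : ℝ} {v v' : ℝ → ℍ}

private theorem cont_D_LeafB (hD : Tame D) : Continuous fun z : ℍ => D (z : ℂ) :=
  hD.holo.continuousOn.comp_continuous UpperHalfPlane.continuous_coe fun z => z.coe_im_pos

private theorem cont_X_LeafB (hD : Tame D) : Continuous (X D) :=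
  Complex.continuous_re.comp (cont_D_LeafB hD)

private theorem cont_Y_LeafB (hD : Tame D) : Continuous (Y D) :=
  Complex.continuous_im.comp (cont_D_LeafB hD)

private theorem X_LeafB (hv : IsLeaf D t v) (s : ℝ) : X D (v s) = t :=
  congrArg Complex.re (hv.eq s)

private theorem Y_LeafB (hv : IsLeaf D t v) (s : ℝ) : Y D (v s) = s :=
  congrArg Complex.im (hv.eq s)

/-- `lift_unique` on `univ`: if the ranges meet, `v s = v' s'`, then `s = Im D = s'`. -/
theorem IsLeaf.eq_or_disjoint (hD : Tame D) (ht : Reg D t) (hv : IsLeaf D t v)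
    (hv' : IsLeaf D t v') (z : ℍ) (hz : z ∈ range v) (hz' : z ∈ range v') : v = v' := by
  obtain ⟨s, hs⟩ := hz
  obtain ⟨s', hs'⟩ := hz'
  have h1 : s = s' := by
    rw [← Y_LeafB hv s, ← Y_LeafB hv' s', hs, hs']
  have h2 := lift_unique hD.holo isPreconnected_univ hv.cont.continuousOn hv'.cont.continuousOn
    (fun τ _ => by rw [hv.eq τ, hv'.eq τ]) (fun τ _ => ht (v τ) (X_LeafB hv τ)) (mem_univ s)
    (by rw [hs, h1, hs'])
  exact funext fun τ => h2 (mem_univ τ)

/-- Near a point `m` of the leaf every point `p` with `x = t` is on the leaf: take `U` from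
`exists_local_inverse` at `m`; for `p` near `m` with `X D p = t` both `p` and `v (Y D p)` are in
`U` (continuity of `v` and of `Y D`) and have the same image under `D`. -/
theorem IsLeaf.eventually_mem (hD : Tame D) (ht : Reg D t) (hv : IsLeaf D t v) (m : ℍ)
    (hm : m ∈ range v) : ∀ᶠ p in 𝓝 m, X D p = t → p ∈ range v := by
  obtain ⟨s, hs⟩ := hm
  have hXm : X D m = t := by rw [← hs]; exact X_LeafB hv s
  obtain ⟨ρ, χ, U, -, hU, hmU, -, -, hinj⟩ := exists_local_inverse hD.holo m (ht m hXm)
  have h1 : Continuous fun p : ℍ => v (Y D p) := hv.cont.comp (cont_Y_LeafB hD)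
  have h2 : v (Y D m) = m := by rw [← hs, Y_LeafB hv s]
  have h3 : ∀ᶠ p in 𝓝 m, v (Y D p) ∈ U :=
    h1.continuousAt.eventually_mem (by rw [h2]; exact hU.mem_nhds hmU)
  filter_upwards [h3, hU.mem_nhds hmU] with p hp1 hp2 hp
  refine ⟨Y D p, ?_⟩
  have h4 : D (v (Y D p)) = D p := by
    rw [hv.eq]
    exact Complex.ext hp.symm rfl
  rw [← (hinj _ hp1).2, h4, (hinj _ hp2).2]

/-- The leaf is closed: a point `p` of the closure has `X D p = t`; let `v'` be the leaf through
`p` (`exists_leaf`); near `p` all points with `x = t` are on `v'` (`eventually_mem`), in particular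
some point of `v`, so `v = v'`. -/
theorem IsLeaf.isClosed (hD : Tame D) (ht : Reg D t) (hv : IsLeaf D t v) :
    IsClosed (range v) := by
  refine isClosed_of_closure_subset fun p hp => ?_
  have h0 : range v ⊆ {z : ℍ | X D z = t} := by
    rintro _ ⟨s, rfl⟩
    exact X_LeafB hv s
  have h1 : X D p = t :=
    closure_minimal h0 (isClosed_eq (cont_X_LeafB hD) continuous_const) hp
  obtain ⟨v', hv', h2⟩ := exists_leaf hD ht p h1
  have h3 := hv'.eventually_mem hD ht p ⟨_, h2⟩
  obtain ⟨q, hq, hq'⟩ := ((mem_closure_iff_frequently.1 hp).and_eventually h3).exists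
  have h4 := hv.eq_or_disjoint hD ht hv' q hq (hq' (h0 hq))
  rw [h4]
  exact ⟨_, h2⟩

/-- The union of the other leaves is closed: `{x = t}` is closed and `range v` is relatively open
in it (`eventually_mem`). -/
theorem IsLeaf.isClosed_compl (hD : Tame D) (ht : Reg D t) (hv : IsLeaf D t v) :
    IsClosed ({z : ℍ | X D z = t} \ range v) := by
  refine isClosed_of_closure_subset fun p hp => ?_
  have h1 : X D p = t :=
    closure_minimal (fun z hz => hz.1) (isClosed_eq (cont_X_LeafB hD) continuous_const) hp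
  refine ⟨h1, fun h2 => ?_⟩
  have h3 := hv.eventually_mem hD ht p h2
  obtain ⟨q, hq, hq'⟩ := ((mem_closure_iff_frequently.1 hp).and_eventually h3).exists
  exact hq.2 (hq' hq.1)

/-- Distance of two points of a leaf: `d1 (v s) (v s') ≤ |s - s'|` (`lenD_lift`, `d1_le`,
`d1_comm`). -/
theorem IsLeaf.d1_le (hv : IsLeaf D t v) (s s' : ℝ) :
    d1 D (v s) (v s') ≤ ENNReal.ofReal |s - s'| := by
  have key : ∀ s s' : ℝ, s ≤ s' → d1 D (v s) (v s') ≤ ENNReal.ofReal |s - s'| := by
    intro s s' h
    have h1 : IsPath (v s) (v s') s s' v := ⟨h, hv.cont.continuousOn, rfl, rfl⟩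
    refine (Pool.Agent.ANO.Geo.d1_le D h1).trans ?_
    rw [lenD_lift h fun τ _ => hv.eq τ, abs_sub_comm, abs_of_nonneg (by linarith)]
  rcases le_total s s' with h | h
  · exact key s s' h
  · rw [d1_comm, abs_sub_comm]
    exact key s' s h

end Pool.Agent.ANO.Geo
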