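import Mathlib

/-!
# ANO, module A1: (A4)(b), separation by a closed piece of a level set (package Sep)
Self-contained topology of the upper half plane.
-/

set_option autoImplicit false

open Set Filter Topology
open scoped UpperHalfPlane

namespace Pool.Agent.ANO.Geo

/-- Two integers at real distance less than one are equal. -/
private lemma int_eq_of_abs_lt_sep (a b : ℤ) (h : |(a : ℝ) - b| < 1) : a = b := by
  have h1 : |((a - b : ℤ) : ℝ)| < 1 := by push_cast; exact h
  have h2 : |a - b| < 1 := by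
    rw [← Int.cast_abs] at h1
    exact_mod_cast h1
  have h3 := Int.abs_lt_one_iff.1 h2
  omega

/-- The function `θ` of the docstring of `exists_jump`, with the integer valued `k`. -/
private lemma exists_theta_sep (x : ℍ → ℝ) (hx : Continuous x) (t : ℝ) (u : ℍ → ℝ)
    (hu : Continuous u) (hut : ∀ z, x z = t → u z = 0 ∨ u z = 1) :
    ∃ (θ : ℍ → ℝ) (k : ℍ → ℤ), Continuous θ ∧ (∀ p, x p < t → (k p : ℝ) = θ p - u p) ∧
      ∀ p, t ≤ x p → (k p : ℝ) = θ p := by
  classical
  have hpi : (0 : ℝ) < 2 * Real.pi := by positivity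
  have h1 : ∀ z, x z = t → Circle.exp (2 * Real.pi * u z) = 1 := by
    intro z hz
    rcases hut z hz with h | h
    · rw [h, mul_zero, Circle.exp_zero]
    · rw [h, mul_one, Circle.exp_two_pi]
  have hcont : Continuous (fun p => if x p ≤ t then Circle.exp (2 * Real.pi * u p) else 1) := by
    refine Continuous.if_le ?_ continuous_const hx continuous_const (fun z hz => h1 z hz)
    exact Circle.exp.continuous.comp (continuous_const.mul hu)
  let f : C(ℍ, Circle) := ⟨_, hcont⟩
  have hfv : ∀ p, f p = if x p ≤ t then Circle.exp (2 * Real.pi * u p) else 1 := fun p => rfl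
  have he : Circle.exp (Complex.arg (f UpperHalfPlane.I)) = f UpperHalfPlane.I :=
    Circle.exp_arg _
  obtain ⟨F, ⟨-, hF⟩, -⟩ := Circle.isCoveringMap_exp.existsUnique_continuousMap_lifts f
    UpperHalfPlane.I (Complex.arg (f UpperHalfPlane.I)) he
  have hFp : ∀ p, Circle.exp (F p) = f p := fun p => congrFun hF p
  have key : ∀ p, ∃ k : ℤ, (x p < t → (k : ℝ) = F p / (2 * Real.pi) - u p) ∧
      (t ≤ x p → (k : ℝ) = F p / (2 * Real.pi)) := by
    intro p
    rcases lt_or_ge (x p) t with hlt | hge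
    · have h2 : Circle.exp (F p) = Circle.exp (2 * Real.pi * u p) := by
        rw [hFp, hfv, if_pos hlt.le]
      obtain ⟨m, hm⟩ := Circle.exp_eq_exp.1 h2
      refine ⟨m, fun _ => ?_, fun h => absurd hlt (not_lt.2 h)⟩
      rw [hm]
      field_simp
      ring
    · have h2 : Circle.exp (F p) = Circle.exp 0 := by
        rw [hFp, hfv, Circle.exp_zero]
        split_ifs with h
        · exact h1 p (le_antisymm h hge)
        · rfl
      obtain ⟨m, hm⟩ := Circle.exp_eq_exp.1 h2
      refine ⟨m, fun h => absurd hge (not_le.2 h), fun _ => ?_⟩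
      rw [hm, zero_add]
      field_simp
  choose k hk using key
  exact ⟨fun p => F p / (2 * Real.pi), k, F.continuous.div_const _, fun p h => (hk p).1 h,
    fun p h => (hk p).2 h⟩

/-- A closed and relatively open preconnected piece `L` of a level set `{x = t}` has a jump
function.

Proof.  `L` and `{x = t} \ L` are disjoint closed sets of the normal space `ℍ`; Urysohn
(`exists_continuous_zero_one_of_isClosed`) gives a continuous `u : ℍ → [0, 1]`, `u = 1` on `L`,
`u = 0` on `{x = t} \ L`.  Let `h : ℍ → Circle`, `h p = exp (2 π u(p))` if `x p ≤ t` and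
`h p = 1` if `t ≤ x p`; on `{x = t}` both are `1` since `u ∈ {0, 1}` there, so `h` is continuous
(`Continuous.if_le`).  `ℍ` is contractible and locally path connected, so `h = Circle.exp ∘ Θ`
with `Θ : ℍ → ℝ` continuous (`Circle.isCoveringMap_exp`,
`IsCoveringMap.existsUnique_continuousMap_lifts`).  Put `θ = Θ / (2 π)` and
`σ p = round (θ p - if x p < t then u p else 0)`: the real number inside is an integer
(`Circle.exp` of `2 π` times it is `1`; `Circle.exp_eq_one` or `Complex.exp_eq_one_iff`).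
At `p ∉ L` the function inside is continuous: if `x p ≠ t` clear, if `x p = t` then `u p = 0`.  An
integer valued continuous function is locally constant.
At `m ∈ L` : `θ m` is an integer `n m` (as `h m = 1`); for `p` near `m` with `t < x p` the value
is `θ p → θ m`, and for `x p < t` it is `θ p - u p → θ m - 1`; integers near `n m`, resp.
`n m - 1`, are equal to it.
The function `θ` is continuous and integer valued on the preconnected set `L`, so `n m = n` does
not depend on `m ∈ L` (if `L` is empty take `n = 0`). -/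
theorem exists_jump (x : ℍ → ℝ) (hx : Continuous x) (t : ℝ) (L : Set ℍ) (hL : IsClosed L)
    (hLx : ∀ z ∈ L, x z = t) (hL' : IsClosed ({z | x z = t} \ L)) (hc : IsPreconnected L) :
    ∃ (σ : ℍ → ℤ) (n : ℤ), (∀ p, p ∉ L → ∀ᶠ p' in 𝓝 p, σ p' = σ p) ∧
      ∀ m ∈ L, ∀ᶠ p in 𝓝 m, (t < x p → σ p = n) ∧ (x p < t → σ p = n - 1) := by
  classical
  have hd : Disjoint ({z | x z = t} \ L) L := disjoint_sdiff_left
  obtain ⟨u, hu0, hu1, -⟩ := exists_continuous_zero_one_of_isClosed hL' hL hd
  have hu0' : ∀ z, x z = t → z ∉ L → u z = 0 := fun z h1 h2 => hu0 ⟨h1, h2⟩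
  have hu1' : ∀ z, z ∈ L → u z = 1 := fun z h1 => hu1 h1
  obtain ⟨θ, k, hθ, hk1, hk2⟩ := exists_theta_sep x hx t u u.continuous (by
    intro z hz
    by_cases h : z ∈ L
    · exact Or.inr (hu1' z h)
    · exact Or.inl (hu0' z hz h))
  have hθn : ∀ p, ∀ᶠ p' in 𝓝 p, |θ p' - θ p| < 1 / 2 := by
    intro p
    have h := Metric.tendsto_nhds.1 (hθ.tendsto p) (1 / 2) (by norm_num)
    simpa only [Real.dist_eq] using h
  have hun : ∀ p, ∀ᶠ p' in 𝓝 p, |u p' - u p| < 1 / 2 := by
    intro p
    have h := Metric.tendsto_nhds.1 (u.continuous.tendsto p) (1 / 2) (by norm_num)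
    simpa only [Real.dist_eq] using h
  have hoff : ∀ p, p ∉ L → ∀ᶠ p' in 𝓝 p, k p' = k p := by
    intro p hp
    rcases lt_trichotomy (x p) t with h | h | h
    · filter_upwards [hθn p, hun p, hx.tendsto p |>.eventually (gt_mem_nhds h)] with q h1 h2 h3
      refine int_eq_of_abs_lt_sep _ _ ?_
      rw [hk1 q h3, hk1 p h]
      rw [abs_lt] at *
      constructor <;> linarith [h1.1, h1.2, h2.1, h2.2]
    · have hup : u p = 0 := hu0' p h hp
      filter_upwards [hθn p, hun p] with q h1 h2
      refine int_eq_of_abs_lt_sep _ _ ?_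
      rw [hk2 p h.ge]
      rw [hup] at h2
      rw [abs_lt] at *
      rcases lt_or_ge (x q) t with h3 | h3
      · rw [hk1 q h3]
        constructor <;> linarith [h1.1, h1.2, h2.1, h2.2]
      · rw [hk2 q h3]
        constructor <;> linarith [h1.1, h1.2]
    · filter_upwards [hθn p, hx.tendsto p |>.eventually (lt_mem_nhds h)] with q h1 h3
      refine int_eq_of_abs_lt_sep _ _ ?_
      rw [hk2 q h3.le, hk2 p h.le]
      exact lt_trans h1 (by norm_num)
  have hkc : ContinuousOn k L := by
    intro m hm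
    have h : ∀ᶠ q in 𝓝[L] m, k q = k m := by
      filter_upwards [nhdsWithin_le_nhds (hθn m), self_mem_nhdsWithin] with q h1 h2
      refine int_eq_of_abs_lt_sep _ _ ?_
      rw [hk2 q (hLx q h2).ge, hk2 m (hLx m hm).ge]
      exact lt_trans h1 (by norm_num)
    have h2 : ∀ᶠ q in 𝓝[L] m, k m = k q := h.mono fun _ hq => hq.symm
    exact (tendsto_const_nhds (x := k m) (f := 𝓝[L] m)).congr' h2
  have hon : ∀ m ∈ L, ∀ᶠ p in 𝓝 m, (t < x p → k p = k m) ∧ (x p < t → k p = k m - 1) := by
    intro m hm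
    filter_upwards [hθn m, hun m] with p h1 h2
    rw [hu1' m hm] at h2
    rw [abs_lt] at h1 h2
    constructor
    · intro h
      refine int_eq_of_abs_lt_sep _ _ ?_
      rw [hk2 p h.le, hk2 m (hLx m hm).ge, abs_lt]
      constructor <;> linarith [h1.1, h1.2]
    · intro h
      refine int_eq_of_abs_lt_sep _ _ ?_
      push_cast
      rw [hk1 p h, hk2 m (hLx m hm).ge, abs_lt]
      constructor <;> linarith [h1.1, h1.2, h2.1, h2.2]
  rcases L.eq_empty_or_nonempty with hLe | ⟨m₀, hm₀⟩
  · refine ⟨k, 0, hoff, ?_⟩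
    intro m hm
    rw [hLe] at hm
    exact absurd hm (Set.notMem_empty m)
  · refine ⟨k, k m₀, hoff, ?_⟩
    intro m hm
    have h := hon m hm
    rw [hc.constant hkc hm hm₀] at h
    exact h

/-- A continuous path avoiding `L` has constant `σ`: `σ ∘ c` is locally constant on the
preconnected set `[p, q]` (`IsPreconnected.constant_of_...`, or
`IsLocallyConstant` on the subtype, or continuity of `σ ∘ c` into the discrete space `ℤ` and
`IsPreconnected.image`, `IsPreconnected.subsingleton`). -/
theorem jump_const (L : Set ℍ) (σ : ℍ → ℤ) (h : ∀ p, p ∉ L → ∀ᶠ p' in 𝓝 p, σ p' = σ p)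
    (c : ℝ → ℍ) (I : Set ℝ) (hI : IsPreconnected I) (hc : ContinuousOn c I)
    (hcL : ∀ τ ∈ I, c τ ∉ L) (s s' : ℝ) (hs : s ∈ I) (hs' : s' ∈ I) : σ (c s) = σ (c s') := by
  refine hI.constant (f := fun τ => σ (c τ)) ?_ hs hs'
  intro τ hτ
  have h1 : ∀ᶠ τ' in 𝓝[I] τ, σ (c τ') = σ (c τ) :=
    (hc τ hτ).eventually (h (c τ) (hcL τ hτ))
  have h2 : ∀ᶠ τ' in 𝓝[I] τ, σ (c τ) = σ (c τ') := h1.mono fun _ hq => hq.symm
  exact (tendsto_const_nhds (x := σ (c τ)) (f := 𝓝[I] τ)).congr' h2

end Pool.Agent.ANO.Geo
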