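import Pool.Agent.ANO.Geo.GeodA
import Pool.Agent.ANO.Geo.LeafB
import Pool.Agent.ANO.Geo.Sep

/-!
# ANO, module A1: (A5) and the crossing of leaves (package Cross)
-/

set_option autoImplicit false

open Set Filter Topology
open scoped UpperHalfPlane MatrixGroups ENNReal

namespace Pool.Agent.ANO.Geo

variable {D : ℂ → ℂ} {a b : ℍ} {l t : ℝ} {c v : ℝ → ℍ}

/-- (A5) If a geodesic meets the leaf `v` at the times `s ≤ s'`, then `x = t` between them.
`ofReal (s' - s) = d1 (c s) (c s') ≤ ofReal |y (c s) - y (c s')|` (`IsLeaf.d1_le`; the parameter of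
a point of the leaf is its `y`-coordinate) `≤ len (Y D) c s s'` and
`len (X D) c s s' + len (Y D) c s s' = ofReal (s' - s)` (`IsGeo.lenD_eq`).  So
`len (X D) c s s' = 0` (finite numbers), `X D ∘ c` is constant on `[s, s']`
(`eVariationOn.eq_zero_iff` or `eVariationOn.edist_le`) and equals `t` at `s`. -/
theorem IsGeo.eq_of_mem_leaf (hc : IsGeo D a b l c) (hv : IsLeaf D t v) {s s' u : ℝ}
    (hs : 0 ≤ s) (hs' : s' ≤ l) (hu : u ∈ Icc s s') (h : c s ∈ range v) (h' : c s' ∈ range v) :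
    X D (c u) = t := by
  obtain ⟨σ, hσ⟩ := h
  obtain ⟨σ', hσ'⟩ := h'
  have hss : s ≤ s' := hu.1.trans hu.2
  have hy : Y D (c s) = σ := by
    rw [← hσ]
    show (D (v σ)).im = σ
    rw [hv.eq]
  have hy' : Y D (c s') = σ' := by
    rw [← hσ']
    show (D (v σ')).im = σ'
    rw [hv.eq]
  have hxs : X D (c s) = t := by
    rw [← hσ]
    show (D (v σ)).re = t
    rw [hv.eq]
  have h1 := hc.dist s s' hs hss hs'
  have h2 := hv.d1_le σ σ'
  rw [hσ, hσ', h1, ← hy, ← hy'] at h2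
  have hp : IsPath (c s) (c s') s s' c := hc.path.sub hs hss hs'
  have h3 := abs_le_len (Y D) hp
  have h4 := hc.lenD_eq hs hss hs'
  unfold lenD at h4
  have h5 : len (X D) c s s' + len (Y D) c s s' ≤ 0 + len (Y D) c s s' := by
    rw [h4, zero_add]
    exact h2.trans h3
  have h6 : len (Y D) c s s' ≠ ⊤ := by
    intro h
    rw [h, add_top] at h4
    exact ENNReal.ofReal_ne_top h4.symm
  have h7 : len (X D) c s s' ≤ 0 := (ENNReal.add_le_add_iff_right h6).1 h5
  have h8 : edist (X D (c u)) (X D (c s)) ≤ len (X D) c s s' :=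
    eVariationOn.edist_le (fun t => X D (c t)) hu (left_mem_Icc.2 hss)
  have h9 : edist (X D (c u)) (X D (c s)) = 0 := le_antisymm (h8.trans h7) zero_le
  rw [edist_eq_zero] at h9
  rw [h9, hxs]

private theorem continuous_X (hD : Tame D) : Continuous (X D) := by
  have h1 : Continuous (fun z : ℍ => D (z : ℂ)) :=
    hD.holo.continuousOn.comp_continuous UpperHalfPlane.continuous_coe
      (fun z => by simpa using z.im_pos)
  exact Complex.continuous_re.comp h1

private theorem crossing_aux (hD : Tame D) (ht : Reg D t) (hc : IsGeo D a b l c) {s₁ s₂ : ℝ}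
    (h1 : 0 ≤ s₁) (h12 : s₁ < s₂) (h2 : s₂ ≤ l) (hx1 : X D (c s₁) < t) (hx2 : t < X D (c s₂)) :
    ∃ θ ∈ Ioo s₁ s₂, X D (c θ) = t ∧ ∀ v, IsLeaf D t v → c θ ∈ range v →
      ∀ (c' : ℝ → ℍ) (p q : ℝ), IsPath a b p q c' → ∃ τ ∈ Icc p q, c' τ ∈ range v := by
  have hX := continuous_X hD
  have hcc : ContinuousOn (fun s => X D (c s)) (Icc 0 l) := hX.comp_continuousOn hc.path.cont
  set S : Set ℝ := {s | s ∈ Icc s₁ s₂ ∧ X D (c s) < t} with hS
  have hS1 : s₁ ∈ S := ⟨left_mem_Icc.2 h12.le, hx1⟩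
  have hSne : S.Nonempty := ⟨s₁, hS1⟩
  have hSb : BddAbove S := ⟨s₂, fun s hs => hs.1.2⟩
  set θ := sSup S with hθ
  have hlub : IsLUB S θ := isLUB_csSup hSne hSb
  have hθ1 : s₁ ≤ θ := hlub.1 hS1
  have hθ2 : θ ≤ s₂ := hlub.2 (fun s hs => hs.1.2)
  have hθI : θ ∈ Icc 0 l := ⟨h1.trans hθ1, hθ2.trans h2⟩
  have hge : ∀ s, θ < s → s ≤ s₂ → t ≤ X D (c s) := by
    intro s hs hs'
    by_contra h
    exact absurd (hlub.1 (show s ∈ S from ⟨⟨hθ1.trans hs.le, hs'⟩, not_le.1 h⟩)) (not_le.2 hs)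
  have hle : X D (c θ) ≤ t := by
    by_contra h
    have h3 : ∀ᶠ s in 𝓝[Icc 0 l] θ, t < X D (c s) := (hcc θ hθI) (Ioi_mem_nhds (not_le.1 h))
    rw [eventually_nhdsWithin_iff, Metric.eventually_nhds_iff] at h3
    obtain ⟨ε, hε, h4⟩ := h3
    obtain ⟨s, hs, hs'⟩ := hlub.exists_between (sub_lt_self θ hε)
    have hsθ : s ≤ θ := hlub.1 hs
    have h5 := h4 (y := s) (by
      rw [Real.dist_eq, abs_lt]
      constructor <;> linarith [hs'.1]) ⟨h1.trans hs.1.1, hs.1.2.trans h2⟩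
    exact absurd hs.2 (not_lt.2 h5.le)
  have hθ2' : θ < s₂ := by
    rcases hθ2.lt_or_eq with h | h
    · exact h
    · rw [h] at hle
      exact absurd hle (not_le.2 hx2)
  have heq : X D (c θ) = t := by
    refine le_antisymm hle ?_
    by_contra h
    have h3 : ∀ᶠ s in 𝓝[Icc 0 l] θ, X D (c s) < t := (hcc θ hθI) (Iio_mem_nhds (not_le.1 h))
    rw [eventually_nhdsWithin_iff, Metric.eventually_nhds_iff] at h3
    obtain ⟨ε, hε, h4⟩ := h3
    have h5 : θ < min (θ + ε / 2) s₂ := lt_min (by linarith) hθ2'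
    have h6 : min (θ + ε / 2) s₂ ≤ s₂ := min_le_right _ _
    have h7 : min (θ + ε / 2) s₂ ≤ θ + ε / 2 := min_le_left _ _
    have h8 := h4 (y := min (θ + ε / 2) s₂) (by
      rw [Real.dist_eq, abs_lt]
      constructor <;> linarith) ⟨by linarith [hθI.1], h6.trans h2⟩
    exact absurd h8 (not_lt.2 (hge _ h5 h6))
  have hθ1' : s₁ < θ := by
    rcases hθ1.lt_or_eq with h | h
    · exact h
    · rw [← h] at heq
      exact absurd heq hx1.ne
  refine ⟨θ, ⟨hθ1', hθ2'⟩, heq, ?_⟩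
  intro v hv hm c' p q hp
  by_contra hno
  push Not at hno
  have hLx : ∀ z ∈ range v, X D z = t := by
    rintro z ⟨τ, rfl⟩
    show (D (v τ)).re = t
    rw [hv.eq]
  obtain ⟨σ, n, hσ1, hσ2⟩ := exists_jump (X D) hX t (range v) (hv.isClosed hD ht) hLx
    (hv.isClosed_compl hD ht) (isPreconnected_range hv.cont)
  -- no point of the leaf before `θ`
  have hbefore : ∀ s, 0 ≤ s → s < θ → c s ∉ range v := by
    intro s hs hsθ hmem
    obtain ⟨s', hs', hs''⟩ := hlub.exists_between hsθ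
    have h3 := hc.eq_of_mem_leaf hv (u := s') hs hθI.2 ⟨hs''.1.le, hs''.2⟩ hmem hm
    exact absurd h3 hs'.2.ne
  -- the last point on the leaf
  set A : Set ℝ := Icc 0 l ∩ c ⁻¹' range v with hA
  have hAc : IsCompact A := isCompact_Icc.of_isClosed_subset
    (hc.path.cont.preimage_isClosed_of_isClosed isClosed_Icc (hv.isClosed hD ht)) inter_subset_left
  have hθA : θ ∈ A := ⟨hθI, hm⟩
  obtain ⟨r, hrA, hrmax⟩ := hAc.exists_isGreatest ⟨θ, hθA⟩
  have hθr : θ ≤ r := hrmax hθA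
  have hr2 : r < s₂ := by
    by_contra h
    have h3 := hc.eq_of_mem_leaf hv (u := s₂) hθI.1 hrA.1.2 ⟨hθ2, not_lt.1 h⟩ hm hrA.2
    exact absurd h3 hx2.ne'
  -- a point before `θ`
  have e1 : ∀ᶠ s in 𝓝[Icc 0 l] θ, (t < X D (c s) → σ (c s) = n) ∧
      (X D (c s) < t → σ (c s) = n - 1) := (hc.path.cont θ hθI).eventually (hσ2 _ hm)
  rw [eventually_nhdsWithin_iff, Metric.eventually_nhds_iff] at e1
  obtain ⟨ε, hε, h4⟩ := e1
  obtain ⟨s, hs, hs'⟩ := hlub.exists_between (sub_lt_self θ hε)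
  have hsθ : s < θ := by
    rcases hs'.2.lt_or_eq with h | h
    · exact h
    · rw [h] at hs
      exact absurd heq hs.2.ne
  have h5 := (h4 (y := s) (by
    rw [Real.dist_eq, abs_lt]
    constructor <;> linarith [hs'.1]) ⟨h1.trans hs.1.1, hs.1.2.trans h2⟩).2 hs.2
  have h6 : σ (c 0) = σ (c s) := by
    refine jump_const (range v) σ hσ1 c (Ico 0 θ) isPreconnected_Ico ?_ ?_ 0 s ?_ ?_
    · exact hc.path.cont.mono (fun x hx => ⟨hx.1, hx.2.le.trans hθI.2⟩)
    · intro τ hτ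
      exact hbefore τ hτ.1 hτ.2
    · exact ⟨le_refl _, h1.trans_lt hθ1'⟩
    · exact ⟨h1.trans hs.1.1, hsθ⟩
  -- a point after `r`
  have hrI : r ∈ Icc 0 l := hrA.1
  have e2 : ∀ᶠ s in 𝓝[Icc 0 l] r, (t < X D (c s) → σ (c s) = n) ∧
      (X D (c s) < t → σ (c s) = n - 1) := (hc.path.cont r hrI).eventually (hσ2 _ hrA.2)
  have e3 : ∀ᶠ s in 𝓝[Icc 0 l] r, X D (c s) = t → c s ∈ range v :=
    (hc.path.cont r hrI).eventually (hv.eventually_mem hD ht _ hrA.2)
  have e4 := e2.and e3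
  rw [eventually_nhdsWithin_iff, Metric.eventually_nhds_iff] at e4
  obtain ⟨δ, hδ, h7⟩ := e4
  obtain ⟨w, hw⟩ : ∃ w, w = min (r + δ / 2) s₂ := ⟨_, rfl⟩
  have hw1 : r < w := by
    rw [hw]
    exact lt_min (by linarith) hr2
  have hw2 : w ≤ s₂ := by
    rw [hw]
    exact min_le_right _ _
  have hw3 : w ≤ r + δ / 2 := by
    rw [hw]
    exact min_le_left _ _
  have hwI : w ∈ Icc 0 l := ⟨hrI.1.trans hw1.le, hw2.trans h2⟩
  have h8 := h7 (y := w) (by
    rw [Real.dist_eq, abs_lt]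
    constructor <;> linarith) hwI
  have h9 : X D (c w) ≠ t := by
    intro h
    exact absurd (hrmax (show w ∈ A from ⟨hwI, h8.2 h⟩)) (not_le.2 hw1)
  have h10 : t < X D (c w) := lt_of_le_of_ne (hge w (hθr.trans_lt hw1) hw2) (Ne.symm h9)
  have h11 := h8.1.1 h10
  have h12' : σ (c w) = σ (c l) := by
    refine jump_const (range v) σ hσ1 c (Ioc r l) isPreconnected_Ioc ?_ ?_ w l ?_ ?_
    · exact hc.path.cont.mono (fun x hx => ⟨hrI.1.trans hx.1.le, hx.2⟩)
    · intro τ hτ hmem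
      exact absurd (hrmax (show τ ∈ A from ⟨⟨hrI.1.trans hτ.1.le, hτ.2⟩, hmem⟩)) (not_le.2 hτ.1)
    · exact ⟨hw1, hwI.2⟩
    · exact ⟨hw1.trans_le hwI.2, le_refl _⟩
  have h13 : σ (c' p) = σ (c' q) := by
    refine jump_const (range v) σ hσ1 c' (Icc p q) isPreconnected_Icc hp.cont ?_ p q ?_ ?_
    · intro τ hτ
      exact hno τ hτ
    · exact left_mem_Icc.2 hp.le
    · exact right_mem_Icc.2 hp.le
  rw [hp.left, hp.right] at h13
  rw [hc.path.left] at h6
  rw [hc.path.right] at h12'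
  omega

/-- The crossing.  Let `0 ≤ s₁ < s₂ ≤ l` and let `t` be strictly between `x (c s₁)` and
`x (c s₂)`.  There is a time `θ ∈ (s₁, s₂)` with `x (c θ) = t` such that the leaf `v` through
`c θ` meets every path `c'` from `a` to `b`.

Proof for `x (c s₁) < t < x (c s₂)`; the other case is symmetric.
Let `θ = sup {s ∈ [s₁, s₂] | x (c s) < t}`.  Then `x (c θ) = t`, `s₁ < θ < s₂`, `x (c s) ≥ t` for
`s ∈ (θ, s₂]`.  Let `v` be a leaf through `c θ`, `L = range v`, and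
`A = {s ∈ [0, l] | c s ∈ L}`: a closed set (`IsLeaf.isClosed`), and by (A5) `x (c s) = t` for `s`
between two elements of `A`.  Let `s₋ = inf A`, `s₊ = sup A` (both in `A`), so
`s₋ ≤ θ ≤ s₊` and `x ∘ c = t` on `[s₋, s₊]`.  Since `x (c s₁) ≠ t`, `x (c s₂) ≠ t`:
`s₁ < s₋`, `s₊ < s₂`; and since there are points `s < θ` arbitrarily close to `θ` with
`x (c s) < t`: `s₋ = θ`.  By `IsLeaf.eventually_mem` at `c s₋` and `c s₊` there is `ε > 0` such
that `x (c s) ≠ t` for `s ∈ (s₋ - ε, s₋)` and `s ∈ (s₊, s₊ + ε)` (points near with `x = t` are in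
`L`, but `s ∉ A`).  By connectedness the sign of `x ∘ c - t` is constant on both intervals: it is
`-` on the first one (points `s < θ` close to `θ` with `x < t`) and `+` on the second one
(`x ≥ t` on `(θ, s₂]`).
Take `σ, n` from `exists_jump` (`X D` is continuous, `IsLeaf.isClosed`, `IsLeaf.isClosed_compl`,
`isPreconnected_range`).  `σ (c s) = n - 1` for `s < s₋` close to `s₋` and `σ (c s) = n` for
`s > s₊` close to `s₊`.  By `jump_const` on `[0, s₋)` and `(s₊, l]`, where `c ∉ L`: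
`σ a = n - 1`, `σ b = n`.  If a path `c'` from `a` to `b` avoids `L` then `σ a = σ b` by
`jump_const`, a contradiction. -/
theorem IsGeo.crossing (hD : Tame D) (ht : Reg D t) (hc : IsGeo D a b l c) {s₁ s₂ : ℝ}
    (h1 : 0 ≤ s₁) (h12 : s₁ < s₂) (h2 : s₂ ≤ l)
    (hx : (X D (c s₁) < t ∧ t < X D (c s₂)) ∨ (X D (c s₂) < t ∧ t < X D (c s₁))) :
    ∃ θ ∈ Ioo s₁ s₂, X D (c θ) = t ∧ ∀ v, IsLeaf D t v → c θ ∈ range v →
      ∀ (c' : ℝ → ℍ) (p q : ℝ), IsPath a b p q c' → ∃ τ ∈ Icc p q, c' τ ∈ range v := by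
  rcases hx with hx | hx
  · exact crossing_aux hD ht hc h1 h12 h2 hx.1 hx.2
  · have hc' : IsGeo D b a l (fun s => c (0 + l - s)) := by
      refine ⟨hc.path.reverse, ?_⟩
      intro s s' hs hss hs'
      show d1 D (c (0 + l - s)) (c (0 + l - s')) = ENNReal.ofReal (s' - s)
      rw [d1_comm, hc.dist (0 + l - s') (0 + l - s) (by linarith) (by linarith) (by linarith)]
      congr 1
      ring
    obtain ⟨θ, hθ, h3, h4⟩ := crossing_aux (s₁ := l - s₂) (s₂ := l - s₁) hD ht hc'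
      (by linarith) (by linarith) (by linarith)
      (by
        show X D (c (0 + l - (l - s₂))) < t
        have e : 0 + l - (l - s₂) = s₂ := by ring
        rw [e]
        exact hx.1)
      (by
        show t < X D (c (0 + l - (l - s₁)))
        have e : 0 + l - (l - s₁) = s₁ := by ring
        rw [e]
        exact hx.2)
    refine ⟨0 + l - θ, ⟨by linarith [hθ.2], by linarith [hθ.1]⟩, h3, ?_⟩
    intro v hv hm c' p q hp
    obtain ⟨τ, hτ, hm'⟩ := h4 v hv hm (fun s => c' (p + q - s)) p q hp.reverse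
    exact ⟨p + q - τ, ⟨by linarith [hτ.2], by linarith [hτ.1]⟩, hm'⟩

end Pool.Agent.ANO.Geo
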