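import Pool.Agent.ANO.Geo.PathA

/-!
# ANO, module A1: the pseudo-metrics `dE φ` and `d1 D` (package DistA)
All proofs: infima over paths and the path calculus of `PathA`.
-/

set_option autoImplicit false

open Set Filter Topology
open scoped UpperHalfPlane MatrixGroups ENNReal

namespace Pool.Agent.ANO.Geo

variable {a b d : ℍ} {p q : ℝ} {c : ℝ → ℍ}

/-- the infimum of a functional over all paths -/
private noncomputable def infP (L : (ℝ → ℍ) → ℝ → ℝ → ℝ≥0∞) (a b : ℍ) : ℝ≥0∞ :=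
  ⨅ (c : ℝ → ℍ) (p : ℝ) (q : ℝ) (_ : IsPath a b p q c), L c p q

private theorem infP_le (L : (ℝ → ℍ) → ℝ → ℝ → ℝ≥0∞) (h : IsPath a b p q c) :
    infP L a b ≤ L c p q :=
  iInf_le_of_le c (iInf_le_of_le p (iInf_le_of_le q (iInf_le_of_le h le_rfl)))

private theorem le_infP (L : (ℝ → ℍ) → ℝ → ℝ → ℝ≥0∞) (m : ℝ≥0∞)
    (h : ∀ (c : ℝ → ℍ) (p q : ℝ), IsPath a b p q c → m ≤ L c p q) : m ≤ infP L a b :=
  le_iInf fun c => le_iInf fun p => le_iInf fun q => le_iInf fun hc => h c p q hc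

private theorem infP_lt (L : (ℝ → ℍ) → ℝ → ℝ → ℝ≥0∞) {m : ℝ≥0∞} (h : infP L a b < m) :
    ∃ (c : ℝ → ℍ) (p q : ℝ), IsPath a b p q c ∧ L c p q < m := by
  unfold infP at h
  obtain ⟨c, h⟩ := iInf_lt_iff.1 h
  obtain ⟨p, h⟩ := iInf_lt_iff.1 h
  obtain ⟨q, h⟩ := iInf_lt_iff.1 h
  obtain ⟨hc, h⟩ := iInf_lt_iff.1 h
  exact ⟨c, p, q, hc, h⟩

private theorem infP_triangle (L : (ℝ → ℍ) → ℝ → ℝ → ℝ≥0∞)
    (hL : ∀ {a b d : ℍ} {p q p' q' : ℝ} {c c' : ℝ → ℍ}, IsPath a b p q c →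
      IsPath b d p' q' c' → L (glue c c' q p') p (q + (q' - p')) = L c p q + L c' p' q')
    (a b d : ℍ) : infP L a d ≤ infP L a b + infP L b d := by
  by_cases h1 : infP L a b = ⊤
  · simp [h1]
  by_cases h2 : infP L b d = ⊤
  · simp [h2]
  refine ENNReal.le_of_forall_pos_le_add fun ε hε _ => ?_
  have hε' : ((ε : ℝ≥0∞) / 2) ≠ 0 := by
    simp [hε.ne']
  obtain ⟨c, p, q, hc, hc'⟩ := infP_lt L (m := infP L a b + ε / 2) (ENNReal.lt_add_right h1 hε')
  obtain ⟨e, r, s, he, he'⟩ := infP_lt L (m := infP L b d + ε / 2) (ENNReal.lt_add_right h2 hε')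
  have := infP_le L (hc.glue he)
  rw [hL hc he] at this
  refine this.trans ((add_le_add hc'.le he'.le).trans_eq ?_)
  rw [add_add_add_comm, ENNReal.add_halves]

private theorem infP_comm (L : (ℝ → ℍ) → ℝ → ℝ → ℝ≥0∞)
    (hL : ∀ (c : ℝ → ℍ) (p q : ℝ), L (fun t => c (p + q - t)) p q = L c p q) (a b : ℍ) :
    infP L a b = infP L b a := by
  have key : ∀ a b : ℍ, infP L a b ≤ infP L b a := fun a b => by
    refine le_infP L _ fun c p q h => ?_
    have := infP_le L h.reverse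
    rwa [hL] at this
  exact le_antisymm (key a b) (key b a)

/-- `iInf_le`. -/
theorem dE_le (φ : ℍ → ℝ) (h : IsPath a b p q c) : dE φ a b ≤ len φ c p q :=
  infP_le (len φ) h

/-- `le_iInf`. -/
theorem le_dE (φ : ℍ → ℝ) (m : ℝ≥0∞)
    (h : ∀ (c : ℝ → ℍ) (p q : ℝ), IsPath a b p q c → m ≤ len φ c p q) : m ≤ dE φ a b :=
  le_infP (len φ) m h

/-- `dE_le` for the constant path (`eVariationOn.subsingleton`). -/
theorem dE_self (φ : ℍ → ℝ) (a : ℍ) : dE φ a a = 0 := by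
  have h := dE_le φ (IsPath.const a)
  have h0 : len φ (fun _ => a) 0 0 = 0 := by
    unfold len
    exact eVariationOn.subsingleton _ (by simp)
  rw [h0] at h
  exact le_antisymm h zero_le

/-- `IsPath.reverse`, `len_reverse`. -/
theorem dE_comm (φ : ℍ → ℝ) (a b : ℍ) : dE φ a b = dE φ b a :=
  infP_comm (len φ) (len_reverse φ) a b

/-- For paths `c, c'` from `a` to `b` and from `b` to `d`: `dE a d ≤ len (glue c c') = len c +
len c'`.  Take the infimum over `c` and `c'` (`ENNReal.iInf_add_iInf`-type arguments, or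
`ENNReal.le_of_forall_pos_le_add` after excluding `⊤`). -/
theorem dE_triangle (φ : ℍ → ℝ) (a b d : ℍ) : dE φ a d ≤ dE φ a b + dE φ b d :=
  infP_triangle (len φ) (fun h h' => len_glue φ h h') a b d

/-- `abs_le_len`, `le_dE`. -/
theorem abs_le_dE (φ : ℍ → ℝ) (a b : ℍ) : ENNReal.ofReal |φ a - φ b| ≤ dE φ a b :=
  le_dE φ _ fun _ _ _ h => abs_le_len φ h

private theorem dE_scale_le (φ : ℍ → ℝ) (e : ℍ ≃ₜ ℍ) (k c₀ : ℝ) (hk : k ≠ 0)
    (he : ∀ z, φ (e z) = k * φ z + c₀) (a b : ℍ) :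
    dE φ (e a) (e b) ≤ ENNReal.ofReal |k| * dE φ a b := by
  have hk0 : ENNReal.ofReal |k| ≠ 0 := by
    simpa using hk
  have hkt : ENNReal.ofReal |k| ≠ ⊤ := ENNReal.ofReal_ne_top
  rw [mul_comm, ← ENNReal.div_le_iff hk0 hkt]
  refine le_dE φ _ fun c p q h => ?_
  rw [ENNReal.div_le_iff hk0 hkt, mul_comm, ← len_scale φ e k c₀ he c p q]
  exact dE_le φ (h.comp e e.continuous)

/-- Paths from `a` to `b` correspond to paths from `e a` to `e b` under the homeomorphism `e`;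
`len_scale` for `e`, and for `e.symm` with `φ (e.symm z) = k⁻¹ φ z - k⁻¹ c₀`. -/
theorem dE_scale (φ : ℍ → ℝ) (e : ℍ ≃ₜ ℍ) (k c₀ : ℝ) (hk : k ≠ 0)
    (he : ∀ z, φ (e z) = k * φ z + c₀) (a b : ℍ) :
    dE φ (e a) (e b) = ENNReal.ofReal |k| * dE φ a b := by
  refine le_antisymm (dE_scale_le φ e k c₀ hk he a b) ?_
  have hs : ∀ z, φ (e.symm z) = k⁻¹ * φ z + (-(k⁻¹ * c₀)) := fun z => by
    have := he (e.symm z)
    rw [e.apply_symm_apply] at this
    rw [this]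
    field_simp
    ring
  have h := dE_scale_le φ e.symm k⁻¹ _ (inv_ne_zero hk) hs (e a) (e b)
  rw [e.symm_apply_apply, e.symm_apply_apply] at h
  calc ENNReal.ofReal |k| * dE φ a b
      ≤ ENNReal.ofReal |k| * (ENNReal.ofReal |k⁻¹| * dE φ (e a) (e b)) := by gcongr
    _ = dE φ (e a) (e b) := by
        rw [← mul_assoc, ← ENNReal.ofReal_mul (abs_nonneg _), ← abs_mul, mul_inv_cancel₀ hk]
        simp

/-! ### The same for `d1` -/

theorem d1_le (D : ℂ → ℂ) (h : IsPath a b p q c) : d1 D a b ≤ lenD D c p q :=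
  infP_le (lenD D) h

theorem le_d1 (D : ℂ → ℂ) (m : ℝ≥0∞)
    (h : ∀ (c : ℝ → ℍ) (p q : ℝ), IsPath a b p q c → m ≤ lenD D c p q) : m ≤ d1 D a b :=
  le_infP (lenD D) m h

theorem d1_self (D : ℂ → ℂ) (a : ℍ) : d1 D a a = 0 := by
  have h := d1_le D (IsPath.const a)
  have h0 : lenD D (fun _ => a) 0 0 = 0 := by
    unfold lenD len
    rw [eVariationOn.subsingleton _ (by simp), eVariationOn.subsingleton _ (by simp), add_zero]
  rw [h0] at h
  exact le_antisymm h zero_le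

theorem d1_comm (D : ℂ → ℂ) (a b : ℍ) : d1 D a b = d1 D b a := by
  refine infP_comm (lenD D) (fun c p q => ?_) a b
  unfold lenD
  rw [len_reverse, len_reverse]

theorem d1_triangle (D : ℂ → ℂ) (a b d : ℍ) : d1 D a d ≤ d1 D a b + d1 D b d := by
  refine infP_triangle (lenD D) (fun {a b d p q p' q' c c'} h h' => ?_) a b d
  unfold lenD
  rw [len_glue _ h h', len_glue _ h h', add_add_add_comm]

/-- `len_add` twice. -/
theorem lenD_add (D : ℂ → ℂ) (c : ℝ → ℍ) {r : ℝ} (hpr : p ≤ r) (hrq : r ≤ q) :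
    lenD D c p r + lenD D c r q = lenD D c p q := by
  unfold lenD
  rw [← len_add (X D) c hpr hrq, ← len_add (Y D) c hpr hrq, add_add_add_comm]

/-- `|x a - x b| + |y a - y b| ≤ lenD` for every path. -/
theorem abs_add_abs_le_lenD (D : ℂ → ℂ) (h : IsPath a b p q c) :
    ENNReal.ofReal (|X D a - X D b| + |Y D a - Y D b|) ≤ lenD D c p q := by
  rw [ENNReal.ofReal_add (abs_nonneg _) (abs_nonneg _)]
  exact add_le_add (abs_le_len (X D) h) (abs_le_len (Y D) h)

theorem abs_add_abs_le_d1 (D : ℂ → ℂ) (a b : ℍ) :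
    ENNReal.ofReal (|X D a - X D b| + |Y D a - Y D b|) ≤ d1 D a b :=
  le_d1 D _ fun _ _ _ h => abs_add_abs_le_lenD D h

/-- `dE (X D) ≤ d1` and `dE (Y D) ≤ d1`, even the sum. -/
theorem dE_add_dE_le_d1 (D : ℂ → ℂ) (a b : ℍ) :
    dE (X D) a b + dE (Y D) a b ≤ d1 D a b :=
  le_d1 D _ fun _ _ _ h => add_le_add (dE_le (X D) h) (dE_le (Y D) h)

/-- If `d1 a b < m` there is a path on `[0, 1]` with `lenD < m` (`iInf_lt_iff`,
`IsPath.rescale`). -/
theorem exists_path_lt (D : ℂ → ℂ) {m : ℝ≥0∞} (h : d1 D a b < m) :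
    ∃ c : ℝ → ℍ, IsPath a b 0 1 c ∧ lenD D c 0 1 < m := by
  obtain ⟨c, p, q, hc, hlt⟩ := infP_lt (lenD D) h
  obtain ⟨c', hc', hl⟩ := hc.rescale
  refine ⟨c', hc', ?_⟩
  unfold lenD at hlt ⊢
  rwa [hl, hl]

private theorem lenD_isometry (D : ℂ → ℂ) (e : ℍ → ℍ) (ε c₀ : ℂ) (hε : ε = 1 ∨ ε = -1)
    (he : ∀ z : ℍ, D (e z) = ε * D z + c₀) (c : ℝ → ℍ) (p q : ℝ) :
    lenD D (fun t => e (c t)) p q = lenD D c p q := by
  have key : ∀ k : ℝ, ε = (k : ℂ) → |k| = 1 →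
      lenD D (fun t => e (c t)) p q = lenD D c p q := fun k hk hk1 => by
    have hX : ∀ z, X D (e z) = k * X D z + c₀.re := fun z => by
      have := he z
      unfold X
      rw [this, hk]
      simp
    have hY : ∀ z, Y D (e z) = k * Y D z + c₀.im := fun z => by
      have := he z
      unfold Y
      rw [this, hk]
      simp
    unfold lenD
    rw [len_scale (X D) e k _ hX c p q, len_scale (Y D) e k _ hY c p q, hk1]
    simp
  rcases hε with h | h
  · exact key 1 (by simpa using h) (by simp)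
  · exact key (-1) (by simpa using h) (by simp)

private theorem d1_isometry_le (D : ℂ → ℂ) (e : ℍ ≃ₜ ℍ) (ε c₀ : ℂ) (hε : ε = 1 ∨ ε = -1)
    (he : ∀ z : ℍ, D (e z) = ε * D z + c₀) (a b : ℍ) : d1 D (e a) (e b) ≤ d1 D a b := by
  refine le_d1 D _ fun c p q h => ?_
  rw [← lenD_isometry D e ε c₀ hε he c p q]
  exact d1_le D (h.comp e e.continuous)

/-- A homeomorphism with `D (e z) = ε D z + c₀`, `ε = ±1`, preserves `d1`. -/
theorem d1_isometry (D : ℂ → ℂ) (e : ℍ ≃ₜ ℍ) (ε c₀ : ℂ) (hε : ε = 1 ∨ ε = -1)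
    (he : ∀ z : ℍ, D (e z) = ε * D z + c₀) (a b : ℍ) : d1 D (e a) (e b) = d1 D a b := by
  refine le_antisymm (d1_isometry_le D e ε c₀ hε he a b) ?_
  have hs : ∀ z : ℍ, D (e.symm z) = ε * D z + (-(ε * c₀)) := fun z => by
    have := he (e.symm z)
    rw [e.apply_symm_apply] at this
    rw [this]
    rcases hε with h | h <;> rw [h] <;> ring
  have h := d1_isometry_le D e.symm ε _ hε hs (e a) (e b)
  rwa [e.symm_apply_apply, e.symm_apply_apply] at h

/-- `-i D = y - i x`, so `X` and `Y` are exchanged up to a sign (`len_neg`). -/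
theorem d1_neg_I (D : ℂ → ℂ) (a b : ℍ) :
    d1 (fun z => -Complex.I * D z) a b = d1 D a b := by
  have hX : X (fun z => -Complex.I * D z) = Y D := by
    funext z
    simp [X, Y]
  have hY : Y (fun z => -Complex.I * D z) = fun z => -X D z := by
    funext z
    simp [X, Y]
  have : lenD (fun z => -Complex.I * D z) = lenD D := by
    funext c p q
    unfold lenD
    rw [hX, hY, len_neg, add_comm]
  unfold d1
  rw [this]

end Pool.Agent.ANO.Geo
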