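import Mathlib

/-!
# ANO, module A1: a lower bound for the total variation (package Indic)
Self-contained real analysis (one half of the Banach indicatrix theorem).
-/

set_option autoImplicit false

open Set Filter Topology MeasureTheory
open scoped ENNReal

namespace Pool.Agent.ANO.Geo

/-- The Lebesgue measure of the image of an interval is at most the variation: the image is
contained in the interval `[inf, sup]` (compact, attained), whose length is `|h s - h s'|` for two
points of the interval, `≤` the variation (`eVariationOn.edist_le`).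
(For an empty interval the image is empty.) -/
theorem volume_image_le (h : ℝ → ℝ) (p q : ℝ) (hh : ContinuousOn h (Icc p q)) :
    volume (h '' Icc p q) ≤ eVariationOn h (Icc p q) := by
  rcases (Icc p q).eq_empty_or_nonempty with he | hne
  · simp [he]
  obtain ⟨a, ha, hamin⟩ := isCompact_Icc.exists_isMinOn hne hh
  obtain ⟨b, hb, hbmax⟩ := isCompact_Icc.exists_isMaxOn hne hh
  have hsub : h '' Icc p q ⊆ Icc (h a) (h b) := by
    rintro _ ⟨x, hx, rfl⟩
    exact ⟨hamin hx, hbmax hx⟩
  calc volume (h '' Icc p q) ≤ volume (Icc (h a) (h b)) := measure_mono hsub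
    _ = ENNReal.ofReal (h b - h a) := Real.volume_Icc
    _ ≤ edist (h b) (h a) := by
        rw [edist_dist, Real.dist_eq]
        exact ENNReal.ofReal_le_ofReal (le_abs_self _)
    _ ≤ eVariationOn h (Icc p q) := eVariationOn.edist_le h hb ha

/-- The division points. -/
private noncomputable def pt (p q : ℝ) (N k : ℕ) : ℝ := p + k * ((q - p) / (N + 1))

private theorem pt_zero (p q : ℝ) (N : ℕ) : pt p q N 0 = p := by
  simp [pt]

private theorem pt_last (p q : ℝ) (N : ℕ) : pt p q N (N + 1) = q := by
  have h : ((N : ℝ) + 1) ≠ 0 := by positivity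
  rw [pt]
  push_cast
  field_simp
  ring

private theorem pt_succ (p q : ℝ) (N k : ℕ) :
    pt p q N (k + 1) = pt p q N k + (q - p) / (N + 1) := by
  rw [pt, pt]
  push_cast
  ring

private theorem pt_mono {p q : ℝ} (hpq : p ≤ q) (N : ℕ) : Monotone (pt p q N) := by
  refine monotone_nat_of_le_succ fun k => ?_
  rw [pt_succ]
  have : 0 ≤ (q - p) / (N + 1) := div_nonneg (by linarith) (by positivity)
  linarith

private theorem exists_cell (I : ℕ → ℝ) (τ : ℝ) (h0 : I 0 ≤ τ) :
    ∀ n : ℕ, τ ≤ I (n + 1) → ∃ k < n + 1, I k ≤ τ ∧ τ ≤ I (k + 1) := by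
  intro n
  induction n with
  | zero => exact fun h => ⟨0, by omega, h0, h⟩
  | succ n ih =>
    intro h
    by_cases hn : τ ≤ I (n + 1)
    · obtain ⟨k, hk, hk'⟩ := ih hn
      exact ⟨k, by omega, hk'⟩
    · exact ⟨n + 1, by omega, le_of_lt (not_le.mp hn), h⟩

private theorem tendsto_mesh (p q : ℝ) :
    Tendsto (fun N : ℕ => (q - p) / ((N : ℝ) + 1)) atTop (𝓝 0) :=
  Tendsto.const_div_atTop (tendsto_atTop_add_const_right _ _ tendsto_natCast_atTop_atTop) _

/-- If for all `t` outside a countable set there are pairwise different times `τ i ∈ [p, q]` with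
`h (τ i) = t`, for all `i < n` with `t ∈ (u i, w i)`, then the sum of the lengths `w i - u i` is at
most the total variation of `h` on `[p, q]`.

Proof.  If `p = q` then the variation is `0` and every `(u i, w i)` is contained in the union of
the countable bad set and of one point, so it is empty.  Let `p < q`; for `N ≥ 1` let
`I_k = [p + k (q-p)/N, p + (k+1) (q-p)/N]`, `k < N`, and
`F_N t = #{k < N | t ∈ h '' I_k} = ∑ k, indicator (h '' I_k) 1 t`, a measurable function (compact
sets).  `∫⁻ F_N = ∑ k, volume (h '' I_k) ≤ ∑ k, eVariationOn h I_k = eVariationOn h [p, q]`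
(`volume_image_le`, `eVariationOn.sum'`).
For a good `t` let `A = {i < n | t ∈ (u i, w i)}`; the times `τ i`, `i ∈ A`, are pairwise
different, so for all large `N` they lie in pairwise different intervals `I_{k i}` (if
`(q-p)/N` is smaller than all the distances `|τ i - τ j|`), hence `F_N t ≥ #A`, so
`liminf_N F_N t ≥ #A = ∑ i < n, indicator (u i, w i) 1 t`.  Countable sets are null sets, so by
Fatou's lemma (`lintegral_liminf_le`)
`∑ i, (w i - u i) = ∫⁻ ∑ i, indicator ≤ ∫⁻ liminf F_N ≤ liminf ∫⁻ F_N ≤ eVariationOn h [p, q]`. -/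
theorem sum_le_variation (h : ℝ → ℝ) (p q : ℝ) (hpq : p ≤ q) (hh : ContinuousOn h (Icc p q))
    (n : ℕ) (u w : ℕ → ℝ) (bad : Set ℝ) (hbad : bad.Countable)
    (H : ∀ t, t ∉ bad → ∃ τ : ℕ → ℝ,
      (∀ i < n, t ∈ Ioo (u i) (w i) → τ i ∈ Icc p q ∧ h (τ i) = t) ∧
      ∀ i < n, ∀ j < n, i ≠ j → t ∈ Ioo (u i) (w i) → t ∈ Ioo (u j) (w j) → τ i ≠ τ j) :
    ∑ i ∈ Finset.range n, ENNReal.ofReal (w i - u i) ≤ eVariationOn h (Icc p q) := by
  classical
  set J : ℕ → ℕ → Set ℝ := fun N k => h '' Icc (pt p q N k) (pt p q N (k + 1)) with hJ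
  have hsub : ∀ N k, k < N + 1 → Icc (pt p q N k) (pt p q N (k + 1)) ⊆ Icc p q := by
    intro N k hk
    refine Icc_subset_Icc ?_ ?_
    · conv_lhs => rw [← pt_zero p q N]
      exact pt_mono hpq N (Nat.zero_le _)
    · conv_rhs => rw [← pt_last p q N]
      exact pt_mono hpq N (by omega)
  have hJm : ∀ N k, k < N + 1 → MeasurableSet (J N k) := fun N k hk =>
    (isCompact_Icc.image_of_continuousOn (hh.mono (hsub N k hk))).measurableSet
  set F : ℕ → ℝ → ℝ≥0∞ := fun N t =>
    ∑ k ∈ Finset.range (N + 1), (J N k).indicator 1 t with hF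
  have hFm : ∀ N, Measurable (F N) := fun N =>
    Finset.measurable_fun_sum _ fun k hk =>
      measurable_one.indicator (hJm N k (Finset.mem_range.mp hk))
  have hFi : ∀ N, ∫⁻ t, F N t ≤ eVariationOn h (Icc p q) := by
    intro N
    calc ∫⁻ t, F N t = ∑ k ∈ Finset.range (N + 1), ∫⁻ t, (J N k).indicator 1 t :=
          lintegral_finsetSum' _ fun k hk =>
            (measurable_one.indicator (hJm N k (Finset.mem_range.mp hk))).aemeasurable
      _ = ∑ k ∈ Finset.range (N + 1), volume (J N k) :=
          Finset.sum_congr rfl fun k hk =>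
            lintegral_indicator_one (hJm N k (Finset.mem_range.mp hk))
      _ ≤ ∑ k ∈ Finset.range (N + 1),
            eVariationOn h (Icc (pt p q N k) (pt p q N (k + 1))) :=
          Finset.sum_le_sum fun k hk =>
            volume_image_le h _ _ (hh.mono (hsub N k (Finset.mem_range.mp hk)))
      _ = eVariationOn h (Icc (pt p q N 0) (pt p q N (N + 1))) :=
          eVariationOn.sum' h (pt_mono hpq N)
      _ = eVariationOn h (Icc p q) := by rw [pt_zero, pt_last]
  have hae : ∀ᵐ t : ℝ, ∑ i ∈ Finset.range n, (Ioo (u i) (w i)).indicator 1 t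
      ≤ liminf (fun N => F N t) atTop := by
    have hb : ∀ᵐ t : ℝ, t ∉ bad := by
      rw [ae_iff]
      simpa using hbad.measure_zero volume
    filter_upwards [hb] with t ht
    obtain ⟨τ, hτ, hτ'⟩ := H t ht
    set A : Finset ℕ := (Finset.range n).filter (fun i => t ∈ Ioo (u i) (w i)) with hA
    have hAm : ∀ i, i ∈ A ↔ i < n ∧ t ∈ Ioo (u i) (w i) := fun i => by
      rw [hA, Finset.mem_filter, Finset.mem_range]
    have hsum : ∑ i ∈ Finset.range n, (Ioo (u i) (w i)).indicator (1 : ℝ → ℝ≥0∞) t
        = (A.card : ℝ≥0∞) := by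
      rw [hA, Finset.card_filter]
      push_cast
      refine Finset.sum_congr rfl fun i _ => ?_
      by_cases hi : t ∈ Ioo (u i) (w i)
      · rw [indicator_of_mem hi, if_pos hi, Pi.one_apply]
      · rw [indicator_of_notMem hi, if_neg hi]
    rw [hsum]
    refine le_liminf_of_le (by isBoundedDefault) ?_
    have hev : ∀ᶠ N : ℕ in atTop, ∀ i ∈ A, ∀ j ∈ A, i ≠ j →
        (q - p) / ((N : ℝ) + 1) < |τ i - τ j| := by
      rw [Filter.eventually_all_finset]
      intro i hi
      rw [Filter.eventually_all_finset]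
      intro j hj
      by_cases hij : i = j
      · exact Eventually.of_forall fun N hne => absurd hij hne
      · have hne : τ i ≠ τ j := hτ' i ((hAm i).mp hi).1 j ((hAm j).mp hj).1 hij
          ((hAm i).mp hi).2 ((hAm j).mp hj).2
        have hpos : 0 < |τ i - τ j| := abs_pos.mpr (sub_ne_zero.mpr hne)
        filter_upwards [(tendsto_mesh p q).eventually (gt_mem_nhds hpos)] with N hN _
        exact hN
    filter_upwards [hev] with N hN
    have hcell : ∀ i ∈ A, ∃ k < N + 1, pt p q N k ≤ τ i ∧ τ i ≤ pt p q N (k + 1) := by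
      intro i hi
      have hi' := (hτ i ((hAm i).mp hi).1 ((hAm i).mp hi).2).1
      refine exists_cell (pt p q N) (τ i) ?_ N ?_
      · rw [pt_zero]; exact hi'.1
      · rw [pt_last]; exact hi'.2
    choose! c hc hc' using hcell
    have hcard : A.card ≤ ((Finset.range (N + 1)).filter (fun k => t ∈ J N k)).card := by
      refine Finset.card_le_card_of_injOn c ?_ ?_
      · intro i hi
        have hi : i ∈ A := hi
        rw [Finset.mem_coe, Finset.mem_filter, Finset.mem_range]
        exact ⟨hc i hi, ⟨τ i, ⟨(hc' i hi).1, (hc' i hi).2⟩,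
          (hτ i ((hAm i).mp hi).1 ((hAm i).mp hi).2).2⟩⟩
      · intro i hi j hj hij
        by_contra hne
        have hi : i ∈ A := hi
        have hj : j ∈ A := hj
        have h1 := hN i hi j hj hne
        have h2 := hc' i hi
        have h3 := hc' j hj
        rw [← hij] at h3
        rw [pt_succ] at h2 h3
        have h4 : |τ i - τ j| ≤ (q - p) / ((N : ℝ) + 1) := by
          rw [abs_le]
          constructor <;> linarith [h2.1, h2.2, h3.1, h3.2]
        exact absurd h1 (not_lt.mpr h4)
    have hFt : F N t = (((Finset.range (N + 1)).filter (fun k => t ∈ J N k)).card : ℝ≥0∞) := by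
      rw [Finset.card_filter]
      push_cast
      refine Finset.sum_congr rfl fun k _ => ?_
      by_cases hk : t ∈ J N k
      · rw [indicator_of_mem hk, if_pos hk, Pi.one_apply]
      · rw [indicator_of_notMem hk, if_neg hk]
    rw [hFt]
    exact_mod_cast hcard
  calc ∑ i ∈ Finset.range n, ENNReal.ofReal (w i - u i)
      = ∑ i ∈ Finset.range n, volume (Ioo (u i) (w i)) :=
        Finset.sum_congr rfl fun i _ => Real.volume_Ioo.symm
    _ = ∑ i ∈ Finset.range n, ∫⁻ t, (Ioo (u i) (w i)).indicator 1 t :=
        Finset.sum_congr rfl fun i _ => (lintegral_indicator_one measurableSet_Ioo).symm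
    _ = ∫⁻ t, ∑ i ∈ Finset.range n, (Ioo (u i) (w i)).indicator 1 t :=
        (lintegral_finsetSum' _ fun i _ =>
          (measurable_one.indicator measurableSet_Ioo).aemeasurable).symm
    _ ≤ ∫⁻ t, liminf (fun N => F N t) atTop := lintegral_mono_ae hae
    _ ≤ liminf (fun N => ∫⁻ t, F N t) atTop := lintegral_liminf_le hFm
    _ ≤ liminf (fun _ : ℕ => eVariationOn h (Icc p q)) atTop :=
        liminf_le_liminf (Eventually.of_forall hFi)
    _ = eVariationOn h (Icc p q) := liminf_const _

end Pool.Agent.ANO.Geo
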