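import Pool.Agent.ANO.Geo.Cross
import Pool.Agent.ANO.Geo.Indic

/-!
# ANO, module A1: (A6), a geodesic of `d₁` minimises the variation of `x` (package Half)
-/

set_option autoImplicit false

open Set Filter Topology
open scoped UpperHalfPlane MatrixGroups ENNReal

namespace Pool.Agent.ANO.Geo

variable {D : ℂ → ℂ} {a b : ℍ} {l : ℝ} {c : ℝ → ℍ}

/-- For every `t` with `Reg D t` and every monotone sequence `s : ℕ → [0, l]` there are pairwise
different times of `c'` as required by `sum_le_variation`: for `i` with `t` strictly between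
`x (c (s i))` and `x (c (s (i+1)))` (so `s i < s (i+1)`) take `θ i` from `IsGeo.crossing`, the leaf
`v i` through `c (θ i)` (`exists_leaf`) and `τ i` with `c' (τ i) ∈ range (v i)`; so
`x (c' (τ i)) = t`.  If `τ i = τ j` with `i < j` then the two leaves meet, so `v i = v j`
(`IsLeaf.eq_or_disjoint`), and `c (θ i)`, `c (θ j)` are on the same leaf with
`θ i < s (i+1) ≤ s j < θ j`; by `IsGeo.eq_of_mem_leaf` `x (c (s (i+1))) = t`, a contradiction.
(For the other `i` put `τ i = p`.) -/
theorem exists_times (hD : Tame D) (hc : IsGeo D a b l c) {c' : ℝ → ℍ} {p q : ℝ}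
    (h' : IsPath a b p q c') (s : ℕ → ℝ) (hs : Monotone s) (hs' : ∀ i, s i ∈ Icc 0 l) (n : ℕ)
    {t : ℝ} (ht : Reg D t) :
    ∃ τ : ℕ → ℝ,
      (∀ i < n, t ∈ Ioo (min (X D (c (s i))) (X D (c (s (i + 1)))))
          (max (X D (c (s i))) (X D (c (s (i + 1))))) → τ i ∈ Icc p q ∧ X D (c' (τ i)) = t) ∧
      ∀ i < n, ∀ j < n, i ≠ j →
        t ∈ Ioo (min (X D (c (s i))) (X D (c (s (i + 1)))))
          (max (X D (c (s i))) (X D (c (s (i + 1))))) →
        t ∈ Ioo (min (X D (c (s j))) (X D (c (s (j + 1)))))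
          (max (X D (c (s j))) (X D (c (s (j + 1))))) → τ i ≠ τ j := by
  have h1 : ∀ i, ∃ (θ : ℝ) (v : ℝ → ℍ) (τ : ℝ),
      t ∈ Ioo (min (X D (c (s i))) (X D (c (s (i + 1)))))
          (max (X D (c (s i))) (X D (c (s (i + 1))))) →
        θ ∈ Ioo (s i) (s (i + 1)) ∧ IsLeaf D t v ∧ c θ ∈ range v ∧ τ ∈ Icc p q ∧
          c' τ ∈ range v := by
    intro i
    by_cases hP : t ∈ Ioo (min (X D (c (s i))) (X D (c (s (i + 1)))))
        (max (X D (c (s i))) (X D (c (s (i + 1)))))
    · have hlt : s i < s (i + 1) := by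
        refine lt_of_le_of_ne (hs (Nat.le_succ i)) fun h => ?_
        rw [h, min_self, max_self] at hP
        exact absurd (hP.1.trans hP.2) (lt_irrefl _)
      have hx : (X D (c (s i)) < t ∧ t < X D (c (s (i + 1)))) ∨
          (X D (c (s (i + 1))) < t ∧ t < X D (c (s i))) := by
        rcases le_total (X D (c (s i))) (X D (c (s (i + 1)))) with h | h
        · rw [min_eq_left h, max_eq_right h] at hP
          exact Or.inl hP
        · rw [min_eq_right h, max_eq_left h] at hP
          exact Or.inr hP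
      obtain ⟨θ, hθ, hθt, hθv⟩ := hc.crossing hD ht (hs' i).1 hlt (hs' (i + 1)).2 hx
      obtain ⟨v, hv, hvθ⟩ := exists_leaf hD ht (c θ) hθt
      obtain ⟨τ, hτ, hτv⟩ := hθv v hv ⟨_, hvθ⟩ c' p q h'
      exact ⟨θ, v, τ, fun _ => ⟨hθ, hv, ⟨_, hvθ⟩, hτ, hτv⟩⟩
    · exact ⟨0, fun _ => a, 0, fun h => absurd h hP⟩
  choose θ v τ H using h1
  have key : ∀ i j, i < j →
      t ∈ Ioo (min (X D (c (s i))) (X D (c (s (i + 1)))))
        (max (X D (c (s i))) (X D (c (s (i + 1))))) →
      t ∈ Ioo (min (X D (c (s j))) (X D (c (s (j + 1)))))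
        (max (X D (c (s j))) (X D (c (s (j + 1))))) → τ i ≠ τ j := by
    intro i j hij hi hj he
    obtain ⟨a1, a2, a3, a4, a5⟩ := H i hi
    obtain ⟨b1, b2, b3, b4, b5⟩ := H j hj
    have e : v i = v j := a2.eq_or_disjoint hD ht b2 (c' (τ i)) a5 (by rw [he]; exact b5)
    have h2 : s (i + 1) ≤ s j := hs hij
    have h3 : X D (c (s (i + 1))) = t :=
      hc.eq_of_mem_leaf a2 ((hs' i).1.trans a1.1.le) (b1.2.le.trans (hs' (j + 1)).2)
        ⟨a1.2.le, h2.trans b1.1.le⟩ a3 (by rw [e]; exact b3)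
    rw [h3] at hi
    rcases le_total (X D (c (s i))) t with h | h
    · rw [max_eq_right h] at hi
      exact absurd hi.2 (lt_irrefl _)
    · rw [min_eq_right h] at hi
      exact absurd hi.1 (lt_irrefl _)
  refine ⟨τ, fun i _ hi => ?_, fun i _ j _ hij hi hj => ?_⟩
  · obtain ⟨a1, a2, a3, a4, u, hu⟩ := H i hi
    refine ⟨a4, ?_⟩
    rw [← hu]
    show (D (v i u)).re = t
    rw [a2.eq u]
  · rcases lt_or_gt_of_ne hij with h | h
    · exact key i j h hi hj
    · exact (key j i h hj hi).symm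

/-- (A6) for `x`.  `len (X D) c 0 l` is the supremum over monotone sequences `s` in `[0, l]` and
`n` of `∑ i < n, edist (x (c (s (i+1)))) (x (c (s i)))` (`iSup_le`); each sum is
`∑ ofReal (max - min) ≤ len (X D) c' p q` by `sum_le_variation` with the countable bad set
`{t | ¬ Reg D t}` (`countable_not_reg`) and `exists_times`. -/
theorem IsGeo.len_le (hD : Tame D) (hc : IsGeo D a b l c) {c' : ℝ → ℍ} {p q : ℝ}
    (h' : IsPath a b p q c') : len (X D) c 0 l ≤ len (X D) c' p q := by
  have hDc : Continuous fun z : ℍ => D z :=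
    hD.holo.continuousOn.comp_continuous UpperHalfPlane.continuous_coe fun z => z.im_pos
  have hXc : Continuous (X D) := Complex.continuous_re.comp hDc
  refine iSup_le ?_
  rintro ⟨n, s, hs, hs'⟩
  have h1 := sum_le_variation (fun t => X D (c' t)) p q h'.le (hXc.comp_continuousOn h'.cont) n
    (fun i => min (X D (c (s i))) (X D (c (s (i + 1)))))
    (fun i => max (X D (c (s i))) (X D (c (s (i + 1))))) {t | ¬ Reg D t} (countable_not_reg hD)
    fun t ht => exists_times hD hc h' s hs hs' n (not_not.1 ht)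
  refine le_trans (le_of_eq (Finset.sum_congr rfl fun i _ => ?_)) h1
  show edist (X D (c (s (i + 1)))) (X D (c (s i))) = ENNReal.ofReal
    (max (X D (c (s i))) (X D (c (s (i + 1)))) - min (X D (c (s i))) (X D (c (s (i + 1)))))
  rw [edist_comm, edist_dist, Real.dist_eq, max_sub_min_eq_abs, abs_sub_comm]

end Pool.Agent.ANO.Geo
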