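import Pool.Agent.ANO.Defs

/-!
# ANO, module A1: the pseudo-metrics `du`, `ds` on the upper half plane

`du a b` (`ds a b`) is the infimum of the total variations of `Re D ∘ c` (`Im D ∘ c`) over all
paths `c` from `a` to `b`.
-/

set_option autoImplicit false

open Set Filter Topology
open scoped UpperHalfPlane MatrixGroups ENNReal

namespace Pool.Agent.ANO.Geo

/-- `c` is a continuous path from `a` to `b` with parameter interval `[p, q]`. -/
structure IsPath (a b : ℍ) (p q : ℝ) (c : ℝ → ℍ) : Prop where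
  le : p ≤ q
  cont : ContinuousOn c (Icc p q)
  left : c p = a
  right : c q = b

/-- The total variation of `φ ∘ c` on `[p, q]`. -/
noncomputable def len (φ : ℍ → ℝ) (c : ℝ → ℍ) (p q : ℝ) : ℝ≥0∞ :=
  eVariationOn (fun t => φ (c t)) (Icc p q)

/-- The infimum of the total variations of `φ ∘ c` over all paths from `a` to `b`. -/
noncomputable def dE (φ : ℍ → ℝ) (a b : ℍ) : ℝ≥0∞ :=
  ⨅ (c : ℝ → ℍ) (p : ℝ) (q : ℝ) (_ : IsPath a b p q c), len φ c p q

/-- `x = Re D` on the upper half plane. -/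
noncomputable def X (D : ℂ → ℂ) (z : ℍ) : ℝ := (D z).re

/-- `y = Im D` on the upper half plane. -/
noncomputable def Y (D : ℂ → ℂ) (z : ℍ) : ℝ := (D z).im

/-- The unstable pseudo-metric. -/
noncomputable def du (S : FlatSurface) (a b : ℍ) : ℝ := (dE (X S.D) a b).toReal

/-- The stable pseudo-metric. -/
noncomputable def ds (S : FlatSurface) (a b : ℍ) : ℝ := (dE (Y S.D) a b).toReal

/-- The properties of `du` and `ds` for a flat surface. -/
structure Props (S : FlatSurface) : Prop where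
  du_nonneg : ∀ a b, 0 ≤ du S a b
  ds_nonneg : ∀ a b, 0 ≤ ds S a b
  du_symm : ∀ a b, du S a b = du S b a
  ds_symm : ∀ a b, ds S a b = ds S b a
  du_triangle : ∀ a b c, du S a c ≤ du S a b + du S b c
  ds_triangle : ∀ a b c, ds S a c ≤ ds S a b + ds S b c
  du_inv : ∀ γ ∈ S.Γ, ∀ a b : ℍ, du S (γ • a) (γ • b) = du S a b
  ds_inv : ∀ γ ∈ S.Γ, ∀ a b : ℍ, ds S (γ • a) (γ • b) = ds S a b
  re_le_du : ∀ a b : ℍ, |(S.D a).re - (S.D b).re| ≤ du S a b
  im_le_ds : ∀ a b : ℍ, |(S.D a).im - (S.D b).im| ≤ ds S a b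
  /-- `du` is at most the variation of `Re D` along any path. -/
  du_le : ∀ (a b : ℍ) (p q : ℝ) (c : ℝ → ℍ), IsPath a b p q c →
    ENNReal.ofReal (du S a b) ≤ eVariationOn (fun t => (S.D (c t)).re) (Icc p q)
  ds_le : ∀ (a b : ℍ) (p q : ℝ) (c : ℝ → ℍ), IsPath a b p q c →
    ENNReal.ofReal (ds S a b) ≤ eVariationOn (fun t => (S.D (c t)).im) (Icc p q)
  /-- (A6): both infima are attained by the same path. -/
  attained : ∀ a b : ℍ, ∃ c : ℝ → ℍ, IsPath a b 0 1 c ∧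
    eVariationOn (fun t => (S.D (c t)).re) (Icc 0 1) = ENNReal.ofReal (du S a b) ∧
    eVariationOn (fun t => (S.D (c t)).im) (Icc 0 1) = ENNReal.ofReal (ds S a b)
  /-- (A1) -/
  upper : ∀ R : ℝ, ∃ C : ℝ, ∀ a b : ℍ, dist a b ≤ R → du S a b ≤ C ∧ ds S a b ≤ C
  small : ∀ ε > 0, ∃ δ > 0, ∀ a b : ℍ, dist a b < δ → du S a b < ε ∧ ds S a b < ε
  /-- (A2) -/
  lower : ∀ r > 0, ∃ m > 0, ∀ a b : ℍ, r ≤ dist a b → m ≤ du S a b + ds S a b
  /-- (A7) -/
  proper : ∀ R : ℝ, ∃ C : ℝ, ∀ a b : ℍ, du S a b ≤ R → ds S a b ≤ R → dist a b ≤ C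
  eq_of_zero : ∀ a b : ℍ, du S a b = 0 → ds S a b = 0 → a = b

/-- Module A1, first statement. -/
def PropsStatement : Prop := ∀ S : FlatSurface, Props S

/-- Module A1, second statement: the effect of a pseudo-Anosov map. -/
def ScaleStatement : Prop := ∀ (S : PASurface) (a b : ℍ),
  du S.toFlatSurface (S.f a) (S.f b) = S.l * du S.toFlatSurface a b ∧
  ds S.toFlatSurface (S.f a) (S.f b) = S.l⁻¹ * ds S.toFlatSurface a b

end Pool.Agent.ANO.Geo
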