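import Pool.Agent.ANO.Geo.Basic

/-!
# ANO, module A1: local inverses of `D`, critical points (package LocInv)
-/

set_option autoImplicit false

open Set Filter Topology Metric
open scoped UpperHalfPlane MatrixGroups ENNReal

namespace Pool.Agent.ANO.Geo

variable {D : ℂ → ℂ}

private theorem isOpen_half_LocInv : IsOpen {z : ℂ | 0 < z.im} :=
  isOpen_lt continuous_const Complex.continuous_im

/-- Inverse function theorem: `D` is holomorphic on the open half plane, so it has the strict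
derivative `deriv D z₀ ≠ 0` at `z₀` (`DifferentiableOn.analyticAt`,
`AnalyticAt.hasStrictDerivAt`).  `HasStrictFDerivAt.toOpenPartialHomeomorph` (or
`HasStrictDerivAt.localInverse`) gives a local homeomorphism; restrict the target to a small ball
whose preimage lies in the half plane, and let `χ` be the inverse, with values in `ℍ`
(arbitrary outside the ball), `U` the preimage of the ball in the source (an open subset of `ℍ`
by `UpperHalfPlane.isOpenEmbedding_coe`). -/
theorem exists_local_inverse (hD : DifferentiableOn ℂ D {z : ℂ | 0 < z.im}) (z₀ : ℍ)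
    (h : deriv D (z₀ : ℂ) ≠ 0) :
    ∃ (ρ : ℝ) (χ : ℂ → ℍ) (U : Set ℍ), 0 < ρ ∧ IsOpen U ∧ z₀ ∈ U ∧
      ContinuousOn χ (ball (D z₀) ρ) ∧ (∀ w ∈ ball (D z₀) ρ, χ w ∈ U ∧ D (χ w) = w) ∧
      ∀ z ∈ U, D z ∈ ball (D z₀) ρ ∧ χ (D z) = z := by
  obtain ⟨Φ, hΦ, hsrc⟩ : ∃ Φ : OpenPartialHomeomorph ℂ ℂ,
      (∀ z, Φ z = D z) ∧ (z₀ : ℂ) ∈ Φ.source := by
    have h1 : AnalyticAt ℂ D (z₀ : ℂ) :=
      hD.analyticAt (isOpen_half_LocInv.mem_nhds z₀.im_pos)
    have h2 := h1.hasStrictDerivAt.hasStrictFDerivAt_equiv h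
    exact ⟨h2.toOpenPartialHomeomorph D, fun z => rfl, h2.mem_toOpenPartialHomeomorph_source⟩
  have hsymm : Φ.symm (D z₀) = (z₀ : ℂ) := by
    rw [← hΦ]
    exact Φ.left_inv hsrc
  have hV : IsOpen (Φ.target ∩ Φ.symm ⁻¹' {z : ℂ | 0 < z.im}) :=
    Φ.isOpen_inter_preimage_symm isOpen_half_LocInv
  have hmem : D z₀ ∈ Φ.target ∩ Φ.symm ⁻¹' {z : ℂ | 0 < z.im} := by
    refine ⟨?_, ?_⟩
    · rw [← hΦ]
      exact Φ.map_source hsrc
    · rw [mem_preimage, hsymm]
      exact z₀.im_pos
  obtain ⟨ρ, hρ, hball⟩ := Metric.isOpen_iff.1 hV _ hmem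
  have hcoe : ∀ w ∈ ball (D z₀) ρ, ((UpperHalfPlane.ofComplex (Φ.symm w) : ℍ) : ℂ) = Φ.symm w := by
    intro w hw
    rw [UpperHalfPlane.ofComplex_apply_of_im_pos (hball hw).2]
  refine ⟨ρ, fun w => UpperHalfPlane.ofComplex (Φ.symm w),
    {z : ℍ | (z : ℂ) ∈ Φ.source ∧ D z ∈ ball (D z₀) ρ}, hρ, ?_, ?_, ?_, ?_, ?_⟩
  · have h3 : IsOpen (Φ.source ∩ Φ ⁻¹' ball (D z₀) ρ) := Φ.isOpen_inter_preimage isOpen_ball
    have h4 := h3.preimage UpperHalfPlane.continuous_coe
    have h5 : {z : ℍ | (z : ℂ) ∈ Φ.source ∧ D z ∈ ball (D z₀) ρ} =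
        ((↑) : ℍ → ℂ) ⁻¹' (Φ.source ∩ Φ ⁻¹' ball (D z₀) ρ) := by
      ext z
      simp only [mem_ofPred_eq, mem_preimage, mem_inter_iff, hΦ]
    rw [h5]
    exact h4
  · exact ⟨hsrc, mem_ball_self hρ⟩
  · rw [UpperHalfPlane.isOpenEmbedding_coe.isInducing.continuousOn_iff]
    refine (Φ.symm.continuousOn.mono ?_).congr hcoe
    intro w hw
    exact (hball hw).1
  · intro w hw
    have h6 : D (Φ.symm w) = w := by
      rw [← hΦ]
      exact Φ.right_inv (hball hw).1
    refine ⟨⟨?_, ?_⟩, ?_⟩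
    · rw [hcoe w hw]
      exact Φ.map_target (hball hw).1
    · rw [hcoe w hw, h6]
      exact hw
    · rw [hcoe w hw]
      exact h6
  · rintro z ⟨hz1, hz2⟩
    refine ⟨hz2, ?_⟩
    have h7 : Φ.symm (D z) = (z : ℂ) := by
      rw [← hΦ]
      exact Φ.left_inv hz1
    beta_reduce
    rw [h7]
    exact UpperHalfPlane.ofComplex_apply z

/-- Two continuous lifts which agree at one point of a preconnected set agree on it.  The set of
agreement is relatively closed (`ℍ` is Hausdorff) and relatively open: at a point `τ` of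
agreement take `U` from `exists_local_inverse` at `v τ`; near `τ` both lifts are in `U` and have
the same `D`-value, and `D` is injective on `U`.
(`IsPreconnected.induction_on`-style or `IsPreconnected.subset_of_closure_inter_subset`, or
`IsPreconnected` with the two relatively open sets of agreement and of disagreement.) -/
theorem lift_unique (hD : DifferentiableOn ℂ D {z : ℂ | 0 < z.im}) {I : Set ℝ}
    (hI : IsPreconnected I) {v v' : ℝ → ℍ} (hv : ContinuousOn v I) (hv' : ContinuousOn v' I)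
    (h : ∀ τ ∈ I, D (v τ) = D (v' τ)) (hreg : ∀ τ ∈ I, deriv D (v τ : ℂ) ≠ 0)
    {τ₀ : ℝ} (hτ : τ₀ ∈ I) (h0 : v τ₀ = v' τ₀) : EqOn v v' I := by
  have hpc : PreconnectedSpace I := isPreconnected_iff_preconnectedSpace.1 hI
  have hvc : Continuous fun τ : I => v τ := continuousOn_iff_continuous_domRestrict.1 hv
  have hvc' : Continuous fun τ : I => v' τ := continuousOn_iff_continuous_domRestrict.1 hv'
  have hclosed : IsClosed {τ : I | v τ = v' τ} := isClosed_eq hvc hvc'
  have hopen : IsOpen {τ : I | v τ = v' τ} := by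
    rw [isOpen_iff_mem_nhds]
    intro τ hτ'
    have hτ' : v τ = v' τ := hτ'
    obtain ⟨ρ, χ, U, -, hU, hmem, -, -, hinj⟩ := exists_local_inverse hD (v τ) (hreg τ τ.2)
    have h1 : ∀ᶠ σ : I in 𝓝 τ, v σ ∈ U := hvc.continuousAt.eventually_mem (hU.mem_nhds hmem)
    have h2 : ∀ᶠ σ : I in 𝓝 τ, v' σ ∈ U :=
      hvc'.continuousAt.eventually_mem (hU.mem_nhds (by rw [← hτ']; exact hmem))
    filter_upwards [h1, h2] with σ hσ hσ'
    have h3 := (hinj _ hσ).2
    rw [h σ σ.2, (hinj _ hσ').2] at h3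
    exact h3.symm
  have huniv : {τ : I | v τ = v' τ} = univ :=
    IsClopen.eq_univ ⟨hclosed, hopen⟩ ⟨⟨τ₀, hτ⟩, h0⟩
  intro τ hτ'
  have h4 : (⟨τ, hτ'⟩ : I) ∈ {τ : I | v τ = v' τ} := by
    rw [huniv]
    exact mem_univ _
  exact h4

/-- `deriv D` is analytic on the half plane and not identically zero (otherwise `D` would be
constant: `IsOpen.is_const_of_deriv_eq_zero`), so its zeros in the connected half plane are
isolated, i.e. the set `Z` of zeros is closed and discrete; a closed discrete subset of the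
second countable space `ℍ` is countable (`IsDiscrete`/`DiscreteTopology` and
`TopologicalSpace.separableSpace_iff_countable`, or: every compact subset of `ℍ` contains
finitely many zeros and `ℍ` is `σ`-compact).  The image under `X D` is countable. -/
theorem countable_not_reg (hD : Tame D) : {t : ℝ | ¬ Reg D t}.Countable := by
  have hpre : IsPreconnected {z : ℂ | 0 < z.im} := (convex_halfSpace_im_gt 0).isPreconnected
  have han : AnalyticOnNhd ℂ (deriv D) {z : ℂ | 0 < z.im} :=
    (hD.holo.deriv isOpen_half_LocInv).analyticOnNhd isOpen_half_LocInv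
  have hne : ∀ x : ℂ, 0 < x.im → ∀ᶠ z in 𝓝[≠] x, deriv D z ≠ 0 := by
    intro x hx
    rcases (han x hx).eventually_eq_zero_or_eventually_ne_zero with h | h
    · exfalso
      have h1 := han.eqOn_zero_of_preconnected_of_eventuallyEq_zero hpre hx h
      obtain ⟨z, w, hzw⟩ := hD.nonconst
      exact hzw (isOpen_half_LocInv.is_const_of_deriv_eq_zero hpre hD.holo h1 z.im_pos w.im_pos)
    · exact h
  have hdisc : DiscreteTopology {z : ℂ | 0 < z.im ∧ deriv D z = 0} := by
    rw [discreteTopology_subtype_iff]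
    rintro x ⟨hx, -⟩
    rw [Filter.inf_principal_eq_bot]
    filter_upwards [hne x hx] with z hz hz'
    exact hz hz'.2
  have hcount : {z : ℂ | 0 < z.im ∧ deriv D z = 0}.Countable :=
    TopologicalSpace.separableSpace_iff_countable.1 inferInstance
  refine (hcount.image fun z => (D z).re).mono ?_
  intro t ht
  have ht : ¬ ∀ z : ℍ, X D z = t → deriv D (z : ℂ) ≠ 0 := ht
  push Not at ht
  obtain ⟨z, hz, hz'⟩ := ht
  exact ⟨z, ⟨z.im_pos, hz'⟩, hz⟩

end Pool.Agent.ANO.Geo
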