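import Pool.Agent.ANO.Geo.DistA
import Pool.Agent.ANO.Geo.LocInv

/-!
# ANO, module A1: (A4)(a), existence of leaves (package LeafA)
-/

set_option autoImplicit false

open Set Filter Topology Metric
open scoped UpperHalfPlane MatrixGroups ENNReal

namespace Pool.Agent.ANO.Geo

variable {D : ℂ → ℂ} {t : ℝ}

/-- A path `v : [s, s'] → ℍ` with `D (v τ) = t + i τ` has `lenD = s' - s` (the variation of the
constant `t` is `0` and the variation of `τ ↦ τ` is `s' - s`: `MonotoneOn.eVariationOn_le` or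
`eVariationOn` of a monotone function). -/
theorem lenD_lift {v : ℝ → ℍ} {s s' : ℝ} (h : s ≤ s')
    (hv : ∀ τ ∈ Icc s s', D (v τ) = ⟨t, τ⟩) : lenD D v s s' = ENNReal.ofReal (s' - s) := by
  have hX : len (X D) v s s' = 0 := by
    unfold len
    refine eVariationOn.constant_on ?_
    rintro _ ⟨a, ha, rfl⟩ _ ⟨b, hb, rfl⟩
    simp [X, hv a ha, hv b hb]
  have hY : len (Y D) v s s' = ENNReal.ofReal (s' - s) := by
    unfold len
    have h1 : EqOn (fun τ => Y D (v τ)) (fun τ => τ) (Icc s s') := fun τ hτ => by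
      simp [Y, hv τ hτ]
    rw [eVariationOn.eq_of_eqOn h1]
    have h2 : MonotoneOn (fun τ : ℝ => τ) (Icc s s') := fun a _ b _ hab => hab
    have h3 := h2.eVariationOn_eq (left_mem_Icc.2 h) (right_mem_Icc.2 h)
    rwa [inter_self] at h3
  unfold lenD
  rw [hX, hY, zero_add]

private theorem continuous_D (hD : DifferentiableOn ℂ D {z : ℂ | 0 < z.im}) :
    Continuous (fun z : ℍ => D (z : ℂ)) :=
  hD.continuousOn.comp_continuous UpperHalfPlane.continuous_coe (fun z => z.im_pos)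

private theorem eta_D {p : ℍ} (hp : X D p = t) : D (p : ℂ) = ⟨t, Y D p⟩ := by
  rw [← hp]
  rfl

private theorem continuous_mk (t : ℝ) : Continuous (fun τ : ℝ => (⟨t, τ⟩ : ℂ)) := by
  have h : (fun τ : ℝ => (⟨t, τ⟩ : ℂ)) = fun τ : ℝ => (t : ℂ) + τ * Complex.I := by
    funext τ
    apply Complex.ext <;> simp
  rw [h]
  fun_prop

private theorem dist_mk (t a b : ℝ) : dist (⟨t, a⟩ : ℂ) ⟨t, b⟩ = |a - b| := by
  have h : dist (⟨t, a⟩ : ℂ) ⟨t, b⟩ = dist a b :=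
    Complex.dist_of_re_eq (z := ⟨t, a⟩) (w := ⟨t, b⟩) rfl
  rw [h, Real.dist_eq]

/-- Uniform local lifts over a compact set.  `IsCompact.induction_on` for `C` (the statement for
a subset of `C`).  At `p₀ ∈ C` with `X D p₀ = t` take `ρ, χ, U` from `exists_local_inverse`; for
`p ∈ U` near `p₀` with `X D p = t` and `|D p - D p₀| < ρ/2` the lift is
`τ ↦ χ (t + i τ)`, `|τ - Y D p| ≤ ρ/4`.  At `p₀` with `X D p₀ ≠ t` there are no points `p` with
`X D p = t` near `p₀`. -/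
theorem exists_unif_lift (hD : Tame D) (ht : Reg D t) {C : Set ℍ} (hC : IsCompact C) :
    ∃ δ > 0, ∀ p ∈ C, X D p = t → ∃ χ : ℝ → ℍ,
      ContinuousOn χ (Icc (Y D p - δ) (Y D p + δ)) ∧ χ (Y D p) = p ∧
      ∀ τ ∈ Icc (Y D p - δ) (Y D p + δ), D (χ τ) = ⟨t, τ⟩ := by
  have hcD := continuous_D hD.holo
  refine hC.induction_on (p := fun A : Set ℍ => ∃ δ > 0, ∀ p ∈ A, X D p = t → ∃ χ : ℝ → ℍ,
      ContinuousOn χ (Icc (Y D p - δ) (Y D p + δ)) ∧ χ (Y D p) = p ∧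
      ∀ τ ∈ Icc (Y D p - δ) (Y D p + δ), D (χ τ) = ⟨t, τ⟩) ?_ ?_ ?_ ?_
  · exact ⟨1, one_pos, fun p hp => absurd hp (notMem_empty p)⟩
  · rintro A B hAB ⟨δ, hδ, h⟩
    exact ⟨δ, hδ, fun p hp => h p (hAB hp)⟩
  · rintro A B ⟨δ, hδ, h⟩ ⟨δ', hδ', h'⟩
    refine ⟨min δ δ', lt_min hδ hδ', fun p hp hpt => ?_⟩
    rcases hp with hp | hp
    · obtain ⟨χ, h1, h2, h3⟩ := h p hp hpt
      have hsub : Icc (Y D p - min δ δ') (Y D p + min δ δ') ⊆ Icc (Y D p - δ) (Y D p + δ) :=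
        Icc_subset_Icc (by linarith [min_le_left δ δ']) (by linarith [min_le_left δ δ'])
      exact ⟨χ, h1.mono hsub, h2, fun τ hτ => h3 τ (hsub hτ)⟩
    · obtain ⟨χ, h1, h2, h3⟩ := h' p hp hpt
      have hsub : Icc (Y D p - min δ δ') (Y D p + min δ δ') ⊆ Icc (Y D p - δ') (Y D p + δ') :=
        Icc_subset_Icc (by linarith [min_le_right δ δ']) (by linarith [min_le_right δ δ'])
      exact ⟨χ, h1.mono hsub, h2, fun τ hτ => h3 τ (hsub hτ)⟩
  · intro p₀ _
    by_cases hp₀ : X D p₀ = t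
    · obtain ⟨ρ, χ, U, hρ, hU, hpU, hχc, hχ, hUχ⟩ := exists_local_inverse hD.holo p₀ (ht p₀ hp₀)
      have hT : U ∩ {p : ℍ | dist (D p) (D p₀) < ρ / 2} ∈ 𝓝 p₀ := by
        refine inter_mem (hU.mem_nhds hpU) ?_
        refine (isOpen_lt (hcD.dist continuous_const) continuous_const).mem_nhds ?_
        show dist (D p₀) (D p₀) < ρ / 2
        rw [dist_self]
        positivity
      refine ⟨U ∩ {p : ℍ | dist (D p) (D p₀) < ρ / 2}, mem_nhdsWithin_of_mem_nhds hT, ρ / 4,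
        by positivity, ?_⟩
      rintro p ⟨hpU', hpd⟩ hpt
      have hball : ∀ τ ∈ Icc (Y D p - ρ / 4) (Y D p + ρ / 4),
          (⟨t, τ⟩ : ℂ) ∈ ball (D p₀) ρ := by
        intro τ hτ
        rw [mem_ball]
        have h1 : dist (⟨t, τ⟩ : ℂ) (D p) ≤ ρ / 4 := by
          rw [eta_D hpt, dist_mk, abs_le]
          constructor <;> linarith [hτ.1, hτ.2]
        have h2 : dist (D p) (D p₀) < ρ / 2 := hpd
        have h3 := dist_triangle (⟨t, τ⟩ : ℂ) (D p) (D p₀)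
        linarith
      refine ⟨fun τ => χ ⟨t, τ⟩, ?_, ?_, ?_⟩
      · exact hχc.comp (continuous_mk t).continuousOn hball
      · show χ ⟨t, Y D p⟩ = p
        rw [← eta_D hpt]
        exact (hUχ p hpU').2
      · intro τ hτ
        exact (hχ _ (hball τ hτ)).2
    · have hcX : Continuous (X D) := Complex.continuous_re.comp hcD
      refine ⟨{p : ℍ | X D p ≠ t}, mem_nhdsWithin_of_mem_nhds
        ((isOpen_ne_fun hcX continuous_const).mem_nhds hp₀), 1, one_pos, ?_⟩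
      intro p hp hpt
      exact absurd hpt hp

/-- Gluing of two lifts over adjacent intervals. -/
private theorem glue_lift {v w : ℝ → ℍ} {a b c : ℝ} (hab : a ≤ b) (hbc : b ≤ c)
    (hv : ContinuousOn v (Icc a b)) (hw : ContinuousOn w (Icc b c)) (h : v b = w b)
    (hv' : ∀ τ ∈ Icc a b, D (v τ) = ⟨t, τ⟩) (hw' : ∀ τ ∈ Icc b c, D (w τ) = ⟨t, τ⟩) :
    ∃ u : ℝ → ℍ, ContinuousOn u (Icc a c) ∧ (∀ τ ∈ Icc a c, D (u τ) = ⟨t, τ⟩) ∧
      EqOn u v (Icc a b) ∧ EqOn u w (Icc b c) := by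
  have h1 : EqOn (fun τ => if τ ≤ b then v τ else w τ) v (Icc a b) := fun τ hτ => by
    simp [hτ.2]
  have h2 : EqOn (fun τ => if τ ≤ b then v τ else w τ) w (Icc b c) := fun τ hτ => by
    rcases hτ.1.eq_or_lt with h3 | h3
    · subst h3
      simp [h]
    · simp [not_le.2 h3]
  refine ⟨fun τ => if τ ≤ b then v τ else w τ, ?_, ?_, h1, h2⟩
  · rw [← Icc_union_Icc_eq_Icc hab hbc]
    exact (hv.congr h1).union_of_isClosed (hw.congr h2) isClosed_Icc isClosed_Icc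
  · intro τ hτ
    rw [← Icc_union_Icc_eq_Icc hab hbc] at hτ
    rcases hτ with hτ | hτ
    · exact (congrArg (fun z : ℍ => D z) (h1 hτ)).trans (hv' τ hτ)
    · exact (congrArg (fun z : ℍ => D z) (h2 hτ)).trans (hw' τ hτ)

/-- Lifts over bounded intervals.  `C = {b | d1 m b ≤ ℓ}` is compact; take `δ` from
`exists_unif_lift`.  By induction on `j` there is a lift over
`[s₀ - min (j δ) ℓ, s₀ + min (j δ) ℓ]`, `s₀ = Y D m`: the end points of the lift are in `C`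
(`lenD_lift`, `d1_le`, `d1_comm`), so the lift can be prolonged by the local lifts at the end
points (gluing of continuous functions on adjacent closed intervals).  Take `j` with
`j δ ≥ ℓ`. -/
theorem exists_lift (hD : Tame D) (ht : Reg D t) (m : ℍ) (hm : X D m = t) (ℓ : ℝ) (hℓ : 0 ≤ ℓ) :
    ∃ v : ℝ → ℍ, ContinuousOn v (Icc (Y D m - ℓ) (Y D m + ℓ)) ∧ v (Y D m) = m ∧
      ∀ τ ∈ Icc (Y D m - ℓ) (Y D m + ℓ), D (v τ) = ⟨t, τ⟩ := by
  obtain ⟨δ, hδ, hlift⟩ := exists_unif_lift hD ht (hD.compact m ℓ)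
  have key : ∀ j : ℕ, ∃ v : ℝ → ℍ,
      ContinuousOn v (Icc (Y D m - min (j * δ) ℓ) (Y D m + min (j * δ) ℓ)) ∧ v (Y D m) = m ∧
      ∀ τ ∈ Icc (Y D m - min (j * δ) ℓ) (Y D m + min (j * δ) ℓ), D (v τ) = ⟨t, τ⟩ := by
    intro j
    induction j with
    | zero =>
      refine ⟨fun _ => m, continuousOn_const, rfl, fun τ hτ => ?_⟩
      have h0 : min (((0 : ℕ) : ℝ) * δ) ℓ = 0 := by
        simp [hℓ]
      rw [h0, sub_zero, add_zero, Icc_self, mem_singleton_iff] at hτ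
      rw [hτ]
      exact eta_D hm
    | succ j ih =>
      obtain ⟨v, hvc, hvm, hv⟩ := ih
      obtain ⟨a, ha⟩ : ∃ a, a = min (j * δ) ℓ := ⟨_, rfl⟩
      obtain ⟨a', ha'⟩ : ∃ a', a' = min (((j + 1 : ℕ) : ℝ) * δ) ℓ := ⟨_, rfl⟩
      rw [← ha] at hvc hv
      rw [← ha']
      have ha0 : 0 ≤ a := by
        rw [ha]
        exact le_min (by positivity) hℓ
      have haℓ : a ≤ ℓ := by
        rw [ha]
        exact min_le_right _ _
      have haa' : a ≤ a' := by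
        rw [ha, ha']
        refine min_le_min ?_ le_rfl
        push_cast
        nlinarith
      have ha'a : a' ≤ a + δ := by
        rw [ha, ha', ← min_add_add_right]
        refine min_le_min ?_ (by linarith)
        push_cast
        linarith
      obtain ⟨s₀, hs₀⟩ : ∃ s₀, s₀ = Y D m := ⟨_, rfl⟩
      rw [← hs₀] at hvc hvm hv ⊢
      have mem1 : s₀ + a ∈ Icc (s₀ - a) (s₀ + a) := ⟨by linarith, le_rfl⟩
      have mem2 : s₀ - a ∈ Icc (s₀ - a) (s₀ + a) := ⟨le_rfl, by linarith⟩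
      -- the end points
      have hX1 : X D (v (s₀ + a)) = t := by simp [X, hv _ mem1]
      have hY1 : Y D (v (s₀ + a)) = s₀ + a := by simp [Y, hv _ mem1]
      have hX2 : X D (v (s₀ - a)) = t := by simp [X, hv _ mem2]
      have hY2 : Y D (v (s₀ - a)) = s₀ - a := by simp [Y, hv _ mem2]
      have hC1 : d1 D m (v (s₀ + a)) ≤ ENNReal.ofReal ℓ := by
        have hsub : Icc s₀ (s₀ + a) ⊆ Icc (s₀ - a) (s₀ + a) :=
          Icc_subset_Icc (by linarith) le_rfl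
        have hp : IsPath m (v (s₀ + a)) s₀ (s₀ + a) v :=
          ⟨by linarith, hvc.mono hsub, hvm, rfl⟩
        refine (d1_le D hp).trans ?_
        rw [lenD_lift (by linarith) (fun τ hτ => hv τ (hsub hτ))]
        exact ENNReal.ofReal_le_ofReal (by linarith)
      have hC2 : d1 D m (v (s₀ - a)) ≤ ENNReal.ofReal ℓ := by
        have hsub : Icc (s₀ - a) s₀ ⊆ Icc (s₀ - a) (s₀ + a) :=
          Icc_subset_Icc le_rfl (by linarith)
        have hp : IsPath (v (s₀ - a)) m (s₀ - a) s₀ v :=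
          ⟨by linarith, hvc.mono hsub, rfl, hvm⟩
        rw [d1_comm]
        refine (d1_le D hp).trans ?_
        rw [lenD_lift (by linarith) (fun τ hτ => hv τ (hsub hτ))]
        exact ENNReal.ofReal_le_ofReal (by linarith)
      obtain ⟨χ₁, h1c, h1m, h1⟩ := hlift _ hC1 hX1
      obtain ⟨χ₂, h2c, h2m, h2⟩ := hlift _ hC2 hX2
      rw [hY1] at h1c h1m h1
      rw [hY2] at h2c h2m h2
      have hsub1 : Icc (s₀ + a) (s₀ + a') ⊆ Icc (s₀ + a - δ) (s₀ + a + δ) :=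
        Icc_subset_Icc (by linarith) (by linarith)
      have hsub2 : Icc (s₀ - a') (s₀ - a) ⊆ Icc (s₀ - a - δ) (s₀ - a + δ) :=
        Icc_subset_Icc (by linarith) (by linarith)
      obtain ⟨u, huc, hu, huv, -⟩ := glue_lift (D := D) (t := t) (by linarith) (by linarith) hvc
        (h1c.mono hsub1) h1m.symm hv (fun τ hτ => h1 τ (hsub1 hτ))
      have hum2 : χ₂ (s₀ - a) = u (s₀ - a) := by
        rw [h2m, huv mem2]
      obtain ⟨w, hwc, hw, -, hwu⟩ := glue_lift (D := D) (t := t) (by linarith)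
        (show s₀ - a ≤ s₀ + a' by linarith) (h2c.mono hsub2) huc hum2
        (fun τ hτ => h2 τ (hsub2 hτ)) hu
      refine ⟨w, hwc, ?_, hw⟩
      rw [hwu ⟨by linarith, by linarith⟩, huv ⟨by linarith, by linarith⟩, hvm]
  obtain ⟨j, hj⟩ := exists_nat_ge (ℓ / δ)
  have hj' : ℓ ≤ j * δ := (div_le_iff₀ hδ).1 hj
  have := key j
  rwa [min_eq_right hj'] at this

/-- The leaf through `m`.  `v τ` is the value at `τ` of the lift over
`[s₀ - (|τ - s₀| + 1), s₀ + (|τ - s₀| + 1)]`; by `lift_unique` it agrees near any `τ₀` with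
the lift for `ℓ = |τ₀ - s₀| + 2`, so it is continuous. -/
theorem exists_leaf (hD : Tame D) (ht : Reg D t) (m : ℍ) (hm : X D m = t) :
    ∃ v : ℝ → ℍ, IsLeaf D t v ∧ v (Y D m) = m := by
  choose! w hwc hwm hw using fun (ℓ : ℝ) (hℓ : 0 ≤ ℓ) => exists_lift hD ht m hm ℓ hℓ
  obtain ⟨s₀, hs₀⟩ : ∃ s₀, s₀ = Y D m := ⟨_, rfl⟩
  rw [← hs₀] at hwc hwm hw ⊢
  have huniq : ∀ ℓ L : ℝ, 0 ≤ ℓ → ℓ ≤ L → EqOn (w ℓ) (w L) (Icc (s₀ - ℓ) (s₀ + ℓ)) := by
    intro ℓ L hℓ hL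
    have hL0 : 0 ≤ L := hℓ.trans hL
    have hsub : Icc (s₀ - ℓ) (s₀ + ℓ) ⊆ Icc (s₀ - L) (s₀ + L) :=
      Icc_subset_Icc (by linarith) (by linarith)
    refine lift_unique hD.holo isPreconnected_Icc (hwc ℓ hℓ) ((hwc L hL0).mono hsub)
      (fun τ hτ => ?_) (fun τ hτ => ?_) (τ₀ := s₀) ⟨by linarith, by linarith⟩ ?_
    · rw [hw ℓ hℓ τ hτ, hw L hL0 τ (hsub hτ)]
    · refine ht _ ?_
      simp [X, hw ℓ hℓ τ hτ]
    · rw [hwm ℓ hℓ, hwm L hL0]
  have hmem : ∀ τ : ℝ, τ ∈ Icc (s₀ - (|τ - s₀| + 1)) (s₀ + (|τ - s₀| + 1)) := by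
    intro τ
    have h1 := neg_abs_le (τ - s₀)
    have h2 := le_abs_self (τ - s₀)
    constructor <;> linarith
  refine ⟨fun τ => w (|τ - s₀| + 1) τ, ⟨?_, fun s => ?_⟩, ?_⟩
  · rw [continuous_iff_continuousAt]
    intro τ₀
    have hL0 : 0 ≤ |τ₀ - s₀| + 2 := by positivity
    have h1 : (fun τ => w (|τ - s₀| + 1) τ) =ᶠ[𝓝 τ₀] w (|τ₀ - s₀| + 2) := by
      filter_upwards [Metric.ball_mem_nhds τ₀ one_pos] with τ hτ
      have h2 : |τ - s₀| + 1 ≤ |τ₀ - s₀| + 2 := by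
        have h3 : |τ - τ₀| < 1 := by
          have := mem_ball.1 hτ
          rwa [Real.dist_eq] at this
        have h4 := abs_add_le (τ - τ₀) (τ₀ - s₀)
        rw [sub_add_sub_cancel] at h4
        linarith
      exact huniq _ _ (by positivity) h2 (hmem τ)
    refine ContinuousAt.congr ?_ h1.symm
    refine (hwc _ hL0).continuousAt (Icc_mem_nhds ?_ ?_)
    · have := neg_abs_le (τ₀ - s₀)
      linarith
    · have := le_abs_self (τ₀ - s₀)
      linarith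
  · exact hw _ (by positivity) s (hmem s)
  · exact hwm _ (by positivity)

end Pool.Agent.ANO.Geo
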