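import Pool.Agent.ANO.Geo.Basic

/-!
# ANO, module A1: calculus of paths (package PathA)
Everything is elementary; `eVariationOn` is Mathlib's total variation.
-/

set_option autoImplicit false

open Set Filter Topology
open scoped UpperHalfPlane MatrixGroups ENNReal

namespace Pool.Agent.ANO.Geo

variable {a b d : ℍ} {p q p' q' : ℝ} {c c' : ℝ → ℍ}

private theorem rev_image (p q : ℝ) : (fun t : ℝ => p + q - t) '' Icc p q = Icc p q := by
  ext x
  constructor
  · rintro ⟨t, ht, rfl⟩
    exact ⟨by linarith [ht.2], by linarith [ht.1]⟩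
  · intro hx
    exact ⟨p + q - x, ⟨by linarith [hx.2], by linarith [hx.1]⟩, by ring⟩

private theorem glue_left (c c' : ℝ → ℍ) (p q p' : ℝ) : EqOn (glue c c' q p') c (Icc p q) := by
  intro t ht
  unfold glue
  rw [if_pos ht.2]

private theorem glue_right (h : IsPath a b p q c) (h' : IsPath b d p' q' c') :
    EqOn (glue c c' q p') (fun t => c' (t - q + p')) (Icc q (q + (q' - p'))) := by
  intro t ht
  show glue c c' q p' t = c' (t - q + p')
  unfold glue
  rcases ht.1.lt_or_eq with hlt | heq
  · rw [if_neg (not_le.2 hlt)]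
  · subst heq
    rw [if_pos (le_refl _)]
    have e : q - q + p' = p' := by ring
    rw [e, h.right, h'.left]

/-- Trivial. -/
theorem IsPath.const (a : ℍ) : IsPath a a 0 0 (fun _ => a) := by
  exact ⟨le_refl _, continuousOn_const, rfl, rfl⟩

/-- Composition with the continuous map `t ↦ p + q - t` of `[p, q]`. -/
theorem IsPath.reverse (h : IsPath a b p q c) : IsPath b a p q (fun t => c (p + q - t)) := by
  refine ⟨h.le, ?_, ?_, ?_⟩
  · refine h.cont.comp (by fun_prop) ?_
    intro t ht
    exact ⟨by linarith [ht.2], by linarith [ht.1]⟩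
  · have e : p + q - p = q := by ring
    simp only [e, h.right]
  · have e : p + q - q = p := by ring
    simp only [e, h.left]

/-- `eVariationOn.comp_eq_of_antitoneOn` with `t ↦ p + q - t`, whose image of `[p, q]` is
`[p, q]`. -/
theorem len_reverse (φ : ℍ → ℝ) (c : ℝ → ℍ) (p q : ℝ) :
    len φ (fun t => c (p + q - t)) p q = len φ c p q := by
  have h1 : AntitoneOn (fun t : ℝ => p + q - t) (Icc p q) := by
    intro x _ y _ hxy
    show p + q - y ≤ p + q - x
    linarith
  have h2 := eVariationOn.comp_eq_of_antitoneOn (fun t => φ (c t)) _ h1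
  rw [rev_image] at h2
  exact h2

/-- Restriction of the path to `[s, t]`. -/
theorem IsPath.sub (h : IsPath a b p q c) {s t : ℝ} (hs : p ≤ s) (hst : s ≤ t) (ht : t ≤ q) :
    IsPath (c s) (c t) s t c := by
  exact ⟨hst, h.cont.mono (Icc_subset_Icc hs ht), rfl, rfl⟩

/-- `eVariationOn.mono`. -/
theorem len_mono (φ : ℍ → ℝ) (c : ℝ → ℍ) {s t : ℝ} (hs : p ≤ s) (ht : t ≤ q) :
    len φ c s t ≤ len φ c p q := by
  exact eVariationOn.mono _ (Icc_subset_Icc hs ht)

/-- `eVariationOn.Icc_add_Icc` (with `s = univ`). -/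
theorem len_add (φ : ℍ → ℝ) (c : ℝ → ℍ) {r : ℝ} (hpr : p ≤ r) (hrq : r ≤ q) :
    len φ c p r + len φ c r q = len φ c p q := by
  have h := eVariationOn.Icc_add_Icc (fun t => φ (c t)) (s := univ) hpr hrq (mem_univ r)
  simp only [univ_inter] at h
  exact h

/-- Continuity of the piecewise function: `ContinuousOn.if` or gluing of closed sets
(`ContinuousOn.union_of_isClosed`) : on `[p, q]` it is `c`, on `[q, q + (q' - p')]` it is
`t ↦ c' (t - q + p')` (both agree at `q` because `c q = b = c' p'`). -/
theorem IsPath.glue (h : IsPath a b p q c) (h' : IsPath b d p' q' c') :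
    IsPath a d p (q + (q' - p')) (glue c c' q p') := by
  have hq : q ≤ q + (q' - p') := by linarith [h'.le]
  have hu : Icc p (q + (q' - p')) = Icc p q ∪ Icc q (q + (q' - p')) :=
    (Icc_union_Icc_eq_Icc h.le hq).symm
  refine ⟨h.le.trans hq, ?_, ?_, ?_⟩
  · rw [hu]
    refine ContinuousOn.union_of_isClosed ?_ ?_ isClosed_Icc isClosed_Icc
    · exact h.cont.congr (glue_left c c' p q p')
    · refine ContinuousOn.congr ?_ (glue_right h h')
      refine h'.cont.comp (by fun_prop) ?_
      intro t ht
      exact ⟨by linarith [ht.1], by linarith [ht.2]⟩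
  · rw [glue_left c c' p q p' (left_mem_Icc.2 h.le)]
    exact h.left
  · rw [glue_right h h' (right_mem_Icc.2 hq)]
    have e : q + (q' - p') - q + p' = q' := by ring
    simp only [e, h'.right]

/-- `len_add` at `q`, `eVariationOn.congr` on both pieces, and `eVariationOn.comp_eq_of_monotoneOn`
for the translation `t ↦ t - q + p'` of the second piece. -/
theorem len_glue (φ : ℍ → ℝ) (h : IsPath a b p q c) (h' : IsPath b d p' q' c') :
    len φ (glue c c' q p') p (q + (q' - p')) = len φ c p q + len φ c' p' q' := by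
  have hq : q ≤ q + (q' - p') := by linarith [h'.le]
  rw [← len_add φ (glue c c' q p') h.le hq]
  congr 1
  · refine eVariationOn.congr ?_
    intro t ht
    show φ (glue c c' q p' t) = φ (c t)
    rw [glue_left c c' p q p' ht]
  · have h1 : len φ (glue c c' q p') q (q + (q' - p')) =
        len φ (fun t => c' (t - q + p')) q (q + (q' - p')) := by
      refine eVariationOn.congr ?_
      intro t ht
      show φ (glue c c' q p' t) = φ (c' (t - q + p'))
      rw [glue_right h h' ht]
    rw [h1]
    have h2 : MonotoneOn (fun t : ℝ => t - q + p') (Icc q (q + (q' - p'))) := by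
      intro x _ y _ hxy
      show x - q + p' ≤ y - q + p'
      linarith
    have h3 := eVariationOn.comp_eq_of_monotoneOn (fun t => φ (c' t)) _ h2
    have h4 : (fun t : ℝ => t - q + p') '' Icc q (q + (q' - p')) = Icc p' q' := by
      ext x
      constructor
      · rintro ⟨t, ht, rfl⟩
        exact ⟨by linarith [ht.1], by linarith [ht.2]⟩
      · intro hx
        exact ⟨x + q - p', ⟨by linarith [hx.1], by linarith [hx.2]⟩, by ring⟩
    rw [h4] at h3
    exact h3

/-- `c' t = c (p + t (q - p))`; `eVariationOn.comp_eq_of_monotoneOn`, image of `[0, 1]` is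
`[p, q]` (also for `p = q`). -/
theorem IsPath.rescale (h : IsPath a b p q c) :
    ∃ c' : ℝ → ℍ, IsPath a b 0 1 c' ∧ ∀ φ : ℍ → ℝ, len φ c' 0 1 = len φ c p q := by
  have hpq := h.le
  have h0 : MonotoneOn (fun t : ℝ => p + t * (q - p)) (Icc 0 1) := by
    intro x _ y _ hxy
    have : x * (q - p) ≤ y * (q - p) := mul_le_mul_of_nonneg_right hxy (by linarith)
    show p + x * (q - p) ≤ p + y * (q - p)
    linarith
  have hm : ∀ t ∈ Icc (0 : ℝ) 1, p + t * (q - p) ∈ Icc p q := by
    intro t ht
    have h1 : 0 ≤ t * (q - p) := mul_nonneg ht.1 (by linarith)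
    have h2 : t * (q - p) ≤ 1 * (q - p) := mul_le_mul_of_nonneg_right ht.2 (by linarith)
    exact ⟨by linarith, by linarith⟩
  have him : (fun t : ℝ => p + t * (q - p)) '' Icc 0 1 = Icc p q := by
    ext x
    constructor
    · rintro ⟨t, ht, rfl⟩
      exact hm t ht
    · intro hx
      rcases hpq.lt_or_eq with hlt | heq
      · have hd : 0 < q - p := by linarith
        refine ⟨(x - p) / (q - p), ⟨div_nonneg (by linarith [hx.1]) hd.le, ?_⟩, ?_⟩
        · rw [div_le_one hd]
          linarith [hx.2]
        · show p + (x - p) / (q - p) * (q - p) = x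
          rw [div_mul_cancel₀ _ hd.ne']
          ring
      · subst heq
        have hxp : x = p := le_antisymm hx.2 hx.1
        subst hxp
        exact ⟨0, ⟨le_refl _, zero_le_one⟩, by simp⟩
  refine ⟨fun t => c (p + t * (q - p)), ⟨zero_le_one, ?_, ?_, ?_⟩, ?_⟩
  · exact h.cont.comp (by fun_prop) hm
  · simp only [zero_mul, add_zero, h.left]
  · have e : p + 1 * (q - p) = q := by ring
    simp only [e, h.right]
  · intro φ
    have h3 := eVariationOn.comp_eq_of_monotoneOn (fun t => φ (c t)) _ h0
    rw [him] at h3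
    exact h3

/-- `eVariationOn.edist_le` at `p` and `q`, `edist_dist`, `Real.dist_eq`. -/
theorem abs_le_len (φ : ℍ → ℝ) (h : IsPath a b p q c) :
    ENNReal.ofReal |φ a - φ b| ≤ len φ c p q := by
  have h1 := eVariationOn.edist_le (fun t => φ (c t)) (left_mem_Icc.2 h.le) (right_mem_Icc.2 h.le)
  simp only [h.left, h.right] at h1
  rw [edist_dist, Real.dist_eq] at h1
  exact h1

/-- If `φ ∘ e = k φ + c₀` then the variation of `φ ∘ e ∘ c` is `|k|` times the variation of
`φ ∘ c`: compare the sums in the definition of `eVariationOn` (`ENNReal.mul_iSup`,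
`Finset.mul_sum`, `edist (k x + c₀) (k y + c₀) = ofReal |k| * edist x y`). -/
theorem len_scale (φ : ℍ → ℝ) (e : ℍ → ℍ) (k c₀ : ℝ) (he : ∀ z, φ (e z) = k * φ z + c₀)
    (c : ℝ → ℍ) (p q : ℝ) :
    len φ (fun t => e (c t)) p q = ENNReal.ofReal |k| * len φ c p q := by
  unfold len eVariationOn
  rw [ENNReal.mul_iSup]
  refine iSup_congr fun u => ?_
  rw [Finset.mul_sum]
  refine Finset.sum_congr rfl fun i _ => ?_
  simp only [he]
  rw [edist_dist, edist_dist, Real.dist_eq, Real.dist_eq,
    ← ENNReal.ofReal_mul (abs_nonneg k), ← abs_mul]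
  congr 2
  ring

/-- The variation of `-φ ∘ c` is the variation of `φ ∘ c`. -/
theorem len_neg (φ : ℍ → ℝ) (c : ℝ → ℍ) (p q : ℝ) :
    len (fun z => -φ z) c p q = len φ c p q := by
  unfold len eVariationOn
  refine iSup_congr fun u => ?_
  refine Finset.sum_congr rfl fun i _ => ?_
  exact edist_neg_neg _ _

/-- The image of a path under a continuous map. -/
theorem IsPath.comp (h : IsPath a b p q c) (e : ℍ → ℍ) (he : Continuous e) :
    IsPath (e a) (e b) p q (fun t => e (c t)) := by
  refine ⟨h.le, he.comp_continuousOn h.cont, ?_, ?_⟩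
  · show e (c p) = e a
    rw [h.left]
  · show e (c q) = e b
    rw [h.right]

end Pool.Agent.ANO.Geo
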