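import Pool.Agent.ANO.Geo.PathA

/-!
# ANO, module A1: (A1), short paths (package Upper)
-/

set_option autoImplicit false

open Set Filter Topology
open scoped UpperHalfPlane MatrixGroups ENNReal

namespace Pool.Agent.ANO.Geo

/-- `|D'(z)| Im z` is `Γ`-invariant: differentiate `D (γ z) = ε D z + c`
(`D` is differentiable at `γ z`, the Möbius map has derivative `1 / (c z + d)²` and
`Im (γ z) = Im z / |c z + d|²`: `UpperHalfPlane.im_smul_eq_div_normSq` or similar; the equation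
`D (γ z) = ε D z + c` holds on the open half plane). -/
theorem deriv_mul_im_invariant (S : FlatSurface) (γ : SL(2, ℝ)) (hγ : γ ∈ S.Γ) (z : ℍ) :
    ‖deriv S.D ((γ • z : ℍ) : ℂ)‖ * (γ • z : ℍ).im = ‖deriv S.D (z : ℂ)‖ * z.im := by
  obtain ⟨ε, c₀, hε, heq⟩ := S.equivar γ hγ
  have hopen : IsOpen {w : ℂ | 0 < w.im} := isOpen_lt continuous_const Complex.continuous_im
  have hdiff : ∀ w : ℍ, DifferentiableAt ℂ S.D (w : ℂ) := fun w =>
    S.holo.differentiableAt (hopen.mem_nhds w.im_pos)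
  have hden : ((γ 1 0 : ℝ) : ℂ) * z + ((γ 1 1 : ℝ) : ℂ) ≠ 0 :=
    UpperHalfPlane.denom_ne_zero (γ : GL (Fin 2) ℝ) z
  have hdet : γ 0 0 * γ 1 1 - γ 0 1 * γ 1 0 = 1 := by
    have := γ.det_coe
    rwa [Matrix.det_fin_two] at this
  have hdetC :
      ((γ 0 0 : ℝ) : ℂ) * ((γ 1 1 : ℝ) : ℂ) - ((γ 0 1 : ℝ) : ℂ) * ((γ 1 0 : ℝ) : ℂ) = 1 := by
    exact_mod_cast hdet
  have hcoe : ∀ w : ℍ, ((γ • w : ℍ) : ℂ) =
      (((γ 0 0 : ℝ) : ℂ) * w + ((γ 0 1 : ℝ) : ℂ)) /
        (((γ 1 0 : ℝ) : ℂ) * w + ((γ 1 1 : ℝ) : ℂ)) := by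
    intro w
    have := UpperHalfPlane.coe_specialLinearGroup_apply γ w
    simpa using this
  set G : ℂ → ℂ := fun w =>
    (((γ 0 0 : ℝ) : ℂ) * w + ((γ 0 1 : ℝ) : ℂ)) /
      (((γ 1 0 : ℝ) : ℂ) * w + ((γ 1 1 : ℝ) : ℂ)) with hG
  have hGd : HasDerivAt G (1 / (((γ 1 0 : ℝ) : ℂ) * z + ((γ 1 1 : ℝ) : ℂ)) ^ 2) (z : ℂ) := by
    have h1 : HasDerivAt (fun w : ℂ => ((γ 0 0 : ℝ) : ℂ) * w + ((γ 0 1 : ℝ) : ℂ))
        ((γ 0 0 : ℝ) : ℂ) (z : ℂ) := by
      simpa using ((hasDerivAt_id (z : ℂ)).const_mul ((γ 0 0 : ℝ) : ℂ)).add_const ((γ 0 1 : ℝ) : ℂ)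
    have h2 : HasDerivAt (fun w : ℂ => ((γ 1 0 : ℝ) : ℂ) * w + ((γ 1 1 : ℝ) : ℂ))
        ((γ 1 0 : ℝ) : ℂ) (z : ℂ) := by
      simpa using ((hasDerivAt_id (z : ℂ)).const_mul ((γ 1 0 : ℝ) : ℂ)).add_const ((γ 1 1 : ℝ) : ℂ)
    have h3 := h1.div h2 hden
    have h4 : (((γ 0 0 : ℝ) : ℂ) * (((γ 1 0 : ℝ) : ℂ) * z + ((γ 1 1 : ℝ) : ℂ)) -
        (((γ 0 0 : ℝ) : ℂ) * z + ((γ 0 1 : ℝ) : ℂ)) * ((γ 1 0 : ℝ) : ℂ)) = 1 := by
      linear_combination hdetC
    rw [h4] at h3
    exact h3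
  have hGz : G (z : ℂ) = ((γ • z : ℍ) : ℂ) := (hcoe z).symm
  have hD1 : HasDerivAt S.D (deriv S.D ((γ • z : ℍ) : ℂ)) (G (z : ℂ)) := by
    rw [hGz]
    exact (hdiff (γ • z)).hasDerivAt
  have hcomp := hD1.comp (z : ℂ) hGd
  have hev : (fun w : ℂ => ε * S.D w + c₀) =ᶠ[𝓝 (z : ℂ)] (S.D ∘ G) := by
    filter_upwards [hopen.mem_nhds z.im_pos] with w hw
    have h5 := heq ⟨w, hw⟩
    rw [hcoe] at h5
    exact h5.symm
  have hcomp2 := hcomp.congr_of_eventuallyEq hev
  have hlin : HasDerivAt (fun w : ℂ => ε * S.D w + c₀) (ε * deriv S.D (z : ℂ)) (z : ℂ) :=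
    ((hdiff z).hasDerivAt.const_mul ε).add_const c₀
  have hkey := hcomp2.unique hlin
  have hεn : ‖ε‖ = 1 := by
    rcases hε with h | h <;> simp [h]
  have hnorm := congrArg norm hkey
  rw [norm_mul, norm_mul, hεn, one_mul, norm_div, norm_one, norm_pow] at hnorm
  have him : (γ • z : ℍ).im = z.im / ‖((γ 1 0 : ℝ) : ℂ) * z + ((γ 1 1 : ℝ) : ℂ)‖ ^ 2 := by
    have h6 : (γ • z : ℍ).im = |((γ : GL (Fin 2) ℝ)).det.val| * z.im /
        Complex.normSq (UpperHalfPlane.denom (γ : GL (Fin 2) ℝ) z) :=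
      UpperHalfPlane.im_smul_eq_div_normSq (γ : GL (Fin 2) ℝ) z
    have h7 : ((γ : GL (Fin 2) ℝ)).det.val = 1 := by simp
    rw [h6, h7, abs_one, one_mul, Complex.normSq_eq_norm_sq]
    rfl
  rw [him, ← hnorm]
  ring

/-- The continuous function `|D'(z)| Im z` is bounded on the compact set `K` of `S.cocompact`
(`deriv D` is continuous on the open half plane: `DifferentiableOn.deriv`), hence everywhere by
`deriv_mul_im_invariant`. -/
theorem exists_bound (S : FlatSurface) :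
    ∃ K : ℝ, 0 < K ∧ ∀ z : ℍ, ‖deriv S.D (z : ℂ)‖ * z.im ≤ K := by
  obtain ⟨K, hK, hcov⟩ := S.cocompact
  have hopen : IsOpen {w : ℂ | 0 < w.im} := isOpen_lt continuous_const Complex.continuous_im
  have hder : ContinuousOn (deriv S.D) {w : ℂ | 0 < w.im} :=
    (S.holo.deriv hopen).continuousOn
  have hcont : Continuous fun z : ℍ => ‖deriv S.D (z : ℂ)‖ * z.im := by
    have h1 : Continuous fun z : ℍ => deriv S.D (z : ℂ) :=
      hder.comp_continuous UpperHalfPlane.continuous_coe (fun z => z.im_pos)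
    exact h1.norm.mul UpperHalfPlane.continuous_im
  obtain ⟨C, hC⟩ := hK.exists_bound_of_continuousOn hcont.continuousOn
  refine ⟨max C 1, lt_of_lt_of_le one_pos (le_max_right _ _), fun z => ?_⟩
  obtain ⟨γ, hγ, hz⟩ := hcov z
  rw [← deriv_mul_im_invariant S γ hγ z]
  exact (le_trans (Real.le_norm_self _) (hC _ hz)).trans (le_max_left _ _)

/-- The point `(1 - t) a + t b` of the half plane, for `t` in `[0, 1]`. -/
private theorem seg_im_pos (a b : ℍ) {t : ℝ} (h0 : 0 ≤ t) (h1 : t ≤ 1) :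
    0 < ((a : ℂ) + (t : ℂ) * ((b : ℂ) - a)).im := by
  have h2 : ((a : ℂ) + (t : ℂ) * ((b : ℂ) - a)).im = (1 - t) * a.im + t * b.im := by
    simp only [Complex.add_im, Complex.mul_im, Complex.ofReal_re, Complex.ofReal_im,
      Complex.sub_im, Complex.sub_re, zero_mul, add_zero, UpperHalfPlane.coe_im]
    ring
  rw [h2]
  have ha := a.im_pos
  have hb := b.im_pos
  rcases eq_or_lt_of_le h1 with h | h
  · subst h
    linarith
  · have h3 : 0 < (1 - t) * a.im := mul_pos (by linarith) ha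
    have h4 : 0 ≤ t * b.im := mul_nonneg h0 hb.le
    linarith

/-- The points of the Euclidean segment are at hyperbolic distance at most `dist a b` from `a`. -/
private theorem seg_dist_le (a b w : ℍ) {t : ℝ} (h0 : 0 ≤ t) (h1 : t ≤ 1)
    (hw : (w : ℂ) = (a : ℂ) + (t : ℂ) * ((b : ℂ) - a)) : dist a w ≤ dist a b := by
  have hb : dist b a ≤ dist a b := (dist_comm b a).le
  rw [UpperHalfPlane.dist_le_iff_dist_coe_center_le] at hb
  have ha : dist a a ≤ dist a b := by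
    rw [dist_self]
    exact dist_nonneg
  rw [UpperHalfPlane.dist_le_iff_dist_coe_center_le] at ha
  rw [dist_comm a w, UpperHalfPlane.dist_le_iff_dist_coe_center_le, hw]
  have hconv := convex_closedBall ((a.center (dist a b) : ℍ) : ℂ) (a.im * Real.sinh (dist a b))
  have h3 := hconv (Metric.mem_closedBall.2 ha) (Metric.mem_closedBall.2 hb)
    (sub_nonneg.2 h1) h0 (by ring)
  rw [Metric.mem_closedBall] at h3
  refine le_of_eq_of_le ?_ h3
  congr 1
  simp only [Complex.real_smul, Complex.ofReal_sub, Complex.ofReal_one]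
  ring

/-- The Euclidean segment `c t = (1 - t) a + t b` from `a` to `b` (a point of `ℍ` by convexity of
the half plane) stays in the closed hyperbolic ball about `a` of radius `δ = dist a b`: hyperbolic
balls are Euclidean discs, `UpperHalfPlane.dist_le_iff_dist_coe_center_le`, and discs are convex.
On this ball `Im z ≥ Im a * exp (-δ)` (`UpperHalfPlane.im_div_exp_dist_le`), so
`‖D'‖ ≤ K * exp δ / Im a`; the ball is Euclidean convex, so `D` is Lipschitz there with this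
constant (`Convex.norm_image_sub_le_of_norm_deriv_le`, or derivative along the segment), and
`|a - b| ≤ Im a * (exp δ - 1)` (`UpperHalfPlane.dist_coe_le`, with the two points exchanged).
So `|D (c s) - D (c t)| ≤ K * exp δ * (exp δ - 1) * |s - t|`, and the variation on `[0, 1]` of a
Lipschitz function is at most the constant (`LipschitzOnWith.comp_eVariationOn_le` with the
identity, whose variation is `1`, or directly `Finset.sum` telescoping).  The real and imaginary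
part both satisfy this bound; the sum gives the factor `2`. -/
theorem exists_short_path (S : FlatSurface) :
    ∃ K : ℝ, 0 < K ∧ ∀ a b : ℍ, ∃ c : ℝ → ℍ, IsPath a b 0 1 c ∧
      lenD S.D c 0 1 ≤ ENNReal.ofReal
        (2 * K * (Real.exp (dist a b) * (Real.exp (dist a b) - 1))) := by
  obtain ⟨K, hK, hbd⟩ := exists_bound S
  refine ⟨K, hK, fun a b => ?_⟩
  have hopen : IsOpen {w : ℂ | 0 < w.im} := isOpen_lt continuous_const Complex.continuous_im
  set δ := dist a b with hδ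
  have hδ0 : 0 ≤ δ := dist_nonneg
  have hE : 0 ≤ Real.exp δ - 1 := sub_nonneg.2 (Real.one_le_exp hδ0)
  set L : ℝ := K * (Real.exp δ * (Real.exp δ - 1)) with hL
  have hL0 : 0 ≤ L := mul_nonneg hK.le (mul_nonneg (Real.exp_pos _).le hE)
  -- the path
  set τ : ℝ → ℝ := fun t => (projIcc (0 : ℝ) 1 zero_le_one t : ℝ) with hτ
  have hτc : Continuous τ := continuous_subtype_val.comp continuous_projIcc
  have hτ0 : ∀ t, 0 ≤ τ t := fun t => (projIcc (0 : ℝ) 1 zero_le_one t).2.1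
  have hτ1 : ∀ t, τ t ≤ 1 := fun t => (projIcc (0 : ℝ) 1 zero_le_one t).2.2
  have hτe : ∀ t ∈ Icc (0 : ℝ) 1, τ t = t := fun t ht => by
    simp only [hτ]
    rw [projIcc_of_mem zero_le_one ht]
  set g : ℝ → ℂ := fun t => (a : ℂ) + (t : ℂ) * ((b : ℂ) - a) with hg
  have hgc : Continuous g := by
    simp only [hg]
    fun_prop
  set c : ℝ → ℍ := fun t => ⟨g (τ t), seg_im_pos a b (hτ0 t) (hτ1 t)⟩ with hc
  have hcc : Continuous c :=
    Continuous.upperHalfPlaneMk (hgc.comp hτc) (fun t => seg_im_pos a b (hτ0 t) (hτ1 t))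
  have hcg : ∀ t ∈ Icc (0 : ℝ) 1, ((c t : ℍ) : ℂ) = g t := fun t ht => by
    change g (τ t) = g t
    rw [hτe t ht]
  have hpath : IsPath a b 0 1 c := by
    refine ⟨zero_le_one, hcc.continuousOn, ?_, ?_⟩
    · apply UpperHalfPlane.coe_injective
      rw [hcg 0 (left_mem_Icc.2 zero_le_one)]
      simp [hg]
    · apply UpperHalfPlane.coe_injective
      rw [hcg 1 (right_mem_Icc.2 zero_le_one)]
      simp [hg]
  refine ⟨c, hpath, ?_⟩
  -- derivative bound
  have hgd : ∀ t : ℝ, HasDerivAt g ((b : ℂ) - a) t := by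
    intro t
    have h1 : HasDerivAt (fun s : ℝ => (s : ℂ) * ((b : ℂ) - a)) (1 * ((b : ℂ) - a)) t :=
      (Complex.ofRealCLM.hasDerivAt).mul_const _
    rw [one_mul] at h1
    exact h1.const_add _
  have hfd : ∀ t ∈ Icc (0 : ℝ) 1,
      HasDerivWithinAt (fun t => S.D (g t)) (deriv S.D (g t) * ((b : ℂ) - a)) (Icc 0 1) t := by
    intro t ht
    have h1 : DifferentiableAt ℂ S.D (g t) :=
      S.holo.differentiableAt (hopen.mem_nhds (seg_im_pos a b ht.1 ht.2))
    exact (h1.hasDerivAt.comp_of_eq t (hgd t) rfl).hasDerivWithinAt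
  have hbound : ∀ t ∈ Icc (0 : ℝ) 1, ‖deriv S.D (g t) * ((b : ℂ) - a)‖ ≤ L := by
    intro t ht
    have h1 : dist a (c t) ≤ δ := seg_dist_le a b (c t) ht.1 ht.2 (hcg t ht)
    have h2 := hbd (c t)
    rw [hcg t ht] at h2
    have h3 : a.im / Real.exp δ ≤ (c t).im :=
      (div_le_div_of_nonneg_left a.im_pos.le (Real.exp_pos _) (Real.exp_le_exp.2 h1)).trans
        (UpperHalfPlane.im_div_exp_dist_le a (c t))
    have h4 : ‖(b : ℂ) - a‖ ≤ a.im * (Real.exp δ - 1) := by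
      have := UpperHalfPlane.dist_coe_le b a
      rw [dist_comm b a, Complex.dist_eq] at this
      exact this
    have hpos : 0 < a.im / Real.exp δ := div_pos a.im_pos (Real.exp_pos _)
    have h5 : ‖deriv S.D (g t)‖ * (a.im / Real.exp δ) ≤ K :=
      (mul_le_mul_of_nonneg_left h3 (norm_nonneg _)).trans h2
    have h6 : ‖deriv S.D (g t)‖ ≤ K / (a.im / Real.exp δ) := (le_div_iff₀ hpos).2 h5
    rw [norm_mul]
    have h7 : ‖deriv S.D (g t)‖ * ‖(b : ℂ) - a‖ ≤
        K / (a.im / Real.exp δ) * (a.im * (Real.exp δ - 1)) :=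
      mul_le_mul h6 h4 (norm_nonneg _) (div_nonneg hK.le hpos.le)
    refine h7.trans (le_of_eq ?_)
    have ha0 : a.im ≠ 0 := a.im_pos.ne'
    have he0 : Real.exp δ ≠ 0 := (Real.exp_pos δ).ne'
    rw [hL]
    field_simp
  have hlip : ∀ s ∈ Icc (0 : ℝ) 1, ∀ t ∈ Icc (0 : ℝ) 1, ‖S.D (g t) - S.D (g s)‖ ≤ L * ‖t - s‖ :=
    fun s hs t ht => (convex_Icc (0 : ℝ) 1).norm_image_sub_le_of_norm_hasDerivWithin_le
      hfd hbound hs ht
  -- variation of a function which is Lipschitz on `[0, 1]`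
  have hvar : ∀ φ : ℍ → ℝ, (∀ z w : ℍ, |φ z - φ w| ≤ ‖S.D z - S.D w‖) →
      len φ c 0 1 ≤ ENNReal.ofReal L := by
    intro φ hφ
    have h1 : LipschitzOnWith L.toNNReal (fun t => φ (c t)) (Icc 0 1) := by
      apply LipschitzOnWith.of_dist_le_mul
      intro s hs t ht
      rw [Real.dist_eq, Real.coe_toNNReal L hL0, Real.dist_eq]
      refine (hφ _ _).trans ?_
      rw [hcg s hs, hcg t ht]
      exact hlip t ht s hs
    have h2 := h1.comp_eVariationOn_le (g := fun t : ℝ => t) (s := Icc (0 : ℝ) 1)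
      (fun t ht => ht)
    have h3 : eVariationOn (fun t : ℝ => t) (Icc (0 : ℝ) 1) ≤ ENNReal.ofReal (1 - 0) := by
      have h4 : MonotoneOn (fun t : ℝ => t) (Icc (0 : ℝ) 1) := fun x _ y _ h => h
      have h5 := (h4.eVariationOn_eq (left_mem_Icc.2 zero_le_one)
        (right_mem_Icc.2 zero_le_one)).le
      rwa [inter_self] at h5
    have h6 : eVariationOn (fun t : ℝ => t) (Icc (0 : ℝ) 1) ≤ 1 := by
      simpa using h3
    calc len φ c 0 1 ≤ (L.toNNReal : ℝ≥0∞) * eVariationOn (fun t : ℝ => t) (Icc (0 : ℝ) 1) := h2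
      _ ≤ (L.toNNReal : ℝ≥0∞) * 1 := mul_le_mul_right h6 _
      _ = ENNReal.ofReal L := by rw [mul_one]; rfl
  have hX : len (X S.D) c 0 1 ≤ ENNReal.ofReal L := by
    refine hvar _ (fun z w => ?_)
    have := Complex.abs_re_le_norm (S.D z - S.D w)
    rwa [Complex.sub_re] at this
  have hY : len (Y S.D) c 0 1 ≤ ENNReal.ofReal L := by
    refine hvar _ (fun z w => ?_)
    have := Complex.abs_im_le_norm (S.D z - S.D w)
    rwa [Complex.sub_im] at this
  calc lenD S.D c 0 1 ≤ ENNReal.ofReal L + ENNReal.ofReal L := add_le_add hX hY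
    _ = ENNReal.ofReal (2 * K * (Real.exp δ * (Real.exp δ - 1))) := by
      rw [← ENNReal.ofReal_add hL0 hL0, hL]
      congr 1
      ring

end Pool.Agent.ANO.Geo
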